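import Pool.Agent.TBirE.PCon
import Pool.Agent.TBirE.PBd
import Pool.Agent.TBirG.Kap

/-!
# The spectrum
-/

set_option autoImplicit false

open MeasureTheory Complex Set Filter Topology Metric AddCircle
open scoped ComplexConjugate InnerProductSpace ENNReal
open Pool.Lib (dbar)

namespace Pool.Agent.TBirE

open Pool.Agent.TBir
open Pool.Agent.TBirM (ae_notMem Sg_not_unit)
open Pool.Agent.TBirS (Sg isCompact_Sg isOpen_compl_Sg off_Sg PBd_rT PBd_rS comm_aeval res_mul_sq
  norm_le_of_inner FF_le resolvent_apply)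

/-- The operator `(T - l0)` times the Cauchy integral. -/
theorem exists_V {phi : ℂ → ℂ} (hphi : AnalyticOnNhd ℂ phi (sphere 0 1)) {Phi : CT}
    (hPhi : ∀ x, Phi x = phi (e x)) {U1 U2 : Set ℂ} (K : CutE phi U1 U2)
    {m : ℕ} (hI : K.Bd Phi m) {l0 : ℂ} (hl0 : l0 ∈ Sg phi) (hQ : l0 ∉ K.Q) :
    ∃ V : Hardy →L[ℂ] Hardy, (T Phi - l0 • (1 : Hardy →L[ℂ] Hardy)) * V =
        (Real.pi * K.chi l0 : ℂ) • Nqp Phi K.Q m + ∫ l, dbar K.chi l • (resolvent (T Phi) l * Nqp Phi K.Q m) ∧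
      V * (T Phi - l0 • (1 : Hardy →L[ℂ] Hardy)) =
        (Real.pi * K.chi l0 : ℂ) • Nqp Phi K.Q m +
          ∫ l, dbar K.chi l • (resolvent (T Phi) l * Nqp Phi K.Q m) := by
  obtain ⟨C, hC⟩ := id hI
  obtain ⟨δ, hδ, hV⟩ := Metric.eventually_nhds_iff_ball.1 (K.V_off hl0 hQ)
  have hdist : ∀ l ∈ K.V, ‖(l - l0)⁻¹‖ ≤ δ⁻¹ := by
    intro l hl
    rw [norm_inv]
    refine inv_anti₀ hδ ?_
    by_contra h
    exact hV l (mem_ball_iff_norm.2 (not_le.1 h)) hl
  have hmeas : Measurable fun l : ℂ => (l - l0)⁻¹ := (measurable_id.sub_const l0).inv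
  have hcont : ∀ n, Continuous fun l => K.w n l • (resolvent (T Phi) l * Nqp Phi K.Q m) := by
    intro n
    have h1 := (K.continuous_res hphi hPhi n).mul (continuous_const (y := Nqp Phi K.Q m))
    refine h1.congr fun l => ?_
    exact smul_mul_assoc _ _ _
  -- the three integrals
  have c1 := conv K (F := fun _ l => (l - l0)⁻¹ • (resolvent (T Phi) l * Nqp Phi K.Q m))
    (G := fun l => (l - l0)⁻¹ • (resolvent (T Phi) l * Nqp Phi K.Q m)) (C := δ⁻¹ * C)
    (fun _ l hl hlQ => by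
      rw [norm_smul]
      exact mul_le_mul (hdist l hl) (hC l hl hlQ) (norm_nonneg _) (inv_pos.2 hδ).le)
    (fun l _ => tendsto_const_nhds) (fun n => by
      have h1 : (fun l => K.w n l • (l - l0)⁻¹ • (resolvent (T Phi) l * Nqp Phi K.Q m)) =
          fun l => (l - l0)⁻¹ • (K.w n l • (resolvent (T Phi) l * Nqp Phi K.Q m)) := by
        funext l
        rw [smul_comm]
      rw [h1]
      exact hmeas.aestronglyMeasurable.smul (hcont n).aestronglyMeasurable)
  have c2 := conv K (F := fun _ l => resolvent (T Phi) l * Nqp Phi K.Q m)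
    (G := fun l => resolvent (T Phi) l * Nqp Phi K.Q m) (C := C) (fun _ l hl hQ => hC l hl hQ)
    (fun l _ => tendsto_const_nhds) (fun n => (hcont n).aestronglyMeasurable)
  have c3 := conv K (F := fun _ l => (l - l0)⁻¹) (G := fun l => (l - l0)⁻¹) (C := δ⁻¹)
    (fun _ l hl _ => hdist l hl) (fun l _ => tendsto_const_nhds) (fun n =>
      ((K.continuous_w n).measurable.mul hmeas).aestronglyMeasurable)
  -- the value of the scalar integral
  have hs : ∫ l, dbar K.chi l • (l - l0)⁻¹ = -(Real.pi * K.chi l0) := by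
    have h1 := (K.tendsto_s hQ).const_mul (-(Real.pi : ℂ))
    have hpi : (Real.pi : ℂ) ≠ 0 := by exact_mod_cast Real.pi_ne_zero
    have h2 : ∀ n, -(Real.pi : ℂ) * K.s n l0 = ∫ l, K.w n l • (l - l0)⁻¹ := by
      intro n
      have h3 : K.s n l0 = -(Real.pi : ℂ)⁻¹ * ∫ l, K.w n l / (l - l0) := rfl
      rw [h3]
      simp only [smul_eq_mul, ← div_eq_mul_inv]
      field_simp
    simp only [h2] at h1
    rw [tendsto_nhds_unique c3.2 h1]
    ring
  obtain ⟨A, hA⟩ : ∃ A : Hardy →L[ℂ] Hardy, A = T Phi - l0 • (1 : Hardy →L[ℂ] Hardy) := ⟨_, rfl⟩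
  obtain ⟨N, hN⟩ : ∃ N : Hardy →L[ℂ] Hardy, N = Nqp Phi K.Q m := ⟨_, rfl⟩
  rw [← hA, ← hN]
  rw [← hN] at c1 c2
  -- pointwise identities
  have hNT : T Phi * N = N * T Phi := by
    rw [hN]
    exact comm_aeval rfl _
  have key : ∀ l, l ∉ K.Q → dbar K.chi l ≠ 0 →
      A * resolvent (T Phi) l = (l - l0) • resolvent (T Phi) l - 1 ∧
        resolvent (T Phi) l * A = (l - l0) • resolvent (T Phi) l - 1 := by
    intro l hlQ hd
    have hlS : l ∉ Sg phi := fun h => (K.V_off h hlQ).self_of_nhds (Or.inl hd)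
    have hr : IsUnit (algebraMap ℂ (Hardy →L[ℂ] Hardy) l - T Phi) := PBd_rT hphi hPhi l hlS
    have h1 : resolvent (T Phi) l * (algebraMap ℂ (Hardy →L[ℂ] Hardy) l - T Phi) = 1 :=
      Ring.inverse_mul_cancel _ hr
    have h2 : (algebraMap ℂ (Hardy →L[ℂ] Hardy) l - T Phi) * resolvent (T Phi) l = 1 :=
      Ring.mul_inverse_cancel _ hr
    rw [Algebra.algebraMap_eq_smul_one] at h1 h2
    rw [mul_sub, mul_smul_comm, mul_one] at h1
    rw [sub_mul, smul_mul_assoc, one_mul] at h2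
    have e1 : resolvent (T Phi) l * T Phi = l • resolvent (T Phi) l - 1 := by
      rw [← h1]; abel
    have e2 : T Phi * resolvent (T Phi) l = l • resolvent (T Phi) l - 1 := by
      rw [← h2]; abel
    constructor
    · rw [hA, sub_mul, smul_mul_assoc, one_mul, e2, sub_smul]
      abel
    · rw [hA, mul_sub, mul_smul_comm, mul_one, e1, sub_smul]
      abel
  have hNA : N * A = A * N := by
    rw [hA, mul_sub, sub_mul, ← hNT, mul_smul_comm, smul_mul_assoc, mul_one, one_mul]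
  have pt1 : ∀ l, l ∉ K.Q → A * (dbar K.chi l • (l - l0)⁻¹ • (resolvent (T Phi) l * N)) =
      dbar K.chi l • (resolvent (T Phi) l * N) - (dbar K.chi l • (l - l0)⁻¹) • N := by
    intro l hlQ
    by_cases hd : dbar K.chi l = 0
    · rw [hd]
      simp
    · have hll : l - l0 ≠ 0 := by
        intro h
        rw [sub_eq_zero.1 h] at hd
        exact (K.V_off hl0 hQ).self_of_nhds (Or.inl hd)
      rw [mul_smul_comm, mul_smul_comm, ← mul_assoc, (key l hlQ hd).1, sub_mul, one_mul,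
        smul_mul_assoc, smul_sub, smul_smul, inv_mul_cancel₀ hll, one_smul, smul_sub, smul_smul,
        smul_eq_mul]
  have pt2 : ∀ l, l ∉ K.Q → (dbar K.chi l • (l - l0)⁻¹ • (resolvent (T Phi) l * N)) * A =
      dbar K.chi l • (resolvent (T Phi) l * N) - (dbar K.chi l • (l - l0)⁻¹) • N := by
    intro l hlQ
    by_cases hd : dbar K.chi l = 0
    · rw [hd]
      simp
    · have hll : l - l0 ≠ 0 := by
        intro h
        rw [sub_eq_zero.1 h] at hd
        exact (K.V_off hl0 hQ).self_of_nhds (Or.inl hd)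
      rw [smul_mul_assoc, smul_mul_assoc, mul_assoc, hNA, ← mul_assoc, (key l hlQ hd).2, sub_mul,
        one_mul, smul_mul_assoc, smul_sub, smul_smul, inv_mul_cancel₀ hll, one_smul, smul_sub,
        smul_smul, smul_eq_mul]
  have hI3 : Integrable fun l => (dbar K.chi l • (l - l0)⁻¹) • N := c3.1.smul_const N
  have fin : ∫ l, (dbar K.chi l • (resolvent (T Phi) l * N) - (dbar K.chi l • (l - l0)⁻¹) • N) =
      (Real.pi * K.chi l0 : ℂ) • N + ∫ l, dbar K.chi l • (resolvent (T Phi) l * N) := by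
    rw [integral_sub c2.1 hI3, integral_smul_const, hs, neg_smul]
    abel
  refine ⟨∫ l, dbar K.chi l • (l - l0)⁻¹ • (resolvent (T Phi) l * N), ?_, ?_⟩
  · rw [← integral_const_mul_of_integrable c1.1, ← fin]
    refine integral_congr_ae ?_
    filter_upwards [ae_notMem K.Q] with l hl using pt1 l hl
  · rw [← integral_mul_const_of_integrable c1.1, ← fin]
    refine integral_congr_ae ?_
    filter_upwards [ae_notMem K.Q] with l hl using pt2 l hl

/-- If the limit operator is trivial near `l0` then `l0` is not in the spectrum. -/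
theorem false_of_eq {phi : ℂ → ℂ} (hphi : AnalyticOnNhd ℂ phi (sphere 0 1)) {Phi : CT}
    (hPhi : ∀ x, Phi x = phi (e x)) {U1 U2 : Set ℂ} (K : CutE phi U1 U2)
    {m : ℕ} (hI : K.Bd Phi m) {l0 : ℂ} (hl0 : l0 ∈ Sg phi) (hQ : l0 ∉ K.Q) {c : ℂ} (hc : c ≠ 0)
    (h : (Real.pi * K.chi l0 : ℂ) • Nqp Phi K.Q m +
      ∫ l, dbar K.chi l • (resolvent (T Phi) l * Nqp Phi K.Q m) = c • Nqp Phi K.Q m) : False := by
  obtain ⟨V, h1, h2⟩ := exists_V hphi hPhi K hI hl0 hQ
  rw [h] at h1 h2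
  obtain ⟨A, hA⟩ : ∃ A : Hardy →L[ℂ] Hardy, A = T Phi - l0 • (1 : Hardy →L[ℂ] Hardy) := ⟨_, rfl⟩
  have hcop : IsCoprime (Polynomial.X - Polynomial.C l0)
      (∏ q ∈ K.Q, (Polynomial.X - Polynomial.C q) ^ m) := by
    refine IsCoprime.prod_right fun q hq => IsCoprime.pow_right ?_
    exact Polynomial.isCoprime_X_sub_C_of_isUnit_sub
      (isUnit_iff_ne_zero.2 (sub_ne_zero.2 fun h3 => hQ (h3 ▸ hq)))
  obtain ⟨a, b, hab⟩ := hcop
  have h3 := congrArg (Polynomial.aeval (T Phi)) hab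
  rw [map_add, map_mul, map_mul, map_one, map_sub, Polynomial.aeval_X, Polynomial.aeval_C,
    Algebra.algebraMap_eq_smul_one, ← hA] at h3
  have h4 : Polynomial.aeval (T Phi) a * A + Polynomial.aeval (T Phi) b * Nqp Phi K.Q m = 1 := h3
  have hTA : T Phi * A = A * T Phi := by
    rw [hA, mul_sub, sub_mul, mul_smul_comm, smul_mul_assoc, mul_one, one_mul]
  have hca : A * Polynomial.aeval (T Phi) a = Polynomial.aeval (T Phi) a * A :=
    comm_aeval hTA.symm _
  have hcb : A * Polynomial.aeval (T Phi) b = Polynomial.aeval (T Phi) b * A :=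
    comm_aeval hTA.symm _
  rw [← hA] at h1 h2
  have hN1 : Nqp Phi K.Q m = c⁻¹ • (A * V) := by rw [h1, smul_smul, inv_mul_cancel₀ hc, one_smul]
  have hN2 : Nqp Phi K.Q m = c⁻¹ • (V * A) := by rw [h2, smul_smul, inv_mul_cancel₀ hc, one_smul]
  have r1 : A * (Polynomial.aeval (T Phi) a + c⁻¹ • (Polynomial.aeval (T Phi) b * V)) = 1 := by
    rw [mul_add, hca, mul_smul_comm, ← mul_assoc, hcb, mul_assoc, ← mul_smul_comm, ← hN1, h4]
  have hbV : Nqp Phi K.Q m * Polynomial.aeval (T Phi) b =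
      Polynomial.aeval (T Phi) b * Nqp Phi K.Q m := by
    unfold Nqp
    rw [← map_mul, ← map_mul, mul_comm]
  have r2 : (Polynomial.aeval (T Phi) a + c⁻¹ • (Polynomial.aeval (T Phi) b * V)) * A = 1 := by
    rw [add_mul, smul_mul_assoc, mul_assoc, ← mul_smul_comm, ← hN2, h4]
  refine Sg_not_unit hphi hPhi hl0 ?_
  rw [← hA]
  exact ⟨⟨A, _, r1, r2⟩, rfl⟩

end Pool.Agent.TBirE
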