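import Pool.Agent.TBirE.PStk
import Pool.Agent.TBirE.PNon
import Pool.Agent.TBirE.PFub
import Pool.Agent.TBir.Stmt
import Pool.Agent.TBir.MainB

/-!
# Splitting with the general cutoff function

Port of TBirM/Main.lean from `CutM` to `CutE`: the files PSt, PBd, PEig, PRes, PCon, PStk, PFub, PNon are the ports of
STr, PBd, EigB, ResN, Conv, Stk, Fub, NonT. The square in `Nq` is replaced by a high power (`Nqp`).
-/

set_option autoImplicit false

open MeasureTheory Complex Set Filter Topology Metric AddCircle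
open scoped ComplexConjugate InnerProductSpace ENNReal
open Pool.Lib (dbar)

namespace Pool.Agent.TBirE

open Pool.Agent.TBir Pool.Agent.TBirG
open Pool.Agent.TBirS (Sg DR comm_aeval PBd_rT)
open Pool.Agent.TBirM (dr_q)

theorem dense_N {Phi : CT} {Q : Finset ℂ}
    (hDR : ∀ q ∈ Q, DR (T Phi - q • (1 : Hardy →L[ℂ] Hardy))) (m : ℕ) : DR (Nqp Phi Q m) := by
  classical
  have hp : ∀ A : Hardy →L[ℂ] Hardy, DR A → DR (A ^ m) := by
    intro A hA
    induction m with
    | zero =>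
      rw [pow_zero]
      exact DR.one
    | succ m ih =>
      rw [pow_succ]
      exact ih.mul hA
  have h : ∀ R : Finset ℂ, R ⊆ Q → DR (Nqp Phi R m) := by
    intro R
    unfold Nqp
    induction R using Finset.induction_on with
    | empty =>
      intro _
      rw [Finset.prod_empty, map_one]
      exact DR.one
    | insert a R ha ih =>
      intro hR
      rw [Finset.prod_insert ha, map_mul, map_pow, map_sub, Polynomial.aeval_X,
        Polynomial.aeval_C, Algebra.algebraMap_eq_smul_one]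
      exact (hp _ (hDR a (hR (Finset.mem_insert_self a R)))).mul
        (ih ((Finset.subset_insert a R).trans hR))
  exact h Q (Finset.Subset.refl Q)

/-- The limit operator times `N`. -/
noncomputable def CutE.G {phi : ℂ → ℂ} {U1 U2 : Set ℂ} (K : CutE phi U1 U2) (Phi : CT) (m : ℕ) :
    Hardy →L[ℂ] Hardy :=
  -(Real.pi : ℂ)⁻¹ • ∫ l : ℂ, dbar K.chi l • (resolvent (T Phi) l * Nqp Phi K.Q m)

section

variable {phi : ℂ → ℂ} (hphi : AnalyticOnNhd ℂ phi (sphere 0 1)) {Phi : CT}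
  (hPhi : ∀ x, Phi x = phi (e x)) {U1 U2 : Set ℂ} (K : CutE phi U1 U2)
  {m : ℕ} (hI : K.Bd Phi m)

include hphi hPhi hI

theorem int_G : Integrable (fun l => dbar K.chi l • (resolvent (T Phi) l * Nqp Phi K.Q m)) ∧
    Tendsto (fun n => K.P Phi n * Nqp Phi K.Q m) atTop (𝓝 (K.G Phi m)) := by
  obtain ⟨C, hC⟩ := id hI
  have hcont : ∀ n, Continuous fun l => K.w n l • (resolvent (T Phi) l * Nqp Phi K.Q m) := by
    intro n
    have h1 := (K.continuous_res hphi hPhi n).mul (continuous_const (y := Nqp Phi K.Q m))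
    refine h1.congr fun l => ?_
    exact smul_mul_assoc _ _ _
  obtain ⟨h1, h2⟩ := conv K (F := fun _ l => resolvent (T Phi) l * Nqp Phi K.Q m)
    (G := fun l => resolvent (T Phi) l * Nqp Phi K.Q m) (C := C) (fun _ l hl hQ => hC l hl hQ)
    (fun l _ => tendsto_const_nhds) (fun n => (hcont n).aestronglyMeasurable)
  refine ⟨h1, ?_⟩
  have h3 : ∀ n, K.P Phi n * Nqp Phi K.Q m =
      -(Real.pi : ℂ)⁻¹ • ∫ l : ℂ, K.w n l • (resolvent (T Phi) l * Nqp Phi K.Q m) := by
    intro n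
    have hI := K.integrable_res hphi hPhi n
    change (-(Real.pi : ℂ)⁻¹ • ∫ l : ℂ, K.w n l • resolvent (T Phi) l) * Nqp Phi K.Q m = _
    rw [smul_mul_assoc, ← integral_mul_const_of_integrable hI]
    congr 1
  simp only [h3]
  exact h2.const_smul _

theorem inner_G (f g : Hardy) : inner ℂ g (K.G Phi m f) =
    -(Real.pi : ℂ)⁻¹ * ∫ l : ℂ, dbar K.chi l * inner ℂ g (resolvent (T Phi) l (Nqp Phi K.Q m f)) := by
  have hI := (int_G hphi hPhi K hI).1
  have h5 := ((innerSL ℂ g).comp (ContinuousLinearMap.apply ℂ Hardy f)).integral_comp_comm hI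
  have h6 : ((innerSL ℂ g).comp (ContinuousLinearMap.apply ℂ Hardy f))
      (∫ l : ℂ, dbar K.chi l • (resolvent (T Phi) l * Nqp Phi K.Q m)) =
      inner ℂ g ((∫ l : ℂ, dbar K.chi l • (resolvent (T Phi) l * Nqp Phi K.Q m)) f) := rfl
  have h7 : ∀ l, ((innerSL ℂ g).comp (ContinuousLinearMap.apply ℂ Hardy f))
      (dbar K.chi l • (resolvent (T Phi) l * Nqp Phi K.Q m)) =
      dbar K.chi l * inner ℂ g (resolvent (T Phi) l (Nqp Phi K.Q m f)) := by
    intro l
    rw [map_smul]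
    rfl
  rw [h6] at h5
  simp only [h7] at h5
  rw [h5]
  change inner ℂ g ((-(Real.pi : ℂ)⁻¹ • ∫ l : ℂ, dbar K.chi l •
    (resolvent (T Phi) l * Nqp Phi K.Q m)) f) = _
  rw [smul_apply, inner_smul_right]

theorem G_sq : K.G Phi m * K.G Phi m = K.G Phi m * Nqp Phi K.Q m := by
  obtain ⟨C, hC⟩ := id hI
  obtain ⟨Cs, hCs⟩ := K.norm_s_le
  ext f : 1
  refine ext_inner_left ℂ fun g => ?_
  change inner ℂ g (K.G Phi m (K.G Phi m f)) = inner ℂ g (K.G Phi m (Nqp Phi K.Q m f))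
  -- the left side as a limit
  have h1 : Tendsto (fun n => inner ℂ g ((K.P Phi n * Nqp Phi K.Q m * (K.P Phi n * Nqp Phi K.Q m)) f))
      atTop (𝓝 (inner ℂ g (K.G Phi m (K.G Phi m f)))) := by
    have h2 := (int_G hphi hPhi K hI).2
    have h3 := h2.mul h2
    have h4 : Continuous fun A : Hardy →L[ℂ] Hardy => (inner ℂ g (A f) : ℂ) := by fun_prop
    exact (h4.tendsto _).comp h3
  have hcomm : ∀ n, K.P Phi n * Nqp Phi K.Q m = Nqp Phi K.Q m * K.P Phi n := fun n =>
    comm_aeval (K.P_comm hphi hPhi n) _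
  obtain ⟨v, hv⟩ : ∃ v, v = Nqp Phi K.Q m (Nqp Phi K.Q m f) := ⟨_, rfl⟩
  have h2 : ∀ n, (K.P Phi n * Nqp Phi K.Q m * (K.P Phi n * Nqp Phi K.Q m)) f =
      K.P Phi n (K.P Phi n v) := by
    intro n
    have h3 : K.P Phi n * Nqp Phi K.Q m * (K.P Phi n * Nqp Phi K.Q m) =
        K.P Phi n * (K.P Phi n * (Nqp Phi K.Q m * Nqp Phi K.Q m)) := by
      rw [mul_assoc, ← mul_assoc (Nqp Phi K.Q m), ← hcomm n, mul_assoc (K.P Phi n) (Nqp Phi K.Q m)]
    rw [h3, hv]
    rfl
  simp only [h2, P_sq hphi hPhi K] at h1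
  -- the scalar function
  obtain ⟨h, hh⟩ : ∃ h : ℂ → ℂ, h = fun l => inner ℂ g (resolvent (T Phi) l v) := ⟨_, rfl⟩
  have hhl : ∀ l, inner ℂ g (resolvent (T Phi) l v) = h l := fun l => by rw [hh]
  simp only [hhl] at h1
  have hhC : ∀ l ∈ K.V, l ∉ K.Q → ‖h l‖ ≤ ‖g‖ * (C * ‖Nqp Phi K.Q m f‖) := by
    intro l hl hQ
    rw [← hhl, hv]
    refine (norm_inner_le_norm _ _).trans (mul_le_mul_of_nonneg_left ?_ (norm_nonneg _))
    exact ((resolvent (T Phi) l * Nqp Phi K.Q m).le_opNorm (Nqp Phi K.Q m f)).trans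
      (mul_le_mul_of_nonneg_right (hC l hl hQ) (norm_nonneg _))
  have hhd : DifferentiableOn ℂ h (Sg phi)ᶜ := by
    intro l hl
    have hr := PBd_rT hphi hPhi l hl
    have h3 := (spectrum.hasDerivAt_resolvent_const_left hr).differentiableAt
    have h4 : DifferentiableAt ℂ (fun l => ((innerSL ℂ g).comp
        (ContinuousLinearMap.apply ℂ Hardy v)) (resolvent (T Phi) l)) l :=
      (ContinuousLinearMap.differentiableAt _).comp l h3
    rw [hh]
    exact h4.differentiableWithinAt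
  have hwh : ∀ n, Continuous fun l => K.w n l * h l := by
    intro n
    have h3 := K.continuous_res hphi hPhi n
    have h4 : Continuous fun l => ((innerSL ℂ g).comp
        (ContinuousLinearMap.apply ℂ Hardy v)) (K.w n l • resolvent (T Phi) l) :=
      (ContinuousLinearMap.continuous _).comp h3
    refine h4.congr fun l => ?_
    rw [map_smul, hh]
    rfl
  have hsm : ∀ n, Measurable (K.s n) := by
    intro n
    have h3 : Measurable fun p : ℂ × ℂ => (kap K.Q n p.2 * dbar K.chi p.2) / (p.2 - p.1) :=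
      ((K.continuous_w n).measurable.comp measurable_snd).div (measurable_snd.sub measurable_fst)
    have h4 := h3.stronglyMeasurable.integral_prod_right' (ν := (volume : Measure ℂ))
    exact (h4.measurable).const_mul _
  -- the three integrals
  have c1 := conv K (F := fun n l => 2 * K.s n l * h l) (G := fun l => 2 * K.chi l * h l)
    (C := 2 * |Cs| * (‖g‖ * (C * ‖Nqp Phi K.Q m f‖))) (fun n l hl hQ => by
      rw [norm_mul, norm_mul]
      have h2n : ‖(2 : ℂ)‖ = 2 := by simp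
      rw [h2n]
      exact mul_le_mul (mul_le_mul_of_nonneg_left ((hCs n l).trans (le_abs_self _)) (by norm_num))
        (hhC l hl hQ) (norm_nonneg _) (by positivity))
    (fun l hl => ((K.tendsto_s hl).const_mul 2).mul_const _) (fun n => by
      have : (fun l => K.w n l • (2 * K.s n l * h l)) = fun l => (2 * K.s n l) * (K.w n l * h l) := by
        funext l
        rw [smul_eq_mul]
        ring
      rw [this]
      exact (((hsm n).const_mul 2).mul (hwh n).measurable).aestronglyMeasurable)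
  have c2 := conv K (F := fun _ l => h l) (G := h)
    (C := ‖g‖ * (C * ‖Nqp Phi K.Q m f‖)) (fun _ l hl hQ => hhC l hl hQ)
    (fun l _ => tendsto_const_nhds) (fun n => (hwh n).aestronglyMeasurable)
  have h5 := tendsto_nhds_unique h1 (c1.2.const_mul (-(Real.pi : ℂ)⁻¹))
  have h6 := stokes hphi K hhd hhC
  have h7 : ∫ l, dbar K.chi l * ((2 * K.chi l - 1) * h l) =
      (∫ l, dbar K.chi l • (2 * K.chi l * h l)) - ∫ l, dbar K.chi l • h l := by
    rw [← integral_sub c1.1 c2.1]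
    refine integral_congr_ae (Eventually.of_forall fun l => ?_)
    simp only [smul_eq_mul]
    ring
  rw [h6] at h7
  rw [h5, inner_G hphi hPhi K hI, ← hv]
  simp only [hhl]
  rw [sub_eq_zero.1 h7.symm]
  rfl

theorem idem (hDR : ∀ q ∈ K.Q, DR (T Phi - q • (1 : Hardy →L[ℂ] Hardy)))
    {B : Hardy →L[ℂ] Hardy} {U : Ultrafilter ℕ} (hU : (U : Filter ℕ) ≤ atTop)
    (hB : ∀ f g : Hardy, Tendsto (fun n => inner ℂ g (K.P Phi n f)) U (𝓝 (inner ℂ g (B f)))) :
    B * T Phi = T Phi * B ∧ B * B = B ∧ B * Nqp Phi K.Q m = K.G Phi m := by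
  have hcT : B * T Phi = T Phi * B := by
    ext f : 1
    refine ext_inner_left ℂ fun g => ?_
    change inner ℂ g (B (T Phi f)) = inner ℂ g (T Phi (B f))
    have h5 := hB (T Phi f) g
    have h6 := hB f (ContinuousLinearMap.adjoint (T Phi) g)
    rw [← ContinuousLinearMap.adjoint_inner_left (T Phi) (B f) g]
    refine tendsto_nhds_unique h5 (h6.congr fun n => ?_)
    rw [ContinuousLinearMap.adjoint_inner_left]
    have h7 := congrArg (fun A : Hardy →L[ℂ] Hardy => A f) (K.P_comm hphi hPhi n)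
    change K.P Phi n (T Phi f) = T Phi (K.P Phi n f) at h7
    rw [h7]
  have hBN : B * Nqp Phi K.Q m = K.G Phi m := by
    ext f : 1
    refine ext_inner_left ℂ fun g => ?_
    have h1 := hB (Nqp Phi K.Q m f) g
    have h4 : Continuous fun A : Hardy →L[ℂ] Hardy => (inner ℂ g (A f) : ℂ) := by fun_prop
    have h2 := ((h4.tendsto _).comp (int_G hphi hPhi K hI).2).mono_left hU
    exact tendsto_nhds_unique h1 h2
  refine ⟨hcT, ?_, hBN⟩
  have hcN : B * Nqp Phi K.Q m = Nqp Phi K.Q m * B := comm_aeval hcT _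
  have h1 := G_sq hphi hPhi K hI
  rw [← hBN] at h1
  have h2 : (B * B - B) * (Nqp Phi K.Q m * Nqp Phi K.Q m) = 0 := by
    rw [sub_mul, sub_eq_zero]
    calc B * B * (Nqp Phi K.Q m * Nqp Phi K.Q m) = B * (B * Nqp Phi K.Q m) * Nqp Phi K.Q m := by
          simp only [mul_assoc]
      _ = B * (Nqp Phi K.Q m * B) * Nqp Phi K.Q m := by rw [← hcN]
      _ = B * Nqp Phi K.Q m * (B * Nqp Phi K.Q m) := by
          simp only [mul_assoc]
      _ = B * (Nqp Phi K.Q m * Nqp Phi K.Q m) := by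
          rw [h1]
          simp only [mul_assoc]
  have hD : DR (Nqp Phi K.Q m * Nqp Phi K.Q m) := (dense_N hDR m).mul (dense_N hDR m)
  have h3 : ∀ y, ContinuousLinearMap.adjoint (B * B - B) y = 0 := by
    intro y
    apply hD
    intro f
    rw [ContinuousLinearMap.adjoint_inner_left]
    have h4 := congrArg (fun A : Hardy →L[ℂ] Hardy => A f) h2
    change (B * B - B) ((Nqp Phi K.Q m * Nqp Phi K.Q m) f) = 0 at h4
    rw [h4, inner_zero_right]
  have h4 : B * B - B = 0 := by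
    ext f : 1
    refine ext_inner_left ℂ fun y => ?_
    rw [← ContinuousLinearMap.adjoint_inner_left, h3 y, inner_zero_left]
    simp
  exact sub_eq_zero.1 h4

theorem mainS (hF : K.Form Phi) (hDR : ∀ q ∈ K.Q, DR (T Phi - q • (1 : Hardy →L[ℂ] Hardy)))
    {l l' : ℂ} (hl : l ∈ Sg phi) (hlQ : l ∉ K.Q) (hlU : l ∈ U1)
    (hl' : l' ∈ Sg phi) (hlQ' : l' ∉ K.Q) (hlU' : l' ∈ U2) :
    ∃ B : Hardy →L[ℂ] Hardy, B * B = B ∧ B * T Phi = T Phi * B ∧ B ≠ 0 ∧ B ≠ 1 := by
  obtain ⟨C, hC⟩ := K.norm_P_le hphi hPhi hF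
  obtain ⟨U, B, hU, hB⟩ := wot hC
  obtain ⟨h1, h2, h3⟩ := idem hphi hPhi K hI hDR hU hB
  have hpi : (Real.pi : ℂ) ≠ 0 := by exact_mod_cast Real.pi_ne_zero
  have hG : ∫ l, dbar K.chi l • (resolvent (T Phi) l * Nqp Phi K.Q m) =
      (-(Real.pi : ℂ)) • K.G Phi m := by
    unfold CutE.G
    rw [smul_smul, neg_mul_neg, mul_inv_cancel₀ hpi, one_smul]
  refine ⟨B, h2, h1, ?_, ?_⟩
  · rintro rfl
    rw [zero_mul] at h3
    refine false_of_eq hphi hPhi K hI hl hlQ hpi ?_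
    rw [(K.one l hl hlU hlQ).self_of_nhds, mul_one, hG, ← h3, smul_zero, add_zero]
  · rintro rfl
    rw [one_mul] at h3
    refine false_of_eq hphi hPhi K hI hl' hlQ' (neg_ne_zero.2 hpi) ?_
    rw [(K.zero l' hl' hlU' hlQ').self_of_nhds, mul_zero, zero_smul, hG, ← h3, zero_add]

end

theorem main_splitE {phi : ℂ → ℂ} (hphi : AnalyticOnNhd ℂ phi (sphere 0 1)) (hNC : NC phi)
    {Q : Set ℂ} (hQ : Q.Finite) (hcl : ∀ q ∈ Q, q ∈ closure (Sg phi)ᶜ)
    (hq : ∀ q ∈ Q, ∀ z ∈ sphere (0 : ℂ) 1, phi z = q → deriv phi z ≠ 0) {U1 U2 : Set ℂ}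
    (o1 : IsOpen U1) (o2 : IsOpen U2) (hdis : Disjoint U1 U2) (hcov : Sg phi \ Q ⊆ U1 ∪ U2)
    (hLC : ∀ Phi : CT, (∀ x, Phi x = phi (e x)) → ∀ q ∈ Q, LocE phi Phi U1 U2 q)
    (n1 : ∃ l ∈ U1, l ∈ Sg phi ∧ l ∉ Q) (n2 : ∃ l ∈ U2, l ∈ Sg phi ∧ l ∉ Q) :
    ¬ BIR H2 (IsToeplitz phi) := by
  have hc : Continuous fun x : UnitAddCircle => phi (e x) := by
    refine hphi.continuousOn.comp_continuous continuous_e fun x => ?_
    rw [mem_sphere_zero_iff_norm]
    exact norm_e x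
  obtain ⟨Phi, hPhi⟩ : ∃ Phi : CT, ∀ x, Phi x = phi (e x) := ⟨⟨_, hc⟩, fun _ => rfl⟩
  rw [bir_iff_rel hPhi, bir_iff]
  intro h
  obtain ⟨K, hK, hF⟩ := exists_cutE hphi hQ o1 o2 hdis hcov (hLC Phi hPhi)
  have hKQ : ∀ q ∈ K.Q, q ∈ Q := fun q hq => by rw [← hK]; exact hq
  obtain ⟨l, hlU, hl, hlQ⟩ := n1
  obtain ⟨l', hlU', hl', hlQ'⟩ := n2
  rw [← hK] at hlQ hlQ'
  obtain ⟨m, hI⟩ := bound_V hphi hNC hPhi K
  obtain ⟨B, b1, b2, b3, b4⟩ := mainS hphi hPhi K hI hF
    (fun q hqK => dr_q hphi hNC hPhi (hcl q (hKQ q hqK)) (hq q (hKQ q hqK)))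
    hl hlQ hlU hl' hlQ' hlU'
  rcases h B b1 b2 with h | h
  · exact b3 h
  · exact b4 h

end Pool.Agent.TBirE
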