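import Pool.Agent.TBirE.Bas
import Pool.Agent.TBir.Schur
import Pool.Agent.TBir.PlI

/-!
# Embedding for thin sets, nontangential points

Paper proof. `nt_thin`: integrate first in `x` (Tonelli in `ℝ × ℝ`, the fibre has measure at most `C |y|^p`): the left
side is at most `C ∫_{|y| ≤ b} FF h (1 - c |y|) ^ 2 dy = (2 C / c) ∫_{1 - c b}^{1} FF h t ^ 2 dt`, use `FF_sq` of TBir/Schur.
`nt_wide` is `pl_int` of TBir/PlI with `f = g = h` (expand: `FF ^ 2 ≤ (FF + ‖h‖)^2`).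
-/

set_option autoImplicit false

open MeasureTheory Complex Set Filter Topology Metric AddCircle
open scoped ComplexConjugate InnerProductSpace ENNReal

namespace Pool.Agent.TBirE

open Pool.Agent.TBir

/-- The majorant with values in `ℝ≥0∞`. -/
private noncomputable def NtE (f : Hardy) (t : ℝ) : ℝ≥0∞ :=
  ∑' n : ℕ, ENNReal.ofReal (‖co f n‖ * t ^ n)

private theorem NtE_meas (f : Hardy) : Measurable (NtE f) := by
  unfold NtE
  refine Measurable.ennreal_tsum fun n => ?_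
  fun_prop

private theorem NtE_eq (f : Hardy) {t : ℝ} (h0 : 0 ≤ t) (h1 : t < 1) :
    NtE f t = ENNReal.ofReal (FF f t) := by
  unfold NtE FF
  rw [ENNReal.ofReal_tsum_of_nonneg (fun n => by positivity)]
  exact summable_FF f h0 h1

private theorem nt_subst {c : ℝ} (hc : 0 < c) (B : ℝ → ℝ≥0∞) (hB : Measurable B) :
    ∫⁻ t, B (1 - c * t) = ENNReal.ofReal c⁻¹ * ∫⁻ u, B u := by
  have h1 : ∫⁻ u, B u = ∫⁻ u, B (1 - u) := (lintegral_sub_left_eq_self B 1).symm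
  have h2 := Real.smul_map_volume_mul_left hc.ne'
  rw [h1]
  conv_rhs => rw [← h2]
  rw [lintegral_smul_measure, lintegral_map (by fun_prop) (by fun_prop), smul_eq_mul,
    ← mul_assoc, ← ENNReal.ofReal_mul (by positivity), abs_of_pos hc, inv_mul_cancel₀ hc.ne']
  simp

private theorem nt_abs (H : ℝ → ℝ≥0∞) (hH : Measurable H) : ∫⁻ y : ℝ, H |y| ≤ 2 * ∫⁻ y : ℝ, H y := by
  have h1 : ∫⁻ y : ℝ, H (0 - y) = ∫⁻ y : ℝ, H y := lintegral_sub_left_eq_self H 0
  calc ∫⁻ y : ℝ, H |y| ≤ ∫⁻ y : ℝ, (H y + H (0 - y)) := by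
        refine lintegral_mono fun y => ?_
        rcases le_total 0 y with h | h
        · rw [abs_of_nonneg h]
          exact le_self_add
        · rw [abs_of_nonpos h, zero_sub]
          exact le_add_self
    _ = 2 * ∫⁻ y : ℝ, H y := by
        rw [lintegral_add_left hH, h1, two_mul]

theorem nt_thin (p : ℕ) {c C : ℝ} (hc : 0 < c) (hC : 0 < C) :
    ∃ K : ℝ, 0 < K ∧ ∀ b : ℝ, 0 < b → c * b < 1 → ∀ D : Set (ℝ × ℝ), MeasurableSet D →
      (∀ w ∈ D, w.2 ≠ 0 ∧ |w.2| ≤ b) →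
      (∀ y : ℝ, volume {x : ℝ | (x, y) ∈ D} ≤ ENNReal.ofReal (C * |y| ^ p)) → ∀ h : Hardy,
      ∫⁻ w in D, ENNReal.ofReal ((|w.2| ^ p)⁻¹) * ENNReal.ofReal (FF h (1 - c * |w.2|) ^ 2) ≤
        ENNReal.ofReal (K * ‖h‖ ^ 2) := by
  obtain ⟨C₀, hC₀, hFF⟩ := FF_sq
  refine ⟨2 * (c⁻¹ * (C * C₀)), by positivity, ?_⟩
  intro b hb hcb D hD hD1 hD2 h
  have hG : Measurable fun y : ℝ => ENNReal.ofReal ((|y| ^ p)⁻¹) * NtE h (1 - c * |y|) ^ 2 := by
    refine Measurable.mul (by fun_prop) (Measurable.pow_const ?_ 2)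
    exact (NtE_meas h).comp (by fun_prop)
  have hrng : ∀ y : ℝ, y ≠ 0 → |y| ≤ b → 0 < 1 - c * |y| ∧ 1 - c * |y| < 1 := by
    intro y hy hyb
    have h1 : 0 < |y| := abs_pos.2 hy
    have h2 : c * |y| ≤ c * b := mul_le_mul_of_nonneg_left hyb hc.le
    have h3 : 0 < c * |y| := mul_pos hc h1
    exact ⟨by linarith, by linarith⟩
  -- the majorant in one variable
  have hB : Measurable fun u : ℝ => (Ioo (0 : ℝ) 1).indicator (fun u => NtE h u ^ 2) u :=
    ((NtE_meas h).pow_const 2).indicator measurableSet_Ioo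
  have hBint : ∫⁻ u : ℝ, (Ioo (0 : ℝ) 1).indicator (fun u => NtE h u ^ 2) u ≤
      ENNReal.ofReal (C₀ * ‖h‖ ^ 2) := by
    rw [lintegral_indicator measurableSet_Ioo]
    refine le_trans (le_of_eq ?_) (hFF h)
    refine setLIntegral_congr_fun measurableSet_Ioo fun t ht => ?_
    rw [NtE_eq h ht.1.le ht.2, ENNReal.ofReal_pow (FF_nonneg h ht.1.le)]
  calc ∫⁻ w in D, ENNReal.ofReal ((|w.2| ^ p)⁻¹) * ENNReal.ofReal (FF h (1 - c * |w.2|) ^ 2)
      = ∫⁻ w in D, ENNReal.ofReal ((|w.2| ^ p)⁻¹) * NtE h (1 - c * |w.2|) ^ 2 := by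
        refine setLIntegral_congr_fun hD fun w hw => ?_
        obtain ⟨h1, h2⟩ := hD1 w hw
        obtain ⟨h3, h4⟩ := hrng _ h1 h2
        rw [NtE_eq h h3.le h4, ENNReal.ofReal_pow (FF_nonneg h h3.le)]
    _ = ∫⁻ w : ℝ × ℝ, D.indicator
          (fun w : ℝ × ℝ => ENNReal.ofReal ((|w.2| ^ p)⁻¹) * NtE h (1 - c * |w.2|) ^ 2) w := by
        rw [lintegral_indicator hD]
    _ = ∫⁻ y : ℝ, ∫⁻ x : ℝ, D.indicator
          (fun w : ℝ × ℝ => ENNReal.ofReal ((|w.2| ^ p)⁻¹) * NtE h (1 - c * |w.2|) ^ 2) (x, y) := by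
        rw [Measure.volume_eq_prod]
        exact lintegral_prod_symm _ ((hG.comp measurable_snd).indicator hD).aemeasurable
    _ ≤ ∫⁻ y : ℝ, ENNReal.ofReal C *
          (Ioo (0 : ℝ) 1).indicator (fun u => NtE h u ^ 2) (1 - c * |y|) := by
        refine lintegral_mono fun y => ?_
        have hfib : MeasurableSet {x : ℝ | (x, y) ∈ D} := measurable_prodMk_right hD
        have e1 : ∫⁻ x : ℝ, D.indicator
            (fun w : ℝ × ℝ => ENNReal.ofReal ((|w.2| ^ p)⁻¹) * NtE h (1 - c * |w.2|) ^ 2) (x, y) =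
            ENNReal.ofReal ((|y| ^ p)⁻¹) * NtE h (1 - c * |y|) ^ 2 * volume {x : ℝ | (x, y) ∈ D} := by
          rw [← setLIntegral_const, ← lintegral_indicator hfib]
          refine lintegral_congr fun x => ?_
          by_cases hx : (x, y) ∈ D
          · rw [indicator_of_mem hx, indicator_of_mem (show x ∈ {x : ℝ | (x, y) ∈ D} from hx)]
          · rw [indicator_of_notMem hx,
              indicator_of_notMem (show x ∉ {x : ℝ | (x, y) ∈ D} from hx)]
        simp only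
        rw [e1]
        by_cases hy : ∃ x : ℝ, (x, y) ∈ D
        · obtain ⟨x, hx⟩ := hy
          obtain ⟨h1, h2⟩ := hD1 _ hx
          obtain ⟨h3, h4⟩ := hrng y h1 h2
          rw [indicator_of_mem (show 1 - c * |y| ∈ Ioo (0 : ℝ) 1 from ⟨h3, h4⟩)]
          have h5 : 0 < |y| ^ p := pow_pos (abs_pos.2 h1) p
          calc ENNReal.ofReal ((|y| ^ p)⁻¹) * NtE h (1 - c * |y|) ^ 2 * volume {x : ℝ | (x, y) ∈ D}
              ≤ ENNReal.ofReal ((|y| ^ p)⁻¹) * NtE h (1 - c * |y|) ^ 2 *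
                ENNReal.ofReal (C * |y| ^ p) := by gcongr; exact hD2 y
            _ = ENNReal.ofReal ((|y| ^ p)⁻¹) * ENNReal.ofReal (C * |y| ^ p) *
                NtE h (1 - c * |y|) ^ 2 := by ring
            _ = ENNReal.ofReal C * NtE h (1 - c * |y|) ^ 2 := by
                rw [← ENNReal.ofReal_mul (by positivity)]
                congr 2
                field_simp
        · have h1 : {x : ℝ | (x, y) ∈ D} = ∅ := by
            refine eq_empty_of_forall_notMem fun x hx => hy ⟨x, hx⟩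
          rw [h1]
          simp
    _ ≤ 2 * ∫⁻ y : ℝ, ENNReal.ofReal C *
          (Ioo (0 : ℝ) 1).indicator (fun u => NtE h u ^ 2) (1 - c * y) := by
        refine nt_abs (fun y : ℝ => ENNReal.ofReal C *
          (Ioo (0 : ℝ) 1).indicator (fun u => NtE h u ^ 2) (1 - c * y)) ?_
        exact (hB.comp (by fun_prop : Measurable fun y : ℝ => 1 - c * y)).const_mul _
    _ = 2 * (ENNReal.ofReal C * (ENNReal.ofReal c⁻¹ *
          ∫⁻ u : ℝ, (Ioo (0 : ℝ) 1).indicator (fun u => NtE h u ^ 2) u)) := by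
        rw [lintegral_const_mul' _ _ ENNReal.ofReal_ne_top, nt_subst hc _ hB]
    _ ≤ 2 * (ENNReal.ofReal C * (ENNReal.ofReal c⁻¹ * ENNReal.ofReal (C₀ * ‖h‖ ^ 2))) := by
        gcongr
    _ = ENNReal.ofReal (2 * (c⁻¹ * (C * C₀)) * ‖h‖ ^ 2) := by
        rw [← ENNReal.ofReal_mul (by positivity), ← ENNReal.ofReal_mul (by positivity),
          show (2 : ℝ≥0∞) = ENNReal.ofReal 2 by norm_num, ← ENNReal.ofReal_mul (by norm_num)]
        congr 1
        ring

theorem nt_wide {c : ℝ} (hc : 0 < c) : ∃ K : ℝ, 0 < K ∧ ∀ (q : ℂ) (b : ℝ), 0 < b → c * b ≤ 1 →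
    ∀ h : Hardy, ∫⁻ l in ball q b, ENNReal.ofReal (‖l - q‖⁻¹) *
      ENNReal.ofReal (FF h (1 - c * ‖l - q‖) ^ 2) ≤ ENNReal.ofReal (K * ‖h‖ ^ 2) := by
  obtain ⟨K, hK, hpl⟩ := pl_int hc
  refine ⟨K, hK, fun q b hb hcb h => ?_⟩
  have h1 := hpl q b hb hcb h h
  have e1 : K * ‖h‖ ^ 2 = K * ‖h‖ * ‖h‖ := by ring
  rw [e1]
  refine le_trans (setLIntegral_mono' measurableSet_ball fun l hl => ?_) h1
  rw [← ENNReal.ofReal_mul (by positivity)]
  apply ENNReal.ofReal_le_ofReal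
  have h2 : ‖l - q‖ < b := by rwa [mem_ball, dist_eq_norm] at hl
  have h3 : c * ‖l - q‖ ≤ c * b := mul_le_mul_of_nonneg_left h2.le hc.le
  have h4 : 0 ≤ FF h (1 - c * ‖l - q‖) := FF_nonneg h (by linarith)
  have h5 := norm_nonneg h
  rw [div_eq_mul_inv, mul_comm]
  have h6 : FF h (1 - c * ‖l - q‖) ^ 2 ≤
      (FF h (1 - c * ‖l - q‖) + ‖h‖) * (FF h (1 - c * ‖l - q‖) + ‖h‖) := by nlinarith
  exact mul_le_mul_of_nonneg_right h6 (by positivity)

end Pool.Agent.TBirE
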