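import Pool.Agent.TBirE.Ev2

/-!
# Embedding for measures near a curve tangent to the circle

Paper proof. For `w = (x, y) ∈ D`, `z = z0 * exp (x + y I)`, `‖z‖ = exp x < 1` as `x < 0` (`y ≠ 0`). By `ev_sq_le` and Tonelli the
left side is at most `∫⁻ θ, (∫⁻ w in D, |y|^(-p) * (1 - ‖z‖^2) / ‖e θ - z‖^2) * ‖incl f θ‖ₑ^2`, so (`lintegral_sq`) it is
enough to bound the inner integral for every fixed point `b = e θ`, `‖b‖ = 1`, by `K`. With `delta = - x`,
`c |y|^p' ≤ delta ≤ C |y|^p' ≤ C`: `1 - ‖z‖^2 ≤ 2 delta`; `b = z0 exp (i v)` with `|v| ≤ pi` and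
`‖b - z‖^2 = (1 - exp (-delta))^2 + 4 exp (-delta) sin^2 ((v - y)/2) ≥ c1 (delta^2 + d^2)` with `d` the distance of `v - y`
to `2 pi ℤ`, `c1` depends on `C` only. As `|y| ≤ 1`, `d ≥ min |v - y| (2 pi - |v - y|)`, and `2 pi - |v - y| ≥ 2 pi - pi - 1 ≥ 1`,
so `d ≥ min |v - y| 1 ≥ |v - y| / 5`. So the integrand is at most `C2 |y|^(-p) delta / (delta^2 + (v - y)^2)` and with the bounds
for `delta` at most `C3 |y|^(-p) |y|^p' / (|y|^(2 p') + (v - y)^2)`, which does not depend on `x`. Integrate first in `x`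
(the fibre has measure at most `C |y|^p`): it remains to bound `∫_{0 < |y| ≤ 1} |y|^p' / (|y|^(2 p') + (v - y)^2) dy` for
all real `v`. Where `|v - y| ≥ |y| / 2` the integrand is at most `4 |y|^(p' - 2) ≤ 4`. Where `|v - y| < |y| / 2`:
`(2/3) |v| < |y| < 2 |v|`, so `|y|^p'` is between `a = ((2/3) |v|)^p'` and `3^p' a`, the integrand is at most
`3^p' a / (a^2 + (v - y)^2)`, whose integral over `ℝ` is `3^p' pi` (`integral_univ_inv_one_add_sq` and scaling).
-/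

set_option autoImplicit false

open MeasureTheory Complex Set Filter Topology Metric AddCircle
open scoped ComplexConjugate InnerProductSpace ENNReal

namespace Pool.Agent.TBirE

open Pool.Agent.TBir

private theorem ta_cos {t : ℝ} (h : |t| ≤ Real.pi + 1) : t ^ 2 / 20 ≤ 1 - Real.cos t := by
  have hpi3 := Real.pi_gt_three
  have hpi4 : Real.pi ^ 2 < 10 := by
    have := Real.pi_lt_d2
    nlinarith
  have hpos := Real.pi_pos
  rw [← Real.cos_abs, ← sq_abs]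
  have ht0 : 0 ≤ |t| := abs_nonneg t
  generalize |t| = s at h ht0
  by_cases hs : s ≤ Real.pi
  · have h1 := Real.cos_le_one_sub_mul_cos_sq (x := s) (by rw [abs_of_nonneg ht0]; exact hs)
    have h2 : s ^ 2 / 20 ≤ 2 / Real.pi ^ 2 * s ^ 2 := by
      rw [div_mul_eq_mul_div, div_le_div_iff₀ (by norm_num) (by positivity)]
      nlinarith [sq_nonneg s]
    linarith
  · push Not at hs
    have h0 : Real.cos s = Real.cos (2 * Real.pi - s) := by
      rw [Real.cos_two_pi_sub]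
    have h1 := Real.cos_le_one_sub_mul_cos_sq (x := 2 * Real.pi - s)
      (by rw [abs_of_nonneg (by linarith)]; linarith)
    have h3 : s / 2 ≤ 2 * Real.pi - s := by linarith
    have h4 : (s / 2) ^ 2 ≤ (2 * Real.pi - s) ^ 2 := by
      apply pow_le_pow_left₀ (by linarith) h3
    have h2 : s ^ 2 / 20 ≤ 2 / Real.pi ^ 2 * (2 * Real.pi - s) ^ 2 := by
      rw [div_mul_eq_mul_div, div_le_div_iff₀ (by norm_num) (by positivity)]
      nlinarith [sq_nonneg s]
    rw [h0]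
    linarith

private theorem ta_norm (v y d : ℝ) :
    ‖Complex.exp (v * I) - Complex.exp (-(d : ℂ) + y * I)‖ ^ 2 =
      (1 - Real.exp (-d)) ^ 2 + 2 * Real.exp (-d) * (1 - Real.cos (v - y)) := by
  rw [← Complex.normSq_eq_norm_sq, Complex.normSq_apply]
  have h1 : (Complex.exp (v * I)).re = Real.cos v := by
    rw [Complex.exp_re]; simp
  have h2 : (Complex.exp (v * I)).im = Real.sin v := by
    rw [Complex.exp_im]; simp
  have h3 : (Complex.exp (-(d : ℂ) + y * I)).re = Real.exp (-d) * Real.cos y := by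
    rw [Complex.exp_re]; simp
  have h4 : (Complex.exp (-(d : ℂ) + y * I)).im = Real.exp (-d) * Real.sin y := by
    rw [Complex.exp_im]; simp
  rw [Complex.sub_re, Complex.sub_im, h1, h2, h3, h4, Real.cos_sub]
  have h5 := Real.sin_sq_add_cos_sq v
  have h6 := Real.sin_sq_add_cos_sq y
  linear_combination h5 + (Real.exp (-d)) ^ 2 * h6

/-- The kernel estimate. -/
private theorem ta_ker {C v y d : ℝ} (hd : 0 < d) (hdC : d ≤ C) (hv : |v| ≤ Real.pi) (hy : |y| ≤ 1) :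
    (1 - Real.exp (-d) ^ 2) / ‖Complex.exp (v * I) - Complex.exp (-(d : ℂ) + y * I)‖ ^ 2 ≤
      20 * Real.exp (2 * C) * (d / (d ^ 2 + (v - y) ^ 2)) := by
  have h1 : 1 - Real.exp (-d) ^ 2 ≤ 2 * d := by
    rw [← Real.exp_nat_mul]
    have := Real.add_one_le_exp ((2 : ℕ) * -d)
    push_cast at this ⊢
    linarith
  have h2 : |v - y| ≤ Real.pi + 1 := (abs_sub _ _).trans (add_le_add hv hy)
  have h3 := ta_cos h2
  have h4 : d * Real.exp (-d) ≤ 1 - Real.exp (-d) := by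
    have h5 := Real.add_one_le_exp d
    have h6 : Real.exp (-d) * Real.exp d = 1 := by rw [← Real.exp_add]; simp
    nlinarith [Real.exp_pos (-d)]
  have h5 : Real.exp (-C) ≤ Real.exp (-d) := Real.exp_le_exp.2 (by linarith)
  have h6 : (Real.exp (-C)) ^ 2 / 10 * (d ^ 2 + (v - y) ^ 2) ≤
      ‖Complex.exp (v * I) - Complex.exp (-(d : ℂ) + y * I)‖ ^ 2 := by
    rw [ta_norm]
    have hC0 := Real.exp_pos (-C)
    have hd0 := Real.exp_pos (-d)
    have hCle : Real.exp (-C) ≤ 1 := by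
      rw [Real.exp_le_one_iff]; linarith
    have a1 : (Real.exp (-C)) ^ 2 * d ^ 2 ≤ (1 - Real.exp (-d)) ^ 2 := by
      have : Real.exp (-C) * d ≤ 1 - Real.exp (-d) := by nlinarith
      calc (Real.exp (-C)) ^ 2 * d ^ 2 = (Real.exp (-C) * d) ^ 2 := by ring
        _ ≤ _ := pow_le_pow_left₀ (by positivity) this 2
    have a2 : (Real.exp (-C)) ^ 2 * ((v - y) ^ 2 / 20) ≤ Real.exp (-d) * (1 - Real.cos (v - y)) := by
      apply mul_le_mul _ h3 (by positivity) hd0.le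
      nlinarith
    nlinarith [sq_nonneg (v - y), sq_nonneg d, mul_nonneg (sq_nonneg (Real.exp (-C))) (sq_nonneg d)]
  have h7 : 0 < d ^ 2 + (v - y) ^ 2 := by positivity
  have h8 : 0 < (Real.exp (-C)) ^ 2 / 10 * (d ^ 2 + (v - y) ^ 2) := by
    have := Real.exp_pos (-C)
    positivity
  calc (1 - Real.exp (-d) ^ 2) / ‖Complex.exp (v * I) - Complex.exp (-(d : ℂ) + y * I)‖ ^ 2
      ≤ (2 * d) / ((Real.exp (-C)) ^ 2 / 10 * (d ^ 2 + (v - y) ^ 2)) := by
        apply div_le_div₀ (by positivity) h1 h8 h6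
    _ = 20 * Real.exp (2 * C) * (d / (d ^ 2 + (v - y) ^ 2)) := by
        have e1 : Real.exp (2 * C) = ((Real.exp (-C)) ^ 2)⁻¹ := by
          rw [← Real.exp_nat_mul, ← Real.exp_neg]
          congr 1
          push_cast
          ring
        rw [e1]
        have := (Real.exp_pos (-C)).ne'
        field_simp
        ring

/-- The profile. -/
private theorem ta_prof {c C d Y t : ℝ} (hc : 0 < c) (hC : 0 < C) (hY : 0 < Y) (h1 : c * Y ≤ d)
    (h2 : d ≤ C * Y) : d / (d ^ 2 + t ^ 2) ≤ C / min (c ^ 2) 1 * (Y / (Y ^ 2 + t ^ 2)) := by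
  have hm : 0 < min (c ^ 2) 1 := lt_min (by positivity) one_pos
  have hd : 0 < d := lt_of_lt_of_le (by positivity) h1
  have h3 : min (c ^ 2) 1 * (Y ^ 2 + t ^ 2) ≤ d ^ 2 + t ^ 2 := by
    have a1 : min (c ^ 2) 1 * Y ^ 2 ≤ d ^ 2 := by
      calc min (c ^ 2) 1 * Y ^ 2 ≤ c ^ 2 * Y ^ 2 := by gcongr; exact min_le_left _ _
        _ = (c * Y) ^ 2 := by ring
        _ ≤ d ^ 2 := pow_le_pow_left₀ (by positivity) h1 2
    have a2 : min (c ^ 2) 1 * t ^ 2 ≤ t ^ 2 := by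
      calc min (c ^ 2) 1 * t ^ 2 ≤ 1 * t ^ 2 := by gcongr; exact min_le_right _ _
        _ = t ^ 2 := one_mul _
    linarith
  have h4 : 0 < min (c ^ 2) 1 * (Y ^ 2 + t ^ 2) := by positivity
  calc d / (d ^ 2 + t ^ 2) ≤ (C * Y) / (min (c ^ 2) 1 * (Y ^ 2 + t ^ 2)) :=
        div_le_div₀ (by positivity) h2 h4 h3
    _ = _ := by
        have := hm.ne'
        field_simp

/-- Pointwise bound in one variable. -/
private theorem ta_pt {p' : ℕ} (hp' : 2 ≤ p') {v y : ℝ} (hy0 : y ≠ 0) (hy : |y| ≤ 1) (hv : v ≠ 0) :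
    |y| ^ p' / ((|y| ^ p') ^ 2 + (v - y) ^ 2) ≤
      4 + 3 ^ p' * ((2 / 3 * |v|) ^ p' / (((2 / 3 * |v|) ^ p') ^ 2 + (v - y) ^ 2)) := by
  have hya : 0 < |y| := abs_pos.2 hy0
  have hva : 0 < |v| := abs_pos.2 hv
  by_cases h : |y| / 2 ≤ |v - y|
  · have h1 : (|y| / 2) ^ 2 ≤ (v - y) ^ 2 := by
      rw [← sq_abs (v - y)]
      exact pow_le_pow_left₀ (by positivity) h 2
    have h2 : |y| ^ p' ≤ |y| ^ 2 := pow_le_pow_of_le_one hya.le hy hp'
    have h3 : |y| ^ p' / ((|y| ^ p') ^ 2 + (v - y) ^ 2) ≤ 4 := by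
      rw [div_le_iff₀ (by positivity)]
      nlinarith [sq_nonneg (|y| ^ p')]
    have h4 : 0 ≤ 3 ^ p' * ((2 / 3 * |v|) ^ p' / (((2 / 3 * |v|) ^ p') ^ 2 + (v - y) ^ 2)) := by
      positivity
    linarith
  · push Not at h
    have h1 : |y| ≤ 2 * |v| := by
      have := abs_sub_abs_le_abs_sub y v
      rw [abs_sub_comm] at this
      linarith
    have h2 : 2 / 3 * |v| ≤ |y| := by
      have := abs_sub_abs_le_abs_sub v y
      linarith
    have h3 : (2 / 3 * |v|) ^ p' ≤ |y| ^ p' := pow_le_pow_left₀ (by positivity) h2 _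
    have h4 : |y| ^ p' ≤ 3 ^ p' * (2 / 3 * |v|) ^ p' := by
      rw [← mul_pow]
      refine pow_le_pow_left₀ hya.le (h1.trans (le_of_eq (by ring))) _
    have h5 : |y| ^ p' / ((|y| ^ p') ^ 2 + (v - y) ^ 2) ≤
        3 ^ p' * (2 / 3 * |v|) ^ p' / (((2 / 3 * |v|) ^ p') ^ 2 + (v - y) ^ 2) := by
      apply div_le_div₀ (by positivity) h4 (by positivity)
      gcongr
    rw [mul_div_assoc] at h5
    linarith


private theorem ta_int (a v : ℝ) (ha : 0 < a) :
    ∫⁻ y : ℝ, ENNReal.ofReal (a / (a ^ 2 + (v - y) ^ 2)) = ENNReal.ofReal Real.pi := by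
  have h1 : ∀ y : ℝ, a / (a ^ 2 + (v - y) ^ 2) = a⁻¹ * (1 + ((y - v) / a) ^ 2)⁻¹ := by
    intro y
    have : a ≠ 0 := ha.ne'
    have h2 : a ^ 2 + (v - y) ^ 2 ≠ 0 := by positivity
    have h3 : 1 + ((y - v) / a) ^ 2 = (a ^ 2 + (v - y) ^ 2) / a ^ 2 := by
      field_simp
      ring
    rw [h3]
    field_simp
  have hi : Integrable (fun y : ℝ => a⁻¹ * (1 + ((y - v) / a) ^ 2)⁻¹) := by
    have := ((integrable_inv_one_add_sq.comp_div ha.ne').comp_sub_right v).const_mul a⁻¹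
    simpa using this
  simp only [h1]
  rw [← ofReal_integral_eq_lintegral_ofReal hi (ae_of_all _ fun y => by positivity)]
  congr 1
  rw [integral_const_mul]
  have h4 : ∫ y : ℝ, (1 + ((y - v) / a) ^ 2)⁻¹ = ∫ y : ℝ, (1 + (y / a) ^ 2)⁻¹ :=
    integral_sub_right_eq_self (fun y : ℝ => (1 + (y / a) ^ 2)⁻¹) v
  have h5 : ∫ y : ℝ, (1 + (y / a) ^ 2)⁻¹ = |a| • ∫ y : ℝ, (1 + y ^ 2)⁻¹ :=
    Measure.integral_comp_div (fun y : ℝ => (1 + y ^ 2)⁻¹) a
  rw [h4, h5, integral_univ_inv_one_add_sq, smul_eq_mul, abs_of_pos ha]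
  field_simp

private theorem ta_one {p' : ℕ} (hp' : 2 ≤ p') (v : ℝ) :
    ∫⁻ y in {y : ℝ | y ≠ 0 ∧ |y| ≤ 1}, ENNReal.ofReal (|y| ^ p' / ((|y| ^ p') ^ 2 + (v - y) ^ 2)) ≤
      ENNReal.ofReal (8 + 3 ^ p' * Real.pi) := by
  have hms : MeasurableSet {y : ℝ | y ≠ 0 ∧ |y| ≤ 1} := by
    have h1 : MeasurableSet {y : ℝ | y ≠ 0} := (measurableSet_singleton (0 : ℝ)).compl
    have h2 : MeasurableSet {y : ℝ | |y| ≤ 1} := measurableSet_le (by fun_prop) (by fun_prop)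
    exact h1.inter h2
  have hvol : volume {y : ℝ | y ≠ 0 ∧ |y| ≤ 1} ≤ 2 := by
    refine (measure_mono (fun y hy => ?_)).trans (b := volume (Icc (-1 : ℝ) 1)) ?_
    · exact abs_le.1 hy.2
    · rw [Real.volume_Icc]
      norm_num
  by_cases hv : v = 0
  · subst hv
    calc ∫⁻ y in {y : ℝ | y ≠ 0 ∧ |y| ≤ 1}, ENNReal.ofReal (|y| ^ p' / ((|y| ^ p') ^ 2 + (0 - y) ^ 2))
        ≤ ∫⁻ y in {y : ℝ | y ≠ 0 ∧ |y| ≤ 1}, 4 := by
          refine setLIntegral_mono' hms fun y hy => ?_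
          rw [show (4 : ℝ≥0∞) = ENNReal.ofReal 4 by norm_num]
          refine ENNReal.ofReal_le_ofReal ?_
          have hy0 : 0 < |y| := abs_pos.2 hy.1
          have h2 : |y| ^ p' ≤ |y| ^ 2 := pow_le_pow_of_le_one hy0.le hy.2 hp'
          rw [div_le_iff₀ (by rw [zero_sub, neg_sq]; have := hy.1; positivity), zero_sub, neg_sq, ← sq_abs y]
          nlinarith [sq_nonneg (|y| ^ p'), sq_nonneg |y|]
      _ ≤ 4 * 2 := by
          rw [setLIntegral_const]
          gcongr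
      _ ≤ ENNReal.ofReal (8 + 3 ^ p' * Real.pi) := by
          rw [show (4 : ℝ≥0∞) * 2 = ENNReal.ofReal 8 by
            rw [show (8 : ℝ) = 4 * 2 by norm_num, ENNReal.ofReal_mul (by norm_num)]; norm_num]
          refine ENNReal.ofReal_le_ofReal ?_
          have := Real.pi_pos
          have : 0 ≤ 3 ^ p' * Real.pi := by positivity
          linarith
  · have ha : 0 < (2 / 3 * |v|) ^ p' := by
      have := abs_pos.2 hv
      positivity
    calc ∫⁻ y in {y : ℝ | y ≠ 0 ∧ |y| ≤ 1}, ENNReal.ofReal (|y| ^ p' / ((|y| ^ p') ^ 2 + (v - y) ^ 2))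
        ≤ ∫⁻ y in {y : ℝ | y ≠ 0 ∧ |y| ≤ 1}, (4 + 3 ^ p' *
            ENNReal.ofReal ((2 / 3 * |v|) ^ p' / (((2 / 3 * |v|) ^ p') ^ 2 + (v - y) ^ 2))) := by
          refine setLIntegral_mono' hms fun y hy => ?_
          refine (ENNReal.ofReal_le_ofReal (ta_pt hp' hy.1 hy.2 hv)).trans (le_of_eq ?_)
          rw [ENNReal.ofReal_add (by norm_num) (by positivity), ENNReal.ofReal_mul (by positivity),
            ENNReal.ofReal_pow (by norm_num)]
          norm_num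
      _ = (∫⁻ _ in {y : ℝ | y ≠ 0 ∧ |y| ≤ 1}, 4) + 3 ^ p' *
            ∫⁻ y in {y : ℝ | y ≠ 0 ∧ |y| ≤ 1},
            ENNReal.ofReal ((2 / 3 * |v|) ^ p' / (((2 / 3 * |v|) ^ p') ^ 2 + (v - y) ^ 2)) := by
          rw [lintegral_add_left measurable_const, lintegral_const_mul' _ _ (by simp)]
      _ ≤ 4 * 2 + 3 ^ p' * ENNReal.ofReal Real.pi := by
          rw [setLIntegral_const]
          gcongr
          exact (setLIntegral_le_lintegral _ _).trans (le_of_eq (ta_int _ v ha))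
      _ = ENNReal.ofReal (8 + 3 ^ p' * Real.pi) := by
          have := Real.pi_pos
          rw [ENNReal.ofReal_add (by norm_num) (by positivity), ENNReal.ofReal_mul (by positivity),
            ENNReal.ofReal_pow (by norm_num)]
          norm_num


/-- The bound for a fixed boundary point. -/
private theorem ta_fix (p p' : ℕ) (hp' : 2 ≤ p') {c C : ℝ} (hc : 0 < c) (hC : 0 < C) (z0 : ℂ)
    (hz0 : ‖z0‖ = 1) (D : Set (ℝ × ℝ)) (hD : MeasurableSet D)
    (h1 : ∀ w ∈ D, w.2 ≠ 0 ∧ |w.2| ≤ 1 ∧ c * |w.2| ^ p' ≤ -w.1 ∧ -w.1 ≤ C * |w.2| ^ p')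
    (h2 : ∀ y : ℝ, volume {x : ℝ | (x, y) ∈ D} ≤ ENNReal.ofReal (C * |y| ^ p)) (b : ℂ) (hb : ‖b‖ = 1) :
    ∫⁻ w in D, ENNReal.ofReal ((|w.2| ^ p)⁻¹) *
        ENNReal.ofReal ((1 - ‖z0 * Complex.exp (w.1 + w.2 * I)‖ ^ 2) /
          ‖b - z0 * Complex.exp (w.1 + w.2 * I)‖ ^ 2) ≤
      ENNReal.ofReal (C * (20 * Real.exp (2 * C) * (C / min (c ^ 2) 1)) * (8 + 3 ^ p' * Real.pi)) := by
  have hz0' : z0 ≠ 0 := by
    intro h
    rw [h, norm_zero] at hz0
    exact zero_ne_one hz0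
  obtain ⟨v, hv, hbv⟩ : ∃ v : ℝ, |v| ≤ Real.pi ∧ b = z0 * Complex.exp (v * I) := by
    refine ⟨Complex.arg (b / z0), Complex.abs_arg_le_pi _, ?_⟩
    have h3 := Complex.norm_mul_exp_arg_mul_I (b / z0)
    rw [norm_div, hb, hz0, div_one, Complex.ofReal_one, one_mul] at h3
    rw [h3]
    field_simp
  have hm : 0 < min (c ^ 2) 1 := lt_min (by positivity) one_pos
  have hK : 0 ≤ 20 * Real.exp (2 * C) * (C / min (c ^ 2) 1) := by positivity
  -- pointwise
  have h3 : ∀ w ∈ D, ENNReal.ofReal ((1 - ‖z0 * Complex.exp (w.1 + w.2 * I)‖ ^ 2) /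
          ‖b - z0 * Complex.exp (w.1 + w.2 * I)‖ ^ 2) ≤
      ENNReal.ofReal (20 * Real.exp (2 * C) * (C / min (c ^ 2) 1) *
        (|w.2| ^ p' / ((|w.2| ^ p') ^ 2 + (v - w.2) ^ 2))) := by
    intro w hw
    obtain ⟨a1, a2, a3, a4⟩ := h1 w hw
    refine ENNReal.ofReal_le_ofReal ?_
    have hY : 0 < |w.2| ^ p' := pow_pos (abs_pos.2 a1) _
    have hd : 0 < -w.1 := lt_of_lt_of_le (by positivity) a3
    have hY1 : |w.2| ^ p' ≤ 1 := pow_le_one₀ (abs_nonneg _) a2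
    have hdC : -w.1 ≤ C := a4.trans (by nlinarith)
    have e1 : ‖z0 * Complex.exp (w.1 + w.2 * I)‖ = Real.exp (-(-w.1)) := by
      rw [norm_mul, hz0, one_mul, Complex.norm_exp]
      simp
    have e2 : ‖b - z0 * Complex.exp (w.1 + w.2 * I)‖ =
        ‖Complex.exp (v * I) - Complex.exp (-((-w.1 : ℝ) : ℂ) + w.2 * I)‖ := by
      rw [hbv, ← mul_sub, norm_mul, hz0, one_mul]
      congr 3
      push_cast
      ring
    rw [e1, e2]
    refine (ta_ker hd hdC hv a2).trans ?_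
    rw [mul_assoc (20 * Real.exp (2 * C))]
    exact mul_le_mul_of_nonneg_left (ta_prof hc hC hY a3 a4) (by positivity)
  -- the function of `y`
  obtain ⟨g, hg⟩ : ∃ g : ℝ → ℝ≥0∞, g = fun y => ENNReal.ofReal ((|y| ^ p)⁻¹) *
      ENNReal.ofReal (20 * Real.exp (2 * C) * (C / min (c ^ 2) 1) *
        (|y| ^ p' / ((|y| ^ p') ^ 2 + (v - y) ^ 2))) := ⟨_, rfl⟩
  have hgm : Measurable g := by
    rw [hg]
    fun_prop
  have h4 : ∫⁻ w in D, ENNReal.ofReal ((|w.2| ^ p)⁻¹) *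
        ENNReal.ofReal ((1 - ‖z0 * Complex.exp (w.1 + w.2 * I)‖ ^ 2) /
          ‖b - z0 * Complex.exp (w.1 + w.2 * I)‖ ^ 2) ≤ ∫⁻ w in D, g w.2 := by
    refine setLIntegral_mono' hD fun w hw => ?_
    rw [hg]
    exact mul_le_mul_right (h3 w hw) _
  have h5 : ∫⁻ w in D, g w.2 = ∫⁻ y : ℝ, g y * volume {x : ℝ | (x, y) ∈ D} := by
    rw [← lintegral_indicator hD]
    have hmm : Measurable (D.indicator fun w : ℝ × ℝ => g w.2) := (hgm.comp measurable_snd).indicator hD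
    rw [Measure.volume_eq_prod, lintegral_prod_symm' _ hmm]
    refine lintegral_congr fun y => ?_
    have : ∀ x : ℝ, D.indicator (fun w : ℝ × ℝ => g w.2) (x, y) =
        {x : ℝ | (x, y) ∈ D}.indicator (fun _ => g y) x := fun x => by
      by_cases hx : (x, y) ∈ D
      · rw [indicator_of_mem hx, indicator_of_mem (by exact hx)]
      · rw [indicator_of_notMem hx, indicator_of_notMem (by exact hx)]
    simp only [this]
    have hy : MeasurableSet {x : ℝ | (x, y) ∈ D} := measurable_prodMk_right hD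
    rw [lintegral_indicator hy, setLIntegral_const]
  have hms : MeasurableSet {y : ℝ | y ≠ 0 ∧ |y| ≤ 1} := by
    have h1 : MeasurableSet {y : ℝ | y ≠ 0} := (measurableSet_singleton (0 : ℝ)).compl
    have h2 : MeasurableSet {y : ℝ | |y| ≤ 1} := measurableSet_le (by fun_prop) (by fun_prop)
    exact h1.inter h2
  have h6 : ∫⁻ y : ℝ, g y * volume {x : ℝ | (x, y) ∈ D} ≤
      ∫⁻ y in {y : ℝ | y ≠ 0 ∧ |y| ≤ 1}, ENNReal.ofReal (C * (20 * Real.exp (2 * C) * (C / min (c ^ 2) 1))) *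
        ENNReal.ofReal (|y| ^ p' / ((|y| ^ p') ^ 2 + (v - y) ^ 2)) := by
    rw [← lintegral_indicator hms]
    refine lintegral_mono fun y => ?_
    by_cases hy : y ∈ {y : ℝ | y ≠ 0 ∧ |y| ≤ 1}
    · rw [indicator_of_mem hy]
      have hy0 : 0 < |y| ^ p := pow_pos (abs_pos.2 hy.1) _
      refine (mul_le_mul_right (h2 y) _).trans (le_of_eq ?_)
      rw [hg]
      simp only
      rw [← ENNReal.ofReal_mul (by positivity), ← ENNReal.ofReal_mul (by positivity),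
        ← ENNReal.ofReal_mul (by positivity)]
      congr 1
      field_simp
    · have : {x : ℝ | (x, y) ∈ D} = ∅ := by
        ext x
        refine iff_of_false (fun hx => ?_) (fun hx => hx)
        exact hy ⟨(h1 _ hx).1, (h1 _ hx).2.1⟩
      rw [this, measure_empty, mul_zero]
      exact bot_le
  refine h4.trans ((le_of_eq h5).trans (h6.trans ?_))
  rw [lintegral_const_mul' _ _ (by simp)]
  refine (mul_le_mul_right (ta_one hp' v) _).trans (le_of_eq ?_)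
  rw [← ENNReal.ofReal_mul (by positivity)]

theorem tang_embed (p p' : ℕ) (hp' : 2 ≤ p') {c C : ℝ} (hc : 0 < c) (hC : 0 < C) :
    ∃ K : ℝ, 0 < K ∧ ∀ z0 : ℂ, ‖z0‖ = 1 → ∀ D : Set (ℝ × ℝ), MeasurableSet D →
      (∀ w ∈ D, w.2 ≠ 0 ∧ |w.2| ≤ 1 ∧ c * |w.2| ^ p' ≤ -w.1 ∧ -w.1 ≤ C * |w.2| ^ p') →
      (∀ y : ℝ, volume {x : ℝ | (x, y) ∈ D} ≤ ENNReal.ofReal (C * |y| ^ p)) → ∀ h : Hardy,
      ∫⁻ w in D, ENNReal.ofReal ((|w.2| ^ p)⁻¹) *
        ENNReal.ofReal (‖ev (z0 * Complex.exp (w.1 + w.2 * I)) h‖ ^ 2) ≤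
          ENNReal.ofReal (K * ‖h‖ ^ 2) := by
  have hm : 0 < min (c ^ 2) 1 := lt_min (by positivity) one_pos
  have hpi := Real.pi_pos
  refine ⟨C * (20 * Real.exp (2 * C) * (C / min (c ^ 2) 1)) * (8 + 3 ^ p' * Real.pi), by positivity,
    fun z0 hz0 D hD h1 h2 h => ?_⟩
  have hmu : Measurable fun x : UnitAddCircle => ‖(incl h : UnitAddCircle → ℂ) x‖ₑ ^ 2 :=
    ((Lp.stronglyMeasurable (incl h)).measurable.enorm).pow_const 2
  have he : Measurable fun x : UnitAddCircle => e x := by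
    have : Continuous fun x : UnitAddCircle => e x :=
      continuous_subtype_val.comp AddCircle.continuous_toCircle
    exact this.measurable
  have h3 : ∫⁻ w in D, ENNReal.ofReal ((|w.2| ^ p)⁻¹) *
        ENNReal.ofReal (‖ev (z0 * Complex.exp (w.1 + w.2 * I)) h‖ ^ 2) ≤
      ∫⁻ w in D, ∫⁻ x : UnitAddCircle, ENNReal.ofReal ((|w.2| ^ p)⁻¹) *
        (ENNReal.ofReal ((1 - ‖z0 * Complex.exp (w.1 + w.2 * I)‖ ^ 2) /
          ‖e x - z0 * Complex.exp (w.1 + w.2 * I)‖ ^ 2) *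
        ‖(incl h : UnitAddCircle → ℂ) x‖ₑ ^ 2) ∂haarAddCircle := by
    refine setLIntegral_mono' hD fun w hw => ?_
    rw [lintegral_const_mul' _ _ (by simp)]
    refine mul_le_mul_right (ev_sq_le ?_ h) _
    obtain ⟨a1, a2, a3, a4⟩ := h1 w hw
    have hY : 0 < |w.2| ^ p' := pow_pos (abs_pos.2 a1) _
    have hd : 0 < -w.1 := lt_of_lt_of_le (by positivity) a3
    rw [norm_mul, hz0, one_mul, Complex.norm_exp]
    simp only [add_re, ofReal_re, mul_re, I_re, mul_zero, ofReal_im, I_im, mul_one, sub_self, add_zero]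
    rw [Real.exp_lt_one_iff]
    linarith
  refine h3.trans ?_
  rw [lintegral_lintegral_swap]
  · calc ∫⁻ x : UnitAddCircle, (∫⁻ w in D, ENNReal.ofReal ((|w.2| ^ p)⁻¹) *
        (ENNReal.ofReal ((1 - ‖z0 * Complex.exp (w.1 + w.2 * I)‖ ^ 2) /
          ‖e x - z0 * Complex.exp (w.1 + w.2 * I)‖ ^ 2) *
        ‖(incl h : UnitAddCircle → ℂ) x‖ₑ ^ 2)) ∂haarAddCircle
        ≤ ∫⁻ x : UnitAddCircle, ENNReal.ofReal
          (C * (20 * Real.exp (2 * C) * (C / min (c ^ 2) 1)) * (8 + 3 ^ p' * Real.pi)) *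
          ‖(incl h : UnitAddCircle → ℂ) x‖ₑ ^ 2 ∂haarAddCircle := by
          refine lintegral_mono fun x => ?_
          have e3 : (∫⁻ w in D, ENNReal.ofReal ((|w.2| ^ p)⁻¹) *
              (ENNReal.ofReal ((1 - ‖z0 * Complex.exp (w.1 + w.2 * I)‖ ^ 2) /
                ‖e x - z0 * Complex.exp (w.1 + w.2 * I)‖ ^ 2) *
              ‖(incl h : UnitAddCircle → ℂ) x‖ₑ ^ 2)) = (∫⁻ w in D, ENNReal.ofReal ((|w.2| ^ p)⁻¹) *
              ENNReal.ofReal ((1 - ‖z0 * Complex.exp (w.1 + w.2 * I)‖ ^ 2) /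
                ‖e x - z0 * Complex.exp (w.1 + w.2 * I)‖ ^ 2)) *
              ‖(incl h : UnitAddCircle → ℂ) x‖ₑ ^ 2 := by
            rw [← lintegral_mul_const' _ _ (by simp)]
            exact lintegral_congr fun w => (mul_assoc _ _ _).symm
          rw [e3]
          refine mul_le_mul_left ?_ _
          exact ta_fix p p' hp' hc hC z0 hz0 D hD h1 h2 (e x) (Circle.norm_coe _)
      _ = _ := by
          rw [lintegral_const_mul' _ _ (by simp), lintegral_sq, ← ENNReal.ofReal_mul (by positivity)]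
  · refine Measurable.aemeasurable ?_
    have m1 : Measurable fun q : (ℝ × ℝ) × UnitAddCircle => ENNReal.ofReal ((|q.1.2| ^ p)⁻¹) := by
      fun_prop
    have m0 : Measurable fun q : (ℝ × ℝ) × UnitAddCircle => z0 * Complex.exp (q.1.1 + q.1.2 * I) := by
      fun_prop
    have m2 : Measurable fun q : (ℝ × ℝ) × UnitAddCircle =>
        ENNReal.ofReal ((1 - ‖z0 * Complex.exp (q.1.1 + q.1.2 * I)‖ ^ 2) /
          ‖e q.2 - z0 * Complex.exp (q.1.1 + q.1.2 * I)‖ ^ 2) :=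
      ((measurable_const.sub (m0.norm.pow_const 2)).div
        (((he.comp measurable_snd).sub m0).norm.pow_const 2)).ennreal_ofReal
    exact m1.mul (m2.mul (hmu.comp measurable_snd))

end Pool.Agent.TBirE
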