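import Pool.Agent.TBirE.Bas

/-!
# A function of class C^1 with prescribed values at finitely many ordered curves

Paper proof. Let `Psi : ℝ → ℝ` be smooth, `0` on `(-∞, 1/3]`, `1` on `[2/3, ∞)`, values in `[0, 1]`
(`Real.smoothTransition (3 t - 1)`), `|Psi'| ≤ M`. For consecutive indices `a`, `b = a + 1` with `kap a ≠ kap b` put
`P a l = 0` if `E a l ≤ 0`, `1` if `0 ≤ E b l` and otherwise `Psi (E a l / (E a l - E b l))`. By `hst` the first two cases
exclude each other. `P a` is locally `0` near the points with `E a l ≤ 0` of `W` (if `E a l = 0` then `E b l < 0` by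
`hst`, and the quotient is small near `l`), locally `1` near the points with `0 ≤ E b l`, and `C^1` in between, with
`‖dP a‖ ≤ M (|E b| ‖dE a‖ + |E a| ‖dE b‖) / (E a - E b)^2 ≤ M K / (E a - E b)`; where `P a` is not locally constant or not
in `{0, 1}` the quotient is in `[1/3, 2/3]`, so `E a - E b ≤ 4 E a`, `E a - E b ≤ - 4 E b`.
`f = kap 0 + sum over a with a + 1 < m, kap a ≠ kap (a + 1), of (kap (a+1) - kap a) P a` on `W` and
`f = 0` (or `1`) off `W`. At every point of `W` at most one of the `P a` has values different from `0` and `1` near the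
point, those of smaller index are `1` and those of larger index are `0` near it (by `hch`, `hst`), the sum telescopes:
this gives the values `(v1)` to `(v4)`, the values in `[0, 1]` and the bound of `dbar f`.
-/

set_option autoImplicit false

open MeasureTheory Complex Set Filter Topology Metric AddCircle
open scoped ComplexConjugate InnerProductSpace ENNReal
open Pool.Lib (dbar)

namespace Pool.Agent.TBirE

/-- the cutoff -/
private noncomputable def Psi (t : ℝ) : ℝ := Real.smoothTransition (3 * t - 1)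

private theorem Psi_zero {t : ℝ} (h : t ≤ 1 / 3) : Psi t = 0 :=
  Real.smoothTransition.zero_of_nonpos (by linarith)

private theorem Psi_one {t : ℝ} (h : 2 / 3 ≤ t) : Psi t = 1 :=
  Real.smoothTransition.one_of_one_le (by linarith)

private theorem Psi_nonneg (t : ℝ) : 0 ≤ Psi t := Real.smoothTransition.nonneg _

private theorem Psi_le_one (t : ℝ) : Psi t ≤ 1 := Real.smoothTransition.le_one _

private theorem Psi_contDiff : ContDiff ℝ 1 Psi := by
  have h : ContDiff ℝ 1 Real.smoothTransition :=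
    Real.smoothTransition.contDiff (n := 1)
  exact h.comp ((contDiff_const.mul contDiff_id).sub contDiff_const)

/-- the transition between two curves -/
private noncomputable def TP (Ea Eb : ℂ → ℝ) (l : ℂ) : ℝ :=
  if Ea l ≤ 0 then 0 else if 0 ≤ Eb l then 1 else Psi (Ea l / (Ea l - Eb l))

private theorem TP_A {Ea Eb : ℂ → ℝ} {l : ℂ} (ha : ContinuousAt Ea l) (hb : ContinuousAt Eb l)
    (h : Ea l ≤ 0) (hst : 0 ≤ Eb l → 0 < Ea l) : ∀ᶠ l' in 𝓝 l, TP Ea Eb l' = 0 := by
  have hb0 : Eb l < 0 := by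
    by_contra hcon
    push Not at hcon
    exact absurd (hst hcon) (not_lt.mpr h)
  have h1 : ∀ᶠ l' in 𝓝 l, Eb l' < 0 := hb.eventually (gt_mem_nhds hb0)
  have h2 : ∀ᶠ l' in 𝓝 l, 2 * Ea l' + Eb l' < 0 := by
    have h3 : ContinuousAt (fun l' => 2 * Ea l' + Eb l') l := (continuousAt_const.mul ha).add hb
    exact h3.eventually (gt_mem_nhds (by linarith))
  filter_upwards [h1, h2] with l' h3 h4
  unfold TP
  split_ifs with h5 h6
  · rfl
  · exact absurd h3 (not_lt.mpr h6)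
  · push Not at h5 h6
    refine Psi_zero ?_
    rw [div_le_iff₀ (by linarith)]
    linarith

private theorem TP_B {Ea Eb : ℂ → ℝ} {l : ℂ} (ha : ContinuousAt Ea l) (hb : ContinuousAt Eb l)
    (h : 0 ≤ Eb l) (hst : 0 ≤ Eb l → 0 < Ea l) : ∀ᶠ l' in 𝓝 l, TP Ea Eb l' = 1 := by
  have ha0 : 0 < Ea l := hst h
  have h1 : ∀ᶠ l' in 𝓝 l, 0 < Ea l' := ha.eventually (lt_mem_nhds ha0)
  have h2 : ∀ᶠ l' in 𝓝 l, 0 < Ea l' + 2 * Eb l' := by
    have h3 : ContinuousAt (fun l' => Ea l' + 2 * Eb l') l := ha.add (continuousAt_const.mul hb)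
    exact h3.eventually (lt_mem_nhds (by linarith))
  filter_upwards [h1, h2] with l' h3 h4
  unfold TP
  split_ifs with h5 h6
  · exact absurd h3 (not_lt.mpr h5)
  · rfl
  · push Not at h5 h6
    refine Psi_one ?_
    rw [le_div_iff₀ (by linarith)]
    linarith

private theorem TP_C {Ea Eb : ℂ → ℝ} {l : ℂ} (ha : ContinuousAt Ea l) (hb : ContinuousAt Eb l)
    (h : 0 < Ea l) (h' : Eb l < 0) :
    ∀ᶠ l' in 𝓝 l, TP Ea Eb l' = Psi (Ea l' / (Ea l' - Eb l')) := by
  have h1 : ∀ᶠ l' in 𝓝 l, 0 < Ea l' := ha.eventually (lt_mem_nhds h)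
  have h2 : ∀ᶠ l' in 𝓝 l, Eb l' < 0 := hb.eventually (gt_mem_nhds h')
  filter_upwards [h1, h2] with l' h3 h4
  unfold TP
  rw [if_neg (not_le.mpr h3), if_neg (not_le.mpr h4)]

/-- The directional derivative of the transition. -/
private theorem dir_bound {Ea Eb : ℂ → ℝ} {l v : ℂ} {K M : ℝ} (hv : ‖v‖ = 1)
    (ha : DifferentiableAt ℝ Ea l) (hb : DifferentiableAt ℝ Eb l) (hKa : ‖fderiv ℝ Ea l‖ ≤ K)
    (hKb : ‖fderiv ℝ Eb l‖ ≤ K) (h : 0 < Ea l) (h' : Eb l < 0)
    (hM : |deriv Psi (Ea l / (Ea l - Eb l))| ≤ M) {k d : ℝ} (hd : |d| ≤ 1) {f : ℂ → ℂ}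
    (hf : ∀ᶠ l' in 𝓝 l, f l' = ((k + d * Psi (Ea l' / (Ea l' - Eb l')) : ℝ) : ℂ))
    (hfd : DifferentiableAt ℝ f l) : ‖fderiv ℝ f l v‖ ≤ M * K / (Ea l - Eb l) := by
  have hD : 0 < Ea l - Eb l := by linarith
  have hline : HasDerivAt (fun t : ℝ => l + (t : ℂ) * v) v 0 := by
    have h9 : HasDerivAt (fun x : ℝ => (x : ℂ)) 1 0 := Complex.ofRealCLM.hasDerivAt
    have h10 := (h9.mul_const v).const_add l
    rw [one_mul] at h10
    exact h10
  have h0 : l + ((0 : ℝ) : ℂ) * v = l := by simp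
  have hda : HasDerivAt (fun t : ℝ => Ea (l + (t : ℂ) * v)) (fderiv ℝ Ea l v) 0 := by
    have h1 : HasFDerivAt Ea (fderiv ℝ Ea l) (l + ((0 : ℝ) : ℂ) * v) := by
      rw [h0]
      exact ha.hasFDerivAt
    exact h1.comp_hasDerivAt 0 hline
  have hdb : HasDerivAt (fun t : ℝ => Eb (l + (t : ℂ) * v)) (fderiv ℝ Eb l v) 0 := by
    have h1 : HasFDerivAt Eb (fderiv ℝ Eb l) (l + ((0 : ℝ) : ℂ) * v) := by
      rw [h0]
      exact hb.hasFDerivAt
    exact h1.comp_hasDerivAt 0 hline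
  have hdf : HasDerivAt (fun t : ℝ => f (l + (t : ℂ) * v)) (fderiv ℝ f l v) 0 := by
    have h1 : HasFDerivAt f (fderiv ℝ f l) (l + ((0 : ℝ) : ℂ) * v) := by
      rw [h0]
      exact hfd.hasFDerivAt
    exact h1.comp_hasDerivAt 0 hline
  have hr : HasDerivAt (fun t : ℝ => Ea (l + (t : ℂ) * v) /
      (Ea (l + (t : ℂ) * v) - Eb (l + (t : ℂ) * v)))
      ((fderiv ℝ Ea l v * (Ea l - Eb l) - Ea l * (fderiv ℝ Ea l v - fderiv ℝ Eb l v)) /
        (Ea l - Eb l) ^ 2) 0 := by
    have h1 := hda.div (hda.sub hdb) (by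
      show Ea (l + ((0 : ℝ) : ℂ) * v) - Eb (l + ((0 : ℝ) : ℂ) * v) ≠ 0
      rw [h0]
      exact hD.ne')
    have e1 : Ea (l + ((0 : ℝ) : ℂ) * v) = Ea l := by rw [h0]
    have e2 : Eb (l + ((0 : ℝ) : ℂ) * v) = Eb l := by rw [h0]
    simp only [Pi.sub_apply, e1, e2] at h1
    exact h1
  have hPsi : HasDerivAt Psi (deriv Psi (Ea l / (Ea l - Eb l))) (Ea (l + ((0 : ℝ) : ℂ) * v) /
      (Ea (l + ((0 : ℝ) : ℂ) * v) - Eb (l + ((0 : ℝ) : ℂ) * v))) := by
    rw [h0]
    exact (Psi_contDiff.differentiable (by norm_num) _).hasDerivAt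
  have hg := ((hPsi.comp (0 : ℝ) hr).const_mul d).const_add k
  have hgC : HasDerivAt (fun t : ℝ => ((k + d * Psi (Ea (l + (t : ℂ) * v) /
      (Ea (l + (t : ℂ) * v) - Eb (l + (t : ℂ) * v))) : ℝ) : ℂ))
      ((d * (deriv Psi (Ea l / (Ea l - Eb l)) *
        ((fderiv ℝ Ea l v * (Ea l - Eb l) - Ea l * (fderiv ℝ Ea l v - fderiv ℝ Eb l v)) /
        (Ea l - Eb l) ^ 2)) : ℝ) : ℂ) 0 := hg.ofReal_comp
  have hev : (fun t : ℝ => f (l + (t : ℂ) * v)) =ᶠ[𝓝 0] fun t : ℝ =>
      ((k + d * Psi (Ea (l + (t : ℂ) * v) /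
      (Ea (l + (t : ℂ) * v) - Eb (l + (t : ℂ) * v))) : ℝ) : ℂ) := by
    have h1 : Tendsto (fun t : ℝ => l + (t : ℂ) * v) (𝓝 0) (𝓝 l) := by
      have h2 := hline.continuousAt
      have h3 : Tendsto (fun t : ℝ => l + (t : ℂ) * v) (𝓝 0) (𝓝 (l + ((0 : ℝ) : ℂ) * v)) := h2
      rwa [h0] at h3
    exact h1.eventually hf
  have heq := hdf.unique (hgC.congr_of_eventuallyEq hev)
  rw [heq, norm_real, Real.norm_eq_abs, abs_mul, abs_mul, abs_div, abs_of_pos (pow_pos hD 2)]
  have hka : |fderiv ℝ Ea l v| ≤ K := by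
    have h1 := (fderiv ℝ Ea l).le_opNorm v
    rw [hv, mul_one, Real.norm_eq_abs] at h1
    exact h1.trans hKa
  have hkb : |fderiv ℝ Eb l v| ≤ K := by
    have h1 := (fderiv ℝ Eb l).le_opNorm v
    rw [hv, mul_one, Real.norm_eq_abs] at h1
    exact h1.trans hKb
  have hM0 : 0 ≤ M := (abs_nonneg _).trans hM
  have hK0 : 0 ≤ K := (abs_nonneg _).trans hka
  have hnum : |fderiv ℝ Ea l v * (Ea l - Eb l) - Ea l * (fderiv ℝ Ea l v - fderiv ℝ Eb l v)| ≤
      K * (Ea l - Eb l) := by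
    have e : fderiv ℝ Ea l v * (Ea l - Eb l) - Ea l * (fderiv ℝ Ea l v - fderiv ℝ Eb l v) =
        fderiv ℝ Ea l v * (-Eb l) + fderiv ℝ Eb l v * Ea l := by ring
    rw [e]
    refine (abs_add_le _ _).trans ?_
    rw [abs_mul, abs_mul, abs_of_pos h, abs_of_pos (neg_pos.mpr h')]
    have h1 := mul_le_mul_of_nonneg_right hka (neg_pos.mpr h').le
    have h2 := mul_le_mul_of_nonneg_right hkb h.le
    linarith
  have hq : |fderiv ℝ Ea l v * (Ea l - Eb l) - Ea l * (fderiv ℝ Ea l v - fderiv ℝ Eb l v)| /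
      (Ea l - Eb l) ^ 2 ≤ K / (Ea l - Eb l) := by
    rw [div_le_div_iff₀ (pow_pos hD 2) hD]
    have := mul_le_mul_of_nonneg_right hnum hD.le
    calc _ ≤ K * (Ea l - Eb l) * (Ea l - Eb l) := this
      _ = K * (Ea l - Eb l) ^ 2 := by ring
  have hq0 : 0 ≤ |fderiv ℝ Ea l v * (Ea l - Eb l) - Ea l * (fderiv ℝ Ea l v - fderiv ℝ Eb l v)| /
      (Ea l - Eb l) ^ 2 := by positivity
  calc |d| * (|deriv Psi (Ea l / (Ea l - Eb l))| *
        (|fderiv ℝ Ea l v * (Ea l - Eb l) - Ea l * (fderiv ℝ Ea l v - fderiv ℝ Eb l v)| /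
      (Ea l - Eb l) ^ 2)) ≤ 1 * (M * (K / (Ea l - Eb l))) := by
        refine mul_le_mul hd (mul_le_mul hM hq hq0 hM0) (by positivity) zero_le_one
    _ = M * K / (Ea l - Eb l) := by ring

private theorem main_nat {W : Set ℂ} (hW : IsOpen W) {m : ℕ} (hm : 0 < m) {E : ℕ → ℂ → ℝ}
    (hE : ∀ a < m, ContDiffOn ℝ 1 (E a) W) {K : ℝ}
    (hK : ∀ a < m, ∀ l ∈ W, ‖fderiv ℝ (E a) l‖ ≤ K)
    {kap : ℕ → ℝ} (hkap : ∀ a < m, kap a = 0 ∨ kap a = 1)
    (hch : ∀ a b, a < b → b < m → ∀ l ∈ W, (0 ≤ E b l → 0 ≤ E a l) ∧ (0 < E b l → 0 < E a l))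
    (hst : ∀ a, a + 1 < m → kap a ≠ kap (a + 1) → ∀ l ∈ W, 0 ≤ E (a + 1) l → 0 < E a l) :
    ∃ (f : ℂ → ℂ) (C : ℝ), ContDiffOn ℝ 1 f W ∧ (∀ l, ∃ t : ℝ, 0 ≤ t ∧ t ≤ 1 ∧ f l = t) ∧
      (∀ a < m, ∀ l ∈ W, E a l = 0 → ∀ᶠ l' in 𝓝 l, f l' = kap a) ∧
      (∀ a, a + 1 < m → kap a = kap (a + 1) → ∀ l ∈ W, 0 < E a l → E (a + 1) l < 0 →
        ∀ᶠ l' in 𝓝 l, f l' = kap a) ∧
      (∀ l ∈ W, E 0 l < 0 → ∀ᶠ l' in 𝓝 l, f l' = kap 0) ∧
      (∀ l ∈ W, 0 < E (m - 1) l → ∀ᶠ l' in 𝓝 l, f l' = kap (m - 1)) ∧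
      ∀ l ∈ W, (dbar f l ≠ 0 ∨ (f l ≠ 0 ∧ f l ≠ 1)) → ∃ a, a + 1 < m ∧
        kap a ≠ kap (a + 1) ∧ 0 < E a l ∧ E (a + 1) l < 0 ∧ E a l - E (a + 1) l ≤ 4 * E a l ∧
        E a l - E (a + 1) l ≤ 4 * -E (a + 1) l ∧ ‖dbar f l‖ ≤ C / (E a l - E (a + 1) l) := by
  classical
  -- the bound of the derivative of the cutoff
  obtain ⟨M, hM⟩ : ∃ M : ℝ, ∀ t ∈ Icc (1 / 3 : ℝ) (2 / 3), |deriv Psi t| ≤ M := by
    have h1 : Continuous (deriv Psi) := Psi_contDiff.continuous_deriv (by norm_num)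
    obtain ⟨M, hM⟩ := isCompact_Icc.exists_bound_of_continuousOn
      (s := Icc (1 / 3 : ℝ) (2 / 3)) h1.continuousOn
    exact ⟨M, fun t ht => by simpa using hM t ht⟩
  have hEat : ∀ a < m, ∀ l ∈ W, ContDiffAt ℝ 1 (E a) l := fun a ha l hl =>
    (hE a ha).contDiffAt (hW.mem_nhds hl)
  have hcont : ∀ a < m, ∀ l ∈ W, ContinuousAt (E a) l := fun a ha l hl =>
    (hEat a ha l hl).continuousAt
  set d : ℕ → ℝ := fun n => kap (n + 1) - kap n with hd
  have hd1 : ∀ n, n + 1 < m → |d n| ≤ 1 := by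
    intro n hn
    rw [hd]
    rcases hkap n (by omega) with h | h <;> rcases hkap (n + 1) hn with h' | h' <;>
      simp only [h, h'] <;> norm_num
  set g : ℂ → ℝ := fun l => kap 0 + ∑ n ∈ Finset.range (m - 1), d n * TP (E n) (E (n + 1)) l with hg
  -- local form
  have hL : ∀ l ∈ W, ∀ s < m, (∀ n < s, 0 ≤ E (n + 1) l) →
      (∀ n, s < n → n + 1 < m → E n l ≤ 0) →
      ∀ᶠ l' in 𝓝 l, g l' = kap s + if s + 1 < m then d s * TP (E s) (E (s + 1)) l' else 0 := by
    intro l hl s hs h1 h2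
    have h3 : ∀ n ∈ Finset.range (m - 1), ∀ᶠ l' in 𝓝 l,
        (n < s → d n * TP (E n) (E (n + 1)) l' = d n) ∧
        (s < n → d n * TP (E n) (E (n + 1)) l' = 0) := by
      intro n hn
      rw [Finset.mem_range] at hn
      have hn1 : n + 1 < m := by omega
      have hc1 := hcont n (by omega) l hl
      have hc2 := hcont (n + 1) hn1 l hl
      by_cases hk : kap n = kap (n + 1)
      · have : d n = 0 := by rw [hd]; simp only [hk]; ring
        exact Eventually.of_forall fun l' => ⟨fun _ => by rw [this, zero_mul],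
          fun _ => by rw [this, zero_mul]⟩
      · have hs' := hst n hn1 hk l hl
        rcases lt_trichotomy n s with h | h | h
        · filter_upwards [TP_B hc1 hc2 (h1 n h) hs'] with l' hl'
          exact ⟨fun _ => by rw [hl', mul_one], fun h' => by omega⟩
        · exact Eventually.of_forall fun l' => ⟨fun _ => by omega, fun _ => by omega⟩
        · filter_upwards [TP_A hc1 hc2 (h2 n h hn1) hs'] with l' hl'
          exact ⟨fun h' => by omega, fun _ => by rw [hl', mul_zero]⟩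
    have h4 := (Filter.eventually_all_finset (Finset.range (m - 1))).mpr h3
    filter_upwards [h4] with l' hl'
    have h5 : ∀ n ∈ Finset.range (m - 1), d n * TP (E n) (E (n + 1)) l' =
        (if n < s then d n else 0) +
          (if n = s then d n * TP (E n) (E (n + 1)) l' else 0) := by
      intro n hn
      obtain ⟨h6, h7⟩ := hl' n hn
      rcases lt_trichotomy n s with h | h | h
      · rw [if_pos h, if_neg h.ne, h6 h, add_zero]
      · rw [if_neg (by omega), if_pos h, zero_add]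
      · rw [if_neg (by omega), if_neg h.ne', h7 h, add_zero]
    have h6 : ∑ n ∈ Finset.range (m - 1), (if n < s then d n else 0) = kap s - kap 0 := by
      rw [← Finset.sum_filter]
      have e : (Finset.range (m - 1)).filter (fun n => n < s) = Finset.range s := by
        ext n
        simp only [Finset.mem_filter, Finset.mem_range]
        omega
      rw [e, hd, Finset.sum_range_sub]
    rw [hg]
    simp only
    rw [Finset.sum_congr rfl h5, Finset.sum_add_distrib, h6, Finset.sum_ite_eq']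
    by_cases hs1 : s + 1 < m
    · rw [if_pos hs1, if_pos (Finset.mem_range.mpr (by omega))]
      ring
    · rw [if_neg hs1, if_neg (by rw [Finset.mem_range]; omega)]
      ring
  -- first type
  have hI : ∀ l ∈ W, ∀ s < m, (∀ n < s, 0 ≤ E (n + 1) l) →
      (∀ n, s ≤ n → n + 1 < m → E n l ≤ 0) → ∀ᶠ l' in 𝓝 l, g l' = kap s := by
    intro l hl s hs h1 h2
    have h3 := hL l hl s hs h1 (fun n hn => h2 n hn.le)
    by_cases hs1 : s + 1 < m
    · by_cases hk : kap s = kap (s + 1)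
      · have : d s = 0 := by rw [hd]; simp only [hk]; ring
        filter_upwards [h3] with l' hl'
        rw [hl', this, if_pos hs1]
        ring
      · filter_upwards [h3, TP_A (hcont s (by omega) l hl) (hcont (s + 1) hs1 l hl)
          (h2 s le_rfl hs1) (hst s hs1 hk l hl)] with l' hl' h4
        rw [hl', h4, if_pos hs1]
        ring
    · filter_upwards [h3] with l' hl'
      rw [hl', if_neg hs1]
      ring
  -- second type
  have hII : ∀ l ∈ W, ∀ s, s + 1 < m → 0 < E s l → E (s + 1) l < 0 →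
      ∀ᶠ l' in 𝓝 l, g l' = kap s + d s * Psi (E s l' / (E s l' - E (s + 1) l')) := by
    intro l hl s hs h1 h2
    have h3 := hL l hl s (by omega) (fun n hn => by
      rcases Nat.lt_or_ge (n + 1) s with h | h
      · exact ((hch (n + 1) s h (by omega) l hl).1 h1.le)
      · have : n + 1 = s := by omega
        rw [this]
        exact h1.le) (fun n hn hn1 => by
      by_contra hcon
      push Not at hcon
      rcases Nat.lt_or_ge (s + 1) n with h | h
      · exact absurd ((hch (s + 1) n h (by omega) l hl).2 hcon) (not_lt.mpr h2.le)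
      · have : n = s + 1 := by omega
        rw [this] at hcon
        exact absurd hcon (not_lt.mpr h2.le))
    filter_upwards [h3, TP_C (hcont s (by omega) l hl) (hcont (s + 1) hs l hl) h1 h2] with l' h4 h5
    rw [h4, if_pos hs, h5]
  have hzero : ∀ a < m, ∀ l ∈ W, E a l = 0 → ∀ᶠ l' in 𝓝 l, g l' = kap a := by
    intro a ha l hl h0
    refine hI l hl a ha (fun n hn => ?_) (fun n hn hn1 => ?_)
    · rcases Nat.lt_or_ge (n + 1) a with h | h
      · exact (hch (n + 1) a h ha l hl).1 h0.ge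
      · have : n + 1 = a := by omega
        rw [this, h0]
    · by_contra hcon
      push Not at hcon
      rcases Nat.lt_or_ge a n with h | h
      · exact absurd ((hch a n h (by omega) l hl).2 hcon) (by rw [h0]; exact lt_irrefl _)
      · have : n = a := by omega
        rw [this, h0] at hcon
        exact lt_irrefl _ hcon
  have hfirst : ∀ l ∈ W, E 0 l < 0 → ∀ᶠ l' in 𝓝 l, g l' = kap 0 := by
    intro l hl h0
    refine hI l hl 0 hm (fun n hn => absurd hn (Nat.not_lt_zero n)) (fun n _ hn1 => ?_)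
    by_contra hcon
    push Not at hcon
    rcases Nat.eq_zero_or_pos n with h | h
    · rw [h] at hcon
      exact absurd hcon (not_lt.mpr h0.le)
    · exact absurd ((hch 0 n h (by omega) l hl).2 hcon) (not_lt.mpr h0.le)
  have hlast : ∀ l ∈ W, 0 < E (m - 1) l → ∀ᶠ l' in 𝓝 l, g l' = kap (m - 1) := by
    intro l hl h0
    refine hI l hl (m - 1) (by omega) (fun n hn => ?_) (fun n hn hn1 => by omega)
    rcases Nat.lt_or_ge (n + 1) (m - 1) with h | h
    · exact (hch (n + 1) (m - 1) h (by omega) l hl).1 h0.le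
    · have : n + 1 = m - 1 := by omega
      rw [this]
      exact h0.le
  -- the position of a point
  have hpos : ∀ l ∈ W, (∃ a < m, ∀ᶠ l' in 𝓝 l, g l' = kap a) ∨
      ∃ s, s + 1 < m ∧ kap s ≠ kap (s + 1) ∧ 0 < E s l ∧ E (s + 1) l < 0 := by
    intro l hl
    by_cases h0 : ∃ a < m, E a l = 0
    · obtain ⟨a, ha, h0⟩ := h0
      exact Or.inl ⟨a, ha, hzero a ha l hl h0⟩
    · push Not at h0
      rcases lt_or_gt_of_ne (h0 0 hm) with h1 | h1
      · exact Or.inl ⟨0, hm, hfirst l hl h1⟩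
      · rcases lt_or_gt_of_ne (h0 (m - 1) (by omega)) with h2 | h2
        · -- there is a change of sign
          have hex : ∃ n, n < m ∧ E n l < 0 := ⟨m - 1, by omega, h2⟩
          have hspec := Nat.find_spec hex
          have hmin := fun k (hk : k < Nat.find hex) => Nat.find_min hex hk
          set n := Nat.find hex with hn
          have hn0 : n ≠ 0 := by
            intro h
            rw [h] at hspec
            exact absurd hspec.2 (not_lt.mpr h1.le)
          have hn1 := hmin (n - 1) (by omega)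
          have hn2 : 0 < E (n - 1) l := by
            rcases lt_or_gt_of_ne (h0 (n - 1) (by omega)) with h3 | h3
            · exact absurd ⟨by omega, h3⟩ hn1
            · exact h3
          have en : n - 1 + 1 = n := by omega
          by_cases hk : kap (n - 1) = kap (n - 1 + 1)
          · refine Or.inl ⟨n - 1, by omega, ?_⟩
            have h4 := hII l hl (n - 1) (by omega) hn2 (by rw [en]; exact hspec.2)
            have : d (n - 1) = 0 := by rw [hd]; simp only [← hk]; ring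
            filter_upwards [h4] with l' hl'
            rw [hl', this]
            ring
          · exact Or.inr ⟨n - 1, by omega, hk, hn2, by rw [en]; exact hspec.2⟩
        · exact Or.inl ⟨m - 1, by omega, hlast l hl h2⟩
  set f : ℂ → ℂ := fun l => if l ∈ W then (g l : ℂ) else 0 with hf
  have hfg : ∀ l ∈ W, ∀ᶠ l' in 𝓝 l, f l' = (g l' : ℂ) := by
    intro l hl
    filter_upwards [hW.mem_nhds hl] with l' hl'
    rw [hf]
    simp only
    rw [if_pos hl']
  have hfc : ∀ l ∈ W, ∀ c : ℝ, (∀ᶠ l' in 𝓝 l, g l' = c) → ∀ᶠ l' in 𝓝 l, f l' = c := by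
    intro l hl c hc
    filter_upwards [hc, hfg l hl] with l' h1 h2
    rw [h2, h1]
  have hformC : ∀ l ∈ W, ∀ s, s + 1 < m → 0 < E s l → E (s + 1) l < 0 →
      ContDiffAt ℝ 1 (fun l' => ((kap s + d s * Psi (E s l' / (E s l' - E (s + 1) l')) : ℝ) : ℂ))
        l := by
    intro l hl s hs h1 h2
    have hne : E s l - E (s + 1) l ≠ 0 := by linarith
    have h3 := hEat s (by omega) l hl
    have h4 := hEat (s + 1) hs l hl
    have h5 : ContDiffAt ℝ 1 (fun l' => E s l' / (E s l' - E (s + 1) l')) l :=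
      h3.div (h3.sub h4) hne
    have h6 : ContDiffAt ℝ 1 (fun l' => Psi (E s l' / (E s l' - E (s + 1) l'))) l :=
      (Psi_contDiff.contDiffAt).comp l h5
    have h7 : ContDiffAt ℝ 1 (fun l' => kap s + d s * Psi (E s l' / (E s l' - E (s + 1) l'))) l :=
      contDiffAt_const.add (contDiffAt_const.mul h6)
    exact (Complex.ofRealCLM.contDiff.contDiffAt).comp l h7
  have hdiffAt : ∀ l ∈ W, ContDiffAt ℝ 1 f l := by
    intro l hl
    rcases hpos l hl with ⟨a, -, ha⟩ | ⟨s, hs, -, h1, h2⟩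
    · exact contDiffAt_const.congr_of_eventuallyEq (hfc l hl _ ha)
    · refine (hformC l hl s hs h1 h2).congr_of_eventuallyEq ?_
      filter_upwards [hII l hl s hs h1 h2, hfg l hl] with l' h3 h4
      rw [h4, h3]
  have hdbar0 : ∀ l, ∀ c : ℝ, (∀ᶠ l' in 𝓝 l, f l' = c) → dbar f l = 0 := by
    intro l c hc
    have h1 : fderiv ℝ f l = 0 := by
      have h2 : f =ᶠ[𝓝 l] fun _ => (c : ℂ) := hc
      rw [h2.fderiv_eq]
      exact fderiv_const_apply _
    rw [dbar, h1]
    simp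
  refine ⟨f, M * K, fun l hl => (hdiffAt l hl).contDiffWithinAt, ?_,
    fun a ha l hl h0 => hfc l hl _ (hzero a ha l hl h0), ?_,
    fun l hl h0 => hfc l hl _ (hfirst l hl h0), fun l hl h0 => hfc l hl _ (hlast l hl h0), ?_⟩
  · intro l
    by_cases hl : l ∈ W
    · have e : f l = (g l : ℂ) := by
        rw [hf]
        simp only
        rw [if_pos hl]
      refine ⟨g l, ?_, ?_, e⟩
      · rcases hpos l hl with ⟨a, ha, h⟩ | ⟨s, hs, hk, h1, h2⟩
        · rw [h.self_of_nhds]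
          rcases hkap a ha with h' | h' <;> rw [h']
          exact zero_le_one
        · rw [(hII l hl s hs h1 h2).self_of_nhds, hd]
          have p0 := Psi_nonneg (E s l / (E s l - E (s + 1) l))
          have p1 := Psi_le_one (E s l / (E s l - E (s + 1) l))
          rcases hkap s (by omega) with h | h <;> rcases hkap (s + 1) hs with h' | h' <;>
            simp only [h, h'] <;> linarith
      · rcases hpos l hl with ⟨a, ha, h⟩ | ⟨s, hs, hk, h1, h2⟩
        · rw [h.self_of_nhds]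
          rcases hkap a ha with h' | h' <;> rw [h']
          exact zero_le_one
        · rw [(hII l hl s hs h1 h2).self_of_nhds, hd]
          have p0 := Psi_nonneg (E s l / (E s l - E (s + 1) l))
          have p1 := Psi_le_one (E s l / (E s l - E (s + 1) l))
          rcases hkap s (by omega) with h | h <;> rcases hkap (s + 1) hs with h' | h' <;>
            simp only [h, h'] <;> linarith
    · refine ⟨0, le_rfl, zero_le_one, ?_⟩
      rw [hf]
      simp only
      rw [if_neg hl, ofReal_zero]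
  · intro a ha hk l hl h1 h2
    refine hfc l hl _ ?_
    have : d a = 0 := by rw [hd]; simp only [← hk]; ring
    filter_upwards [hII l hl a ha h1 h2] with l' hl'
    rw [hl', this]
    ring
  · intro l hl hne
    have hcst : ∀ c : ℝ, (c = 0 ∨ c = 1) → (∀ᶠ l' in 𝓝 l, f l' = c) → False := by
      intro c hc h
      have h1 := hdbar0 l c h
      have h2 := h.self_of_nhds
      rcases hne with h3 | h3
      · exact h3 h1
      · rcases hc with h4 | h4
        · exact h3.1 (by rw [h2, h4, ofReal_zero])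
        · exact h3.2 (by rw [h2, h4, ofReal_one])
    rcases hpos l hl with ⟨a, ha, h⟩ | ⟨s, hs, hk, h1, h2⟩
    · exact absurd (hfc l hl _ h) (fun h => hcst _ (hkap a ha) h)
    · have hD : 0 < E s l - E (s + 1) l := by linarith
      have hform : ∀ᶠ l' in 𝓝 l, f l' =
          ((kap s + d s * Psi (E s l' / (E s l' - E (s + 1) l')) : ℝ) : ℂ) := by
        filter_upwards [hII l hl s hs h1 h2, hfg l hl] with l' h3 h4
        rw [h4, h3]
      have hrc : ContinuousAt (fun l' => E s l' / (E s l' - E (s + 1) l')) l :=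
        (hcont s (by omega) l hl).div₀ ((hcont s (by omega) l hl).sub (hcont (s + 1) hs l hl)) hD.ne'
      have hr1 : 1 / 3 ≤ E s l / (E s l - E (s + 1) l) := by
        by_contra hcon
        push Not at hcon
        refine hcst (kap s) (hkap s (by omega)) ?_
        filter_upwards [hform, hrc.eventually (gt_mem_nhds hcon)] with l' h3 h4
        rw [h3, Psi_zero h4.le, mul_zero, add_zero]
      have hr2 : E s l / (E s l - E (s + 1) l) ≤ 2 / 3 := by
        by_contra hcon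
        push Not at hcon
        refine hcst (kap (s + 1)) (hkap (s + 1) hs) ?_
        filter_upwards [hform, hrc.eventually (lt_mem_nhds hcon)] with l' h3 h4
        rw [h3, Psi_one h4.le, hd]
        congr 1
        ring
      have hr1' : 1 / 3 * (E s l - E (s + 1) l) ≤ E s l := (le_div_iff₀ hD).mp hr1
      have hr2' : E s l ≤ 2 / 3 * (E s l - E (s + 1) l) := (div_le_iff₀ hD).mp hr2
      refine ⟨s, hs, hk, h1, h2, by linarith, by linarith, ?_⟩
      have hfd : DifferentiableAt ℝ f l := (hdiffAt l hl).differentiableAt (by norm_num)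
      have hbd : ∀ v : ℂ, ‖v‖ = 1 → ‖fderiv ℝ f l v‖ ≤ M * K / (E s l - E (s + 1) l) := fun v hv =>
        dir_bound hv ((hEat s (by omega) l hl).differentiableAt (by norm_num))
          ((hEat (s + 1) hs l hl).differentiableAt (by norm_num)) (hK s (by omega) l hl)
          (hK (s + 1) hs l hl) h1 h2 (hM _ ⟨hr1, hr2⟩) (hd1 s hs) hform hfd
      have hb1 := hbd 1 (by simp)
      have hb2 := hbd I (by simp)
      have hb3 : ‖fderiv ℝ f l 1 + I * fderiv ℝ f l I‖ ≤ ‖fderiv ℝ f l 1‖ + ‖fderiv ℝ f l I‖ := by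
        refine (norm_add_le _ _).trans ?_
        rw [norm_mul, norm_I, one_mul]
      rw [dbar, norm_div, Complex.norm_ofNat]
      linarith

theorem thin_fun {W : Set ℂ} (hW : IsOpen W) {m : ℕ} (hm : 0 < m) {E : Fin m → ℂ → ℝ}
    (hE : ∀ a, ContDiffOn ℝ 1 (E a) W) {K : ℝ} (hK : ∀ a, ∀ l ∈ W, ‖fderiv ℝ (E a) l‖ ≤ K)
    {kap : Fin m → ℝ} (hkap : ∀ a, kap a = 0 ∨ kap a = 1)
    (hch : ∀ a b, a < b → ∀ l ∈ W, (0 ≤ E b l → 0 ≤ E a l) ∧ (0 < E b l → 0 < E a l))
    (hst : ∀ a b : Fin m, (b : ℕ) = a + 1 → kap a ≠ kap b → ∀ l ∈ W, 0 ≤ E b l → 0 < E a l) :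
    ∃ (f : ℂ → ℂ) (C : ℝ), ContDiffOn ℝ 1 f W ∧ (∀ l, ∃ t : ℝ, 0 ≤ t ∧ t ≤ 1 ∧ f l = t) ∧
      (∀ a, ∀ l ∈ W, E a l = 0 → ∀ᶠ l' in 𝓝 l, f l' = kap a) ∧
      (∀ a b : Fin m, (b : ℕ) = a + 1 → kap a = kap b → ∀ l ∈ W, 0 < E a l → E b l < 0 →
        ∀ᶠ l' in 𝓝 l, f l' = kap a) ∧
      (∀ a : Fin m, (a : ℕ) = 0 → ∀ l ∈ W, E a l < 0 → ∀ᶠ l' in 𝓝 l, f l' = kap a) ∧
      (∀ a : Fin m, (a : ℕ) + 1 = m → ∀ l ∈ W, 0 < E a l → ∀ᶠ l' in 𝓝 l, f l' = kap a) ∧
      ∀ l ∈ W, (dbar f l ≠ 0 ∨ (f l ≠ 0 ∧ f l ≠ 1)) → ∃ a b : Fin m, (b : ℕ) = a + 1 ∧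
        kap a ≠ kap b ∧ 0 < E a l ∧ E b l < 0 ∧ E a l - E b l ≤ 4 * E a l ∧
        E a l - E b l ≤ 4 * -E b l ∧ ‖dbar f l‖ ≤ C / (E a l - E b l) := by
  classical
  let E' : ℕ → ℂ → ℝ := fun n => if h : n < m then E ⟨n, h⟩ else fun _ => 0
  let kap' : ℕ → ℝ := fun n => if h : n < m then kap ⟨n, h⟩ else 0
  have hE' : ∀ a (h : a < m), E' a = E ⟨a, h⟩ := fun a h => dif_pos h
  have hkap' : ∀ a (h : a < m), kap' a = kap ⟨a, h⟩ := fun a h => dif_pos h
  obtain ⟨f, C, h1, h2, h3, h4, h5, h6, h7⟩ := main_nat (E := E') (kap := kap') hW hm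
    (fun a ha => by rw [hE' a ha]; exact hE _)
    (K := K) (fun a ha l hl => by rw [hE' a ha]; exact hK _ l hl)
    (fun a ha => by rw [hkap' a ha]; exact hkap _)
    (fun a b hab hb l hl => by
      rw [hE' a (hab.trans hb), hE' b hb]
      exact hch _ _ (Fin.mk_lt_mk.mpr hab) l hl)
    (fun a ha hne l hl => by
      rw [hE' a (by omega), hE' (a + 1) ha]
      rw [hkap' a (by omega), hkap' (a + 1) ha] at hne
      exact hst ⟨a, by omega⟩ ⟨a + 1, ha⟩ rfl hne l hl)
  refine ⟨f, C, h1, h2, ?_, ?_, ?_, ?_, ?_⟩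
  · intro a l hl h0
    have := h3 a a.2 l hl (by rw [hE' a a.2]; exact h0)
    rwa [hkap' a a.2] at this
  · intro a b hab hk l hl ha hb
    have ha1 : (a : ℕ) + 1 < m := by have := b.2; omega
    have eb : (⟨(a : ℕ) + 1, ha1⟩ : Fin m) = b := Fin.ext hab.symm
    have := h4 a ha1 (by rw [hkap' a a.2, hkap' _ ha1, eb]; exact hk) l hl
      (by rw [hE' a a.2]; exact ha) (by rw [hE' _ ha1, eb]; exact hb)
    rwa [hkap' a a.2] at this
  · intro a ha l hl h0
    have e : a = ⟨0, hm⟩ := Fin.ext ha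
    have := h5 l hl (by rw [hE' 0 hm, ← e]; exact h0)
    rwa [hkap' 0 hm, ← e] at this
  · intro a ha l hl h0
    have hm1 : m - 1 < m := by omega
    have e : a = ⟨m - 1, hm1⟩ := Fin.ext (by simp only; omega)
    have := h6 l hl (by rw [hE' _ hm1, ← e]; exact h0)
    rwa [hkap' _ hm1, ← e] at this
  · intro l hl hne
    obtain ⟨a, ha, g1, g2, g3, g4, g5, g6⟩ := h7 l hl hne
    rw [hE' a (by omega)] at g2 g4 g5 g6
    rw [hE' (a + 1) ha] at g3 g4 g5 g6
    rw [hkap' a (by omega), hkap' (a + 1) ha] at g1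
    exact ⟨⟨a, by omega⟩, ⟨a + 1, ha⟩, rfl, g1, g2, g3, g4, g5, g6⟩

end Pool.Agent.TBirE
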