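import Pool.Agent.TBirM.Brn
import Pool.Agent.TBirM.DS

/-!
# Branches of the inverse near a regular value: definitions

`B.g j` are the branches of the inverse of `phi` near `q`, `B.L j l = log (g j l / g j q)`, so that
`g j l = g j q * exp (L j l)`, and the `j`-th branch of the curve is `(L j l).re = 0`. `B.a j` is the derivative of
`B.L j` at `q`. `B.E u j` is `± (L j l).re`, with the sign for which it increases in the direction `I * u`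
(if the branch is tangent to `u`, that is `(B.a j * u).re = 0`).
-/

set_option autoImplicit false

open MeasureTheory Complex Set Filter Topology Metric AddCircle
open scoped ComplexConjugate InnerProductSpace ENNReal
open Pool.Lib (dbar)

namespace Pool.Agent.TBirE

open Pool.Agent.TBir Pool.Agent.TBirG
open Pool.Agent.TBirM (Tri exists_branches)
open Pool.Agent.TBirS (Sg)

/-- Evaluation at `z` or, for `‖z‖ > 1`, at the reflected point. -/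
noncomputable def evr (z : ℂ) (h : Hardy) : ℂ := if ‖z‖ < 1 then ev z h else ev (conj z)⁻¹ h

/-- The branches of the inverse of `phi` near `q`. -/
structure Br (phi : ℂ → ℂ) (q : ℂ) where
  R : ℝ
  k : ℕ
  x : ℤ
  g : Fin k → ℂ → ℂ
  R_pos : 0 < R
  diff : ∀ j, DifferentiableOn ℂ (g j) (ball q R)
  norm_q : ∀ j, ‖g j q‖ = 1
  ne : ∀ i j, i ≠ j → g i q ≠ g j q
  inv : ∀ j, ∀ l ∈ ball q R, phi (g j l) = l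
  cov : ∀ z ∈ sphere (0 : ℂ) 1, phi z ∈ ball q R → ∃ j, z = g j (phi z)
  wd_eq : ∀ l ∈ ball q R, l ∉ J phi →
    wd phi l = ((x + ((Finset.univ.filter fun j => ‖g j l‖ < 1).card : ℤ) : ℤ) : ℂ)

theorem exists_Br {phi : ℂ → ℂ} (hana : AnalyticOnNhd ℂ phi (sphere 0 1)) (hNC : NC phi)
    {q : ℂ} (hq : ∀ z ∈ sphere (0 : ℂ) 1, phi z = q → deriv phi z ≠ 0) : Nonempty (Br phi q) := by
  obtain ⟨R, k, x, g, h1, h2, h3, h4, h5, h6, h7⟩ := exists_branches hana hNC hq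
  exact ⟨⟨R, k, x, g, h1, h2, h3, h4, h5, h6, h7⟩⟩

/-- The logarithm of the branch. -/
noncomputable def Br.L {phi : ℂ → ℂ} {q : ℂ} (B : Br phi q) (j : Fin B.k) (l : ℂ) : ℂ :=
  Complex.log (B.g j l / B.g j q)

/-- The derivative of `B.L j` at `q`. -/
noncomputable def Br.a {phi : ℂ → ℂ} {q : ℂ} (B : Br phi q) (j : Fin B.k) : ℂ :=
  deriv (B.g j) q / B.g j q

/-- The oriented real part. -/
noncomputable def Br.E {phi : ℂ → ℂ} {q : ℂ} (B : Br phi q) (u : ℂ) (j : Fin B.k) (l : ℂ) : ℝ :=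
  if (B.a j * u).im < 0 then (B.L j l).re else -(B.L j l).re

/-- Two branches tangent to `u` coincide in `W`. -/
def Br.Tie {phi : ℂ → ℂ} {q : ℂ} (B : Br phi q) (u : ℂ) (W : Set ℂ) (i j : Fin B.k) : Prop :=
  ∀ l ∈ W, (B.E u i l = 0 ↔ B.E u j l = 0) ∧ (0 < B.E u i l ↔ 0 < B.E u j l)

/-- Branch `i` is below branch `j` in `W`, contact of order `p - 1`. -/
def Br.Below {phi : ℂ → ℂ} {q : ℂ} (B : Br phi q) (u : ℂ) (W : Set ℂ) (i j : Fin B.k) : Prop :=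
  (∀ l ∈ W, 0 ≤ B.E u j l → 0 < B.E u i l) ∧ ∃ (p : ℕ) (c C : ℝ), 2 ≤ p ∧ 0 < c ∧ 0 < C ∧
    (∀ l ∈ W, B.E u i l = 0 → c * ‖l - q‖ ^ p ≤ -B.E u j l ∧ -B.E u j l ≤ C * ‖l - q‖ ^ p) ∧
    ∀ l ∈ W, B.E u j l = 0 → c * ‖l - q‖ ^ p ≤ B.E u i l ∧ B.E u i l ≤ C * ‖l - q‖ ^ p

/-- The estimates in the thin triangle `Tri q u eta rho` (see TBirE/Tg). -/
def Br.TG {phi : ℂ → ℂ} {q : ℂ} (B : Br phi q) (u : ℂ) (eta rho kap K : ℝ) : Prop :=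
  0 < eta ∧ eta ≤ 1 ∧ 0 < rho ∧ 0 < kap ∧ 0 < K ∧
  (∀ j, (B.a j * u).re ≠ 0 → (∀ l ∈ Tri q u eta rho, kap * ‖l - q‖ ≤ (B.L j l).re) ∨
    ∀ l ∈ Tri q u eta rho, (B.L j l).re ≤ -(kap * ‖l - q‖)) ∧
  ∀ j, (B.a j * u).re = 0 → ∀ l ∈ Tri q u eta rho,
    kap ≤ fderiv ℝ (B.E u j) l (I * u) ∧ ‖fderiv ℝ (B.E u j) l‖ ≤ K ∧
    kap * ‖l - q‖ ≤ |(B.L j l).im| ∧ |(B.L j l).im| ≤ K * ‖l - q‖ ∧
    0 < (B.L j l).im * (B.a j * u).im ∧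
    (eta / 2 * ((l - q) * conj u).re ≤ ((l - q) * conj u).im → 0 < B.E u j l) ∧
    (((l - q) * conj u).im ≤ -(eta / 2 * ((l - q) * conj u).re) → B.E u j l < 0)

/-- The middle part of the gap between the branches `i` and `j`. -/
def Br.D {phi : ℂ → ℂ} {q : ℂ} (B : Br phi q) (u : ℂ) (W : Set ℂ) (i j : Fin B.k) : Set ℂ :=
  {l | l ∈ W ∧ 0 < B.E u i l ∧ B.E u j l < 0 ∧ B.E u i l - B.E u j l ≤ 4 * B.E u i l ∧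
    B.E u i l - B.E u j l ≤ 4 * -B.E u j l}

/-- A cutoff function in a thin triangle around the direction `u`. -/
def DSol {phi : ℂ → ℂ} {q : ℂ} (B : Br phi q) (U1 U2 : Set ℂ) (u : ℂ) : Prop :=
  ∃ (eta rho : ℝ) (f : ℂ → ℂ) (c : ℝ) (p : ℕ), 0 < eta ∧ 0 < rho ∧ 0 < c ∧
    ContDiffOn ℝ 1 f (Tri q u eta rho) ∧ (∀ l, ∃ t : ℝ, 0 ≤ t ∧ t ≤ 1 ∧ f l = t) ∧
    (∀ l ∈ Tri q u eta rho, l ∈ Sg phi → l ∈ U1 → ∀ᶠ l' in 𝓝 l, f l' = 1) ∧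
    (∀ l ∈ Tri q u eta rho, l ∈ Sg phi → l ∈ U2 → ∀ᶠ l' in 𝓝 l, f l' = 0) ∧
    (∀ l ∈ Tri q u eta rho, (dbar f l ≠ 0 ∨ (f l ≠ 0 ∧ f l ≠ 1)) →
      ∀ j, c * ‖l - q‖ ^ p ≤ |(B.L j l).re|) ∧
    ∫⁻ l in Tri q u eta rho, ‖dbar f l‖ₑ < ⊤ ∧
    ∀ j, ∃ K : ℝ, ∀ h : Hardy, ∫⁻ l in Tri q u eta rho, ‖dbar f l‖ₑ * ‖evr (B.g j l) h‖ₑ ^ 2 ≤
      ENNReal.ofReal (K * ‖h‖ ^ 2)

/-- A cutoff function near `q`. -/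
def GSol {phi : ℂ → ℂ} {q : ℂ} (B : Br phi q) (U1 U2 : Set ℂ) : Prop :=
  ∃ (R : ℝ) (f : ℂ → ℂ) (c : ℝ) (p : ℕ), 0 < R ∧ 0 < c ∧
    ContDiffOn ℝ 1 f {q}ᶜ ∧ (∀ l, ∃ t : ℝ, 0 ≤ t ∧ t ≤ 1 ∧ f l = t) ∧
    (∀ l ∈ ball q R, l ≠ q → l ∈ Sg phi → l ∈ U1 → ∀ᶠ l' in 𝓝 l, f l' = 1) ∧
    (∀ l ∈ ball q R, l ≠ q → l ∈ Sg phi → l ∈ U2 → ∀ᶠ l' in 𝓝 l, f l' = 0) ∧
    (∀ l ∈ ball q R, l ≠ q → (dbar f l ≠ 0 ∨ (f l ≠ 0 ∧ f l ≠ 1)) →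
      ∀ j, c * ‖l - q‖ ^ p ≤ |(B.L j l).re|) ∧
    ∫⁻ l in ball q R, ‖dbar f l‖ₑ < ⊤ ∧
    ∀ j, ∃ K : ℝ, ∀ h : Hardy, ∫⁻ l in ball q R, ‖dbar f l‖ₑ * ‖evr (B.g j l) h‖ₑ ^ 2 ≤
      ENNReal.ofReal (K * ‖h‖ ^ 2)

/-- The local input of the splitting theorem at `q`. -/
def LocE (phi : ℂ → ℂ) (Phi : CT) (U1 U2 : Set ℂ) (q : ℂ) : Prop :=
  ∃ (R : ℝ) (f : ℂ → ℂ) (c : ℝ) (p : ℕ), 0 < R ∧ 0 < c ∧
    ContDiffOn ℝ 1 f {q}ᶜ ∧ (∀ l, ∃ t : ℝ, 0 ≤ t ∧ t ≤ 1 ∧ f l = t) ∧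
    (∀ l ∈ ball q R, l ≠ q → l ∈ Sg phi → l ∈ U1 → ∀ᶠ l' in 𝓝 l, f l' = 1) ∧
    (∀ l ∈ ball q R, l ≠ q → l ∈ Sg phi → l ∈ U2 → ∀ᶠ l' in 𝓝 l, f l' = 0) ∧
    (∀ l ∈ ball q R, l ≠ q → (dbar f l ≠ 0 ∨ (f l ≠ 0 ∧ f l ≠ 1)) →
      ∀ l' ∈ Sg phi, c * ‖l - q‖ ^ p ≤ ‖l' - l‖) ∧
    ∫⁻ l in ball q R, ‖dbar f l‖ₑ < ⊤ ∧
    ∃ C : ℝ, ∀ f' g' : Hardy, ∫⁻ l in ball q R, ‖dbar f l‖ₑ *
      ‖inner ℂ g' ((resolvent (T Phi) l - T (resolvent Phi l)) f')‖ₑ ≤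
        ENNReal.ofReal (C * ‖f'‖ * ‖g'‖)

end Pool.Agent.TBirE
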