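import Pool.Agent.TBirE.FinE
import Pool.Agent.TBirM.Crit

/-!
# The splitting theorem and the criterion for winding numbers -1, 0, 1, any contacts
-/

set_option autoImplicit false

open MeasureTheory Complex Set Filter Topology Metric AddCircle
open scoped ComplexConjugate InnerProductSpace ENNReal

namespace Pool.Agent.TBirE

open Pool.Agent.TBir Pool.Agent.TBirG
open Pool.Agent.TBirS (Sg isCompact_Sg)
open Pool.Agent.TBirM (crit_gen)

/-- If the spectrum without finitely many regular values is disconnected, the operator is not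
completely irreducible. -/
theorem main_disc {phi : ℂ → ℂ} (hphi : AnalyticOnNhd ℂ phi (sphere 0 1)) {Q : Set ℂ}
    (hQ : Q.Finite) (hq : ∀ z ∈ sphere (0 : ℂ) 1, phi z ∈ Q → deriv phi z ≠ 0)
    (hdisc : ¬ IsPreconnected (Sg phi \ Q)) : ¬ BIR H2 (IsToeplitz phi) := by
  rw [IsPreconnected] at hdisc
  push Not at hdisc
  obtain ⟨u, v, hu, hv, hS, ⟨a, ha, hau⟩, ⟨b, hb, hbv⟩, he⟩ := hdisc
  have hSc : IsClosed (Sg phi) := (isCompact_Sg hphi).isClosed
  have hmem : ∀ x ∈ Sg phi \ Q, x ∈ u → x ∈ v → False := fun x hx h1 h2 => by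
    have : x ∈ (Sg phi \ Q) ∩ (u ∩ v) := ⟨hx, h1, h2⟩
    rw [he] at this
    exact this
  obtain ⟨A, hA⟩ : ∃ A : Set ℂ, A = closure ((Sg phi \ Q) ∩ u) ∪ (Sg phi ∩ Q) := ⟨_, rfl⟩
  obtain ⟨B, hB⟩ : ∃ B : Set ℂ, B = closure ((Sg phi \ Q) ∩ v) := ⟨_, rfl⟩
  have cA : IsClosed A := by
    rw [hA]
    exact isClosed_closure.union (hQ.subset inter_subset_right).isClosed
  have cB : IsClosed B := by rw [hB]; exact isClosed_closure
  have sA : A ⊆ Sg phi := by
    rw [hA]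
    exact union_subset (closure_minimal (fun x hx => hx.1.1) hSc) inter_subset_left
  have sB : B ⊆ Sg phi := by
    rw [hB]
    exact closure_minimal (fun x hx => hx.1.1) hSc
  have hU : A ∪ B = Sg phi := by
    refine Subset.antisymm (union_subset sA sB) fun x hx => ?_
    by_cases hxQ : x ∈ Q
    · left
      rw [hA]
      exact Or.inr ⟨hx, hxQ⟩
    · rcases hS ⟨hx, hxQ⟩ with h | h
      · left
        rw [hA]
        exact Or.inl (subset_closure ⟨⟨hx, hxQ⟩, h⟩)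
      · right
        rw [hB]
        exact subset_closure ⟨⟨hx, hxQ⟩, h⟩
  have nA : ∀ x ∈ Sg phi \ Q, x ∈ u → x ∉ B := by
    intro x hx hxu hxB
    rw [hB] at hxB
    obtain ⟨y, hy, hy'⟩ := _root_.mem_closure_iff.1 hxB u hu hxu
    exact hmem y hy'.1 hy hy'.2
  have nB : ∀ x ∈ Sg phi \ Q, x ∈ v → x ∉ A := by
    intro x hx hxv hxA
    rw [hA] at hxA
    rcases hxA with h | h
    · obtain ⟨y, hy, hy'⟩ := _root_.mem_closure_iff.1 h v hv hxv
      exact hmem y hy'.1 hy'.2 hy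
    · exact hx.2 h.2
  have hAB : A ∩ B ⊆ Q := by
    rintro x ⟨hxA, hxB⟩
    by_contra hxQ
    rcases hS ⟨sA hxA, hxQ⟩ with h | h
    · exact nA x ⟨sA hxA, hxQ⟩ h hxB
    · exact nB x ⟨sA hxA, hxQ⟩ h hxA
  refine main_closed hphi cA cB hU (hQ.subset hAB) ?_ ?_ fun q hqQ z hz hzq => hq z hz ?_
  · intro h
    refine nA a ha hau (h ?_)
    rw [hA]
    exact Or.inl (subset_closure ⟨ha, hau⟩)
  · intro h
    refine nB b hb hbv (h ?_)
    rw [hB]
    exact subset_closure ⟨hb, hbv⟩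
  · rw [hzq]
    exact hAB hqQ

theorem crit_reg {phi : ℂ → ℂ} (hana : AnalyticOnNhd ℂ phi (sphere 0 1)) {E : Set ℂ}
    (hE : E.Finite) (hinj : InjOn phi (sphere 0 1 \ E))
    (hwd : ∀ l, l ∉ J phi → wd phi l = 0 ∨ wd phi l = 1 ∨ wd phi l = -1)
    (hloc : ∀ z ∈ sphere (0 : ℂ) 1, deriv phi z = 0 →
      ∃ A ⊆ {l | l ∉ J phi ∧ wd phi l ≠ 0}, IsPreconnected A ∧
      ∀ᶠ l in 𝓝 (phi z), l ∈ {l | l ∉ J phi ∧ wd phi l ≠ 0} → l ∈ A) :
    BIR H2 (IsToeplitz phi) ↔ IsPreconnected {l | l ∉ J phi ∧ wd phi l ≠ 0} := by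
  refine crit_gen hana hE hinj hwd
    (R := fun q => ∀ z ∈ sphere (0 : ℂ) 1, phi z = q → deriv phi z ≠ 0)
    (fun _ _ hA hB hAB hQ hA' hB' hq => main_closed hana hA hB hAB hQ hA' hB' hq) fun q => ?_
  by_cases h : ∀ z ∈ sphere (0 : ℂ) 1, phi z = q → deriv phi z ≠ 0
  · exact Or.inl h
  · right
    push Not at h
    obtain ⟨z, hz, rfl, h0⟩ := h
    exact hloc z hz h0

theorem exists_toeplitz {phi : ℂ → ℂ} (hphi : AnalyticOnNhd ℂ phi (sphere 0 1)) :
    ∀ f ∈ H2, ∃! g, IsToeplitz phi f g := by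
  have hc : Continuous fun x : UnitAddCircle => phi (e x) := by
    refine hphi.continuousOn.comp_continuous continuous_e fun x => ?_
    rw [mem_sphere_zero_iff_norm]
    exact norm_e x
  obtain ⟨Phi, hPhi⟩ : ∃ Phi : CT, ∀ x, Phi x = phi (e x) := ⟨⟨_, hc⟩, fun _ => rfl⟩
  intro f hf
  obtain ⟨f', rfl⟩ := exists_incl hf
  exact ⟨_, isToeplitz_incl hPhi f', fun g hg => isToeplitz_unique hg (isToeplitz_incl hPhi f')⟩

end Pool.Agent.TBirE
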