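import Pool.Agent.TBirE.Loc

/-!
# Order of contact of two branches

Paper proof. Let `r, K` be from `Br.bas`, `z = g i q`. For complex `y` near `0` let `H y = L j (phi (z * exp (y I)))`;
analytic near `0`, `H 0 = 0`, `deriv H 0 = a j * deriv phi z * z * I = (a j / a i) * I` (`deriv phi z * deriv (g i) q = 1`).
Let `K y = (H y + conj (H (conj y))) / 2`, analytic near `0` (`AnalyticAt` of `conj ∘ H ∘ conj`; in Mathlib:
`DifferentiableAt.conj_conj` or `HasDerivAt.conj_conj`), with `K y = (H y).re` for real `y`. If `K` vanishes near `0`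
we are in the first case. Otherwise `K y = y ^ p * v y`, `v` analytic, `v 0 ≠ 0`
(`AnalyticAt.exists_eventuallyEq_pow_smul_nonzero_iff`); `v y` is real for real `y ≠ 0`, so `b = v 0` is real, and
`|K y - b y ^ p| ≤ C |y| ^ (p + 1)`. `1 ≤ p` as `K 0 = 0`. If `(a j * conj (a i)).im = 0` then `a j / a i` is real,
`deriv K 0 = Re ((a j / a i) I) = 0`, so `2 ≤ p`.
-/

set_option autoImplicit false

open MeasureTheory Complex Set Filter Topology Metric AddCircle
open scoped ComplexConjugate InnerProductSpace ENNReal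

namespace Pool.Agent.TBirE

open Pool.Agent.TBir Pool.Agent.TBirG

private theorem re_expand {H : ℂ → ℂ} (hH : AnalyticAt ℂ H 0) (h0 : (H 0).re = 0) :
    (∀ᶠ y : ℝ in 𝓝 0, (H y).re = 0) ∨
    ∃ (p : ℕ) (b C y0 : ℝ), 1 ≤ p ∧ b ≠ 0 ∧ 0 < y0 ∧ ((deriv H 0).re = 0 → 2 ≤ p) ∧
      ∀ y : ℝ, |y| < y0 → |(H y).re - b * y ^ p| ≤ C * |y| ^ (p + 1) := by
  have hconj : Tendsto (fun w : ℂ => conj w) (𝓝 0) (𝓝 0) := by
    have h1 := Complex.continuous_conj.tendsto 0
    rwa [map_zero] at h1
  have hofR : Tendsto (fun y : ℝ => (y : ℂ)) (𝓝 0) (𝓝 0) := by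
    have h1 := Complex.continuous_ofReal.tendsto 0
    rwa [Complex.ofReal_zero] at h1
  obtain ⟨K, hKdef⟩ : ∃ K : ℂ → ℂ, K = fun y => (H y + conj (H (conj y))) * 2⁻¹ := ⟨_, rfl⟩
  have hKa : AnalyticAt ℂ K 0 := by
    have h1 : AnalyticAt ℂ (conj ∘ H ∘ conj) 0 := by
      rw [Complex.analyticAt_iff_eventually_differentiableAt]
      have h2 := Complex.analyticAt_iff_eventually_differentiableAt.1 hH
      filter_upwards [hconj.eventually h2] with w hw
      exact differentiableAt_conj_conj_iff.2 hw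
    rw [hKdef]
    exact (hH.add h1).mul analyticAt_const
  have hKr : ∀ y : ℝ, K y = ((H y).re : ℂ) := by
    intro y
    rw [hKdef]
    simp only [Complex.conj_ofReal]
    rw [Complex.add_conj]
    push_cast
    ring
  by_cases hz : ∀ᶠ w in 𝓝 0, K w = 0
  · left
    filter_upwards [hofR.eventually hz] with y hy
    rw [hKr] at hy
    exact_mod_cast hy
  right
  obtain ⟨p, v, hv, hv0, hev⟩ := hKa.exists_eventuallyEq_pow_smul_nonzero_iff.2 hz
  simp only [sub_zero, smul_eq_mul] at hev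
  have hK0 : K 0 = 0 := by
    have h1 := hKr 0
    rw [Complex.ofReal_zero, h0, Complex.ofReal_zero] at h1
    exact h1
  have hp1 : 1 ≤ p := by
    by_contra h
    have h1 : p = 0 := by omega
    have h2 := hev.self_of_nhds
    rw [hK0, h1, pow_zero, one_mul] at h2
    exact hv0 h2.symm
  have hevR : ∀ᶠ y : ℝ in 𝓝 0, ((H y).re : ℂ) = (y : ℂ) ^ p * v y := by
    filter_upwards [hofR.eventually hev] with y hy
    rw [← hKr, hy]
  have him : (v 0).im = 0 := by
    have t0 : Tendsto (fun y : ℝ => (v (y : ℂ)).im) (𝓝 0) (𝓝 (v 0).im) :=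
      (Complex.continuous_im.tendsto _).comp (hv.continuousAt.tendsto.comp hofR)
    have t1 : Tendsto (fun y : ℝ => (v (y : ℂ)).im) (𝓝[≠] 0) (𝓝 (v 0).im) :=
      t0.mono_left nhdsWithin_le_nhds
    have t2 : (fun y : ℝ => (v (y : ℂ)).im) =ᶠ[𝓝[≠] 0] fun _ => 0 := by
      filter_upwards [hevR.filter_mono nhdsWithin_le_nhds, self_mem_nhdsWithin] with y hy hy0
      have h1 := congrArg Complex.im hy
      rw [Complex.ofReal_im, ← Complex.ofReal_pow, Complex.im_ofReal_mul] at h1
      have h2 : y ^ p ≠ 0 := pow_ne_zero _ hy0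
      exact (mul_eq_zero.1 h1.symm).resolve_left h2
    exact tendsto_nhds_unique t1 (tendsto_const_nhds.congr' t2.symm)
  have hb : v 0 = (((v 0).re : ℝ) : ℂ) := Complex.ext (by simp) (by simp [him])
  have hb0 : (v 0).re ≠ 0 := by
    intro h
    rw [h, Complex.ofReal_zero] at hb
    exact hv0 hb
  obtain ⟨C, -, hC'⟩ := hv.differentiableAt.hasDerivAt.isBigO_sub.exists_pos
  rw [Asymptotics.isBigOWith_iff] at hC'
  have hCR : ∀ᶠ y : ℝ in 𝓝 0, ‖v y - v 0‖ ≤ C * |y| := by
    filter_upwards [hofR.eventually hC'] with y hy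
    rw [sub_zero, Complex.norm_real, Real.norm_eq_abs] at hy
    exact hy
  obtain ⟨y0, hy0, hball⟩ := Metric.eventually_nhds_iff_ball.1 (hevR.and hCR)
  refine ⟨p, (v 0).re, C, y0, hp1, hb0, hy0, ?_, ?_⟩
  · intro hd
    by_contra hlt
    have hp : p = 1 := by omega
    have d1 : HasDerivAt (fun y : ℝ => (H y).re) (deriv H 0).re 0 := by
      have h1 : HasDerivAt H (deriv H 0) ((0 : ℝ) : ℂ) := by
        rw [Complex.ofReal_zero]
        exact hH.differentiableAt.hasDerivAt
      exact h1.real_of_complex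
    have d2 : HasDerivAt (fun y : ℝ => (H y).re) (v 0).re 0 := by
      have e1 : HasDerivAt (fun w : ℂ => w * v w) (v 0) ((0 : ℝ) : ℂ) := by
        rw [Complex.ofReal_zero]
        have e0 : HasDerivAt (fun w : ℂ => w * v w) (1 * v 0 + 0 * deriv v 0) 0 :=
          (hasDerivAt_id' (0 : ℂ)).mul hv.differentiableAt.hasDerivAt
        rwa [one_mul, zero_mul, add_zero] at e0
      refine e1.real_of_complex.congr_of_eventuallyEq ?_
      filter_upwards [hevR] with y hy
      rw [hp, pow_one] at hy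
      have h1 := congrArg Complex.re hy
      rwa [Complex.ofReal_re] at h1
    have h3 := d1.unique d2
    rw [hd] at h3
    exact hb0 h3.symm
  · intro y hy
    obtain ⟨e1, e2⟩ := hball y (by rwa [mem_ball, dist_zero_right, Real.norm_eq_abs])
    have h1 : (((H y).re - (v 0).re * y ^ p : ℝ) : ℂ) = (y : ℂ) ^ p * (v y - v 0) := by
      rw [Complex.ofReal_sub, e1, Complex.ofReal_mul, ← hb, Complex.ofReal_pow]
      ring
    have h2 : |(H y).re - (v 0).re * y ^ p| = |y| ^ p * ‖v y - v 0‖ := by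
      rw [← Real.norm_eq_abs, ← Complex.norm_real, h1, norm_mul, norm_pow, Complex.norm_real,
        Real.norm_eq_abs]
    rw [h2]
    calc |y| ^ p * ‖v y - v 0‖ ≤ |y| ^ p * (C * |y|) :=
          mul_le_mul_of_nonneg_left e2 (by positivity)
      _ = C * |y| ^ (p + 1) := by ring

theorem contact {phi : ℂ → ℂ} (hana : AnalyticOnNhd ℂ phi (sphere 0 1)) {q : ℂ} (B : Br phi q)
    (i j : Fin B.k) :
    (∀ᶠ y : ℝ in 𝓝 0, (B.L j (phi (B.g i q * Complex.exp (y * I)))).re = 0) ∨
    ∃ (p : ℕ) (b C y0 : ℝ), 1 ≤ p ∧ b ≠ 0 ∧ 0 < y0 ∧ ((B.a j * conj (B.a i)).im = 0 → 2 ≤ p) ∧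
      ∀ y : ℝ, |y| < y0 →
        |(B.L j (phi (B.g i q * Complex.exp (y * I)))).re - b * y ^ p| ≤ C * |y| ^ (p + 1) := by
  obtain ⟨hane, r, K, hr, hrR, hr1, hK, hbas⟩ := B.bas hana
  obtain ⟨hLan, hLq, -, hest⟩ := hbas j
  have hqR : q ∈ ball q B.R := mem_ball_self B.R_pos
  have hqr : q ∈ ball q r := mem_ball_self hr
  have hz0 : B.g i q ≠ 0 := by
    intro h
    have h1 := B.norm_q i
    rw [h, norm_zero] at h1
    exact zero_ne_one h1
  have hphiz : phi (B.g i q) = q := B.inv i q hqR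
  have hphian : AnalyticAt ℂ phi (B.g i q) :=
    hana _ (by rw [mem_sphere_zero_iff_norm]; exact B.norm_q i)
  have hgan : AnalyticAt ℂ (B.g i) q := (B.diff i).analyticAt (ball_mem_nhds q B.R_pos)
  have hchain : deriv phi (B.g i q) * deriv (B.g i) q = 1 := by
    have h1 : HasDerivAt (fun l => phi (B.g i l)) (deriv phi (B.g i q) * deriv (B.g i) q) q :=
      hphian.differentiableAt.hasDerivAt.comp q hgan.differentiableAt.hasDerivAt
    have h2 : HasDerivAt (fun l => phi (B.g i l)) 1 q := by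
      refine (hasDerivAt_id q).congr_of_eventuallyEq ?_
      filter_upwards [ball_mem_nhds q B.R_pos] with l hl
      exact B.inv i l hl
    exact h1.unique h2
  have hdL : deriv (B.L j) q = B.a j := by
    obtain ⟨-, -, -, -, -, h1, -⟩ := hest q hqr
    rw [sub_self, norm_zero, mul_zero] at h1
    exact sub_eq_zero.1 (norm_eq_zero.1 (le_antisymm h1 (norm_nonneg _)))
  obtain ⟨H, hHdef⟩ : ∃ H : ℂ → ℂ, H = fun y => B.L j (phi (B.g i q * Complex.exp (y * I))) :=
    ⟨_, rfl⟩
  have hin0 : B.g i q * Complex.exp (0 * I) = B.g i q := by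
    rw [zero_mul, Complex.exp_zero, mul_one]
  have hinan : AnalyticAt ℂ (fun y : ℂ => B.g i q * Complex.exp (y * I)) 0 :=
    analyticAt_const.mul ((analyticAt_id.mul analyticAt_const).cexp)
  have hpin : AnalyticAt ℂ (fun y : ℂ => phi (B.g i q * Complex.exp (y * I))) 0 := by
    refine AnalyticAt.fun_comp ?_ hinan
    rw [hin0]
    exact hphian
  have hHan : AnalyticAt ℂ H 0 := by
    rw [hHdef]
    refine AnalyticAt.fun_comp ?_ hpin
    rw [hin0, hphiz]
    exact hLan q hqr
  have hH0 : H 0 = 0 := by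
    rw [hHdef]
    change B.L j (phi (B.g i q * Complex.exp (0 * I))) = 0
    rw [hin0, hphiz, hLq]
  have hHd : deriv H 0 = B.a j / B.a i * I := by
    have h1 : HasDerivAt (fun y : ℂ => B.g i q * Complex.exp (y * I)) (B.g i q * I) 0 := by
      have h2 := (((hasDerivAt_id (0 : ℂ)).mul_const I).cexp).const_mul (B.g i q)
      simpa using h2
    have h3 : HasDerivAt phi (deriv phi (B.g i q)) (B.g i q * Complex.exp (0 * I)) := by
      rw [hin0]
      exact hphian.differentiableAt.hasDerivAt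
    have h4 : HasDerivAt (fun y : ℂ => phi (B.g i q * Complex.exp (y * I)))
        (deriv phi (B.g i q) * (B.g i q * I)) 0 := h3.comp (0 : ℂ) h1
    have h5 : HasDerivAt (B.L j) (B.a j) (phi (B.g i q * Complex.exp (0 * I))) := by
      rw [hin0, hphiz, ← hdL]
      exact (hLan q hqr).differentiableAt.hasDerivAt
    have h6 : HasDerivAt H (B.a j * (deriv phi (B.g i q) * (B.g i q * I))) 0 := by
      rw [hHdef]
      have h9 := HasDerivAt.comp (h₂ := B.L j) (0 : ℂ) h5 h4
      exact h9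
    rw [h6.deriv]
    have h7 : deriv (B.g i) q ≠ 0 := right_ne_zero_of_mul_eq_one hchain
    have h8 : deriv phi (B.g i q) = (deriv (B.g i) q)⁻¹ := eq_inv_of_mul_eq_one_left hchain
    rw [h8]
    unfold Br.a
    field_simp
  have hre0 : (H 0).re = 0 := by rw [hH0]; rfl
  have key := re_expand hHan hre0
  rw [hHdef] at key
  rcases key with h | ⟨p, b, C, y0, h1, h2, h3, h4, h5⟩
  · exact Or.inl h
  · refine Or.inr ⟨p, b, C, y0, h1, h2, h3, fun h6 => h4 ?_, h5⟩
    rw [← hHdef, hHd]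
    have h7 : (B.a j / B.a i).im = 0 := by
      rw [Complex.div_im]
      rw [Complex.mul_im, Complex.conj_re, Complex.conj_im] at h6
      rw [← sub_div]
      have h8 : (B.a j).im * (B.a i).re - (B.a j).re * (B.a i).im = 0 := by linarith
      rw [h8, zero_div]
    rw [Complex.mul_re, h7]
    simp

end Pool.Agent.TBirE
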