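import Pool.Agent.TBirE.Bas
import Pool.Agent.TBirM.Main

/-!
# The cutoff function, general version

`exists_cutE`: exactly the proof of `exists_cutM` in TBirM/Cut.lean (near `q ∈ Q` the function is that of `LocE`).
Take `c` the minimum of the `c` of the points, `p` the maximum of the `p` (`‖l - q‖ ≤ 1` on the ball, choose `R ≤ 1`).
`int`: near `q` by `LocE`; away from `Q` `dbar chi` is continuous with compact support (as `CutM.integrable_dbar` in
TBirM/Conv.lean). `Form`: on a small ball around `q` `dbar chi = dbar f`.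
-/

set_option autoImplicit false

open MeasureTheory Complex Set Filter Topology Metric AddCircle
open scoped ComplexConjugate InnerProductSpace ENNReal
open Pool.Lib (dbar)

namespace Pool.Agent.TBirE

open Pool.Agent.TBir Pool.Agent.TBirG
open Pool.Agent.TBirS (Sg)

/-- The cutoff function. -/
structure CutE (phi : ℂ → ℂ) (U1 U2 : Set ℂ) where
  Q : Finset ℂ
  chi : ℂ → ℂ
  rho : ℝ
  c : ℝ
  p : ℕ
  rho_pos : 0 < rho
  c_pos : 0 < c
  norm_le : ∀ l, ‖chi l‖ ≤ 1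
  smooth : ContDiffOn ℝ 1 chi ((Q : Set ℂ)ᶜ)
  cpt : HasCompactSupport chi
  one : ∀ l ∈ Sg phi, l ∈ U1 → l ∉ Q → ∀ᶠ l' in 𝓝 l, chi l' = 1
  zero : ∀ l ∈ Sg phi, l ∈ U2 → l ∉ Q → ∀ᶠ l' in 𝓝 l, chi l' = 0
  cov : ∀ l ∈ Sg phi, l ∉ Q → l ∈ U1 ∨ l ∈ U2
  int : Integrable (dbar chi)
  loc : ∀ q, q ∈ Q → ∀ l ∈ ball q rho, l ≠ q → (dbar chi l ≠ 0 ∨ (chi l ≠ 0 ∧ chi l ≠ 1)) →
    ∀ l' ∈ Sg phi, c * ‖l - q‖ ^ p ≤ ‖l' - l‖

/-- The bound of the form near the points of `Q`. -/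
def CutE.Form {phi : ℂ → ℂ} {U1 U2 : Set ℂ} (K : CutE phi U1 U2) (Phi : CT) : Prop :=
  ∀ q ∈ K.Q, ∃ C s : ℝ, 0 < s ∧ ∀ f g : Hardy, ∫⁻ l in ball q s, ‖dbar K.chi l‖ₑ *
    ‖inner ℂ g ((resolvent (T Phi) l - T (resolvent Phi l)) f)‖ₑ ≤
      ENNReal.ofReal (C * ‖f‖ * ‖g‖)

private theorem cutx_smooth {A B : Set ℂ} (hA : IsCompact A) (hB : IsClosed B)
    (hAB : Disjoint A B) : ∃ g : ℂ → ℝ, ContDiff ℝ 1 g ∧ HasCompactSupport g ∧
      (∀ l, 0 ≤ g l ∧ g l ≤ 1) ∧ (∀ l ∈ A, ∀ᶠ l' in 𝓝 l, g l' = 1) ∧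
      (∀ l ∈ B, ∀ᶠ l' in 𝓝 l, g l' = 0) := by
  obtain ⟨L, hL, hAL, hLB⟩ := exists_compact_between hA hB.isOpen_compl
    (subset_compl_iff_disjoint_right.2 hAB)
  obtain ⟨f, f1, f0, hf⟩ := exists_contMDiffMap_one_nhds_of_subset_interior
    (modelWithCornersSelf ℝ ℂ) (n := 1) hA.isClosed hAL
  refine ⟨f, f.contMDiff.contDiff, HasCompactSupport.intro hL f0, fun l => hf l, ?_, ?_⟩
  · intro l hl
    exact (eventually_nhdsSet_iff_forall.1 f1) l hl
  · intro l hl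
    have : Lᶜ ∈ 𝓝 l := hL.isClosed.isOpen_compl.mem_nhds (fun h => hLB h hl)
    filter_upwards [this] with l' hl'
    exact f0 l' hl'

private theorem cutx_cont {chi : ℂ → ℂ} {Qf : Finset ℂ}
    (hs : ContDiffOn ℝ 1 chi ((Qf : Set ℂ)ᶜ)) : ContinuousOn (dbar chi) ((Qf : Set ℂ)ᶜ) := by
  have h1 : ContinuousOn (fderiv ℝ chi) ((Qf : Set ℂ)ᶜ) :=
    hs.continuousOn_fderiv_of_isOpen Qf.finite_toSet.isClosed.isOpen_compl le_rfl
  unfold dbar
  exact ((h1.clm_apply continuousOn_const).add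
    (continuousOn_const.mul (h1.clm_apply continuousOn_const))).div_const 2

private theorem cutx_int {chi : ℂ → ℂ} {Qf : Finset ℂ} {R : ℝ} (hR : 0 < R)
    (hs : ContDiffOn ℝ 1 chi ((Qf : Set ℂ)ᶜ)) (hc : HasCompactSupport chi)
    (hq : ∀ q ∈ Qf, ∫⁻ l in ball q R, ‖dbar chi l‖ₑ < ⊤) : Integrable (dbar chi) := by
  have hcont := cutx_cont hs
  have hopen : IsOpen ((Qf : Set ℂ)ᶜ) := Qf.finite_toSet.isClosed.isOpen_compl
  have hm : AEStronglyMeasurable (dbar chi) volume := by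
    have h1 := hcont.aestronglyMeasurable (μ := volume) hopen.measurableSet
    have h2 : (volume : Measure ℂ).restrict ((Qf : Set ℂ)ᶜ) = volume := by
      apply Measure.restrict_eq_self_of_ae_mem
      have h : volume (Qf : Set ℂ) = 0 := Qf.finite_toSet.measure_zero _
      rw [ae_iff]
      simpa using h
    rwa [h2] at h1
  have i1 : IntegrableOn (dbar chi) (⋃ q ∈ Qf, ball q R) := by
    rw [integrableOn_finset_iUnion]
    intro q hqq
    exact ⟨hm.restrict, hasFiniteIntegral_iff_enorm.2 (hq q hqq)⟩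
  have i2 : IntegrableOn (dbar chi) (tsupport chi \ ⋃ q ∈ Qf, ball q R) := by
    refine ContinuousOn.integrableOn_compact ?_ (hcont.mono ?_)
    · exact (show IsCompact (tsupport chi) from hc).diff (isOpen_biUnion fun q _ => isOpen_ball)
    · rintro l ⟨-, h2⟩ h3
      exact h2 (mem_iUnion₂.2 ⟨l, h3, mem_ball_self hR⟩)
  have i3 : IntegrableOn (dbar chi) (tsupport chi)ᶜ := by
    have h0 : IntegrableOn (fun _ : ℂ => (0 : ℂ)) (tsupport chi)ᶜ := integrableOn_zero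
    refine h0.congr_fun (fun l hl => ?_) (isClosed_tsupport chi).measurableSet.compl
    symm
    by_contra h
    exact hl (Pool.Lib.tsupport_dbar_subset chi (subset_tsupport _ h))
  rw [← integrableOn_univ]
  refine ((i1.union i2).union i3).mono_set ?_
  intro l _
  by_cases h1 : l ∈ tsupport chi
  · by_cases h2 : l ∈ ⋃ q ∈ Qf, ball q R
    · exact Or.inl (Or.inl h2)
    · exact Or.inl (Or.inr ⟨h1, h2⟩)
  · exact Or.inr h1

theorem exists_cutE {phi : ℂ → ℂ} (hana : AnalyticOnNhd ℂ phi (sphere 0 1)) {Phi : CT}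
    {Q : Set ℂ} (hQf : Q.Finite) {U1 U2 : Set ℂ} (o1 : IsOpen U1) (o2 : IsOpen U2)
    (hdis : Disjoint U1 U2) (hcov : Sg phi \ Q ⊆ U1 ∪ U2)
    (hLC : ∀ q ∈ Q, LocE phi Phi U1 U2 q) :
    ∃ K : CutE phi U1 U2, (K.Q : Set ℂ) = Q ∧ K.Form Phi := by
  obtain ⟨Qf, hQfe⟩ : ∃ Qf : Finset ℂ, Qf = hQf.toFinset := ⟨_, rfl⟩
  have hQ : ∀ {q : ℂ}, q ∈ Qf ↔ q ∈ Q := fun {q} => by
    rw [hQfe, Set.Finite.mem_toFinset]
  have hex2 : ∀ q : ℂ, ∃ (R : ℝ) (f : ℂ → ℂ) (c : ℝ) (p : ℕ), ∀ _ : q ∈ Q, (0 < R ∧ 0 < c ∧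
      ContDiffOn ℝ 1 f {q}ᶜ ∧ (∀ l, ∃ t : ℝ, 0 ≤ t ∧ t ≤ 1 ∧ f l = t) ∧
      (∀ l ∈ ball q R, l ≠ q → l ∈ Sg phi → l ∈ U1 → ∀ᶠ l' in 𝓝 l, f l' = 1) ∧
      (∀ l ∈ ball q R, l ≠ q → l ∈ Sg phi → l ∈ U2 → ∀ᶠ l' in 𝓝 l, f l' = 0) ∧
      (∀ l ∈ ball q R, l ≠ q → (dbar f l ≠ 0 ∨ (f l ≠ 0 ∧ f l ≠ 1)) →
        ∀ l' ∈ Sg phi, c * ‖l - q‖ ^ p ≤ ‖l' - l‖) ∧
      ∫⁻ l in ball q R, ‖dbar f l‖ₑ < ⊤ ∧
      ∃ C : ℝ, ∀ f' g' : Hardy, ∫⁻ l in ball q R, ‖dbar f l‖ₑ *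
        ‖inner ℂ g' ((resolvent (T Phi) l - T (resolvent Phi l)) f')‖ₑ ≤
          ENNReal.ofReal (C * ‖f'‖ * ‖g'‖)) := by
    intro q
    by_cases hq : q ∈ Q
    · obtain ⟨R, f, c, p, h⟩ := hLC q hq
      exact ⟨R, f, c, p, fun _ => h⟩
    · exact ⟨0, 0, 0, 0, fun h => absurd h hq⟩
  choose Rq f cq pq hF using hex2
  -- the radius
  obtain ⟨R, ⟨hR1, hR2⟩, hR0, hR3⟩ : ∃ R : ℝ, ((∀ q ∈ Qf, 4 * R < Rq q) ∧
      (∀ q ∈ Qf, ∀ q' ∈ Qf, q ≠ q' → 8 * R < dist q q')) ∧ 0 < R ∧ 1 * R < 1 := by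
    have ev : ∀ a : ℝ, ∀ b : ℝ, 0 < b → ∀ᶠ R : ℝ in 𝓝[>] 0, a * R < b := by
      intro a b hb
      have : Tendsto (fun R : ℝ => a * R) (𝓝[>] 0) (𝓝 0) := by
        have h : Tendsto (fun R : ℝ => a * R) (𝓝 0) (𝓝 (a * 0)) :=
          (continuous_const.mul continuous_id).tendsto 0
        rw [mul_zero] at h
        exact h.mono_left nhdsWithin_le_nhds
      exact this.eventually (gt_mem_nhds hb)
    have A1 : ∀ᶠ R : ℝ in 𝓝[>] 0, ∀ q ∈ Qf, 4 * R < Rq q :=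
      (eventually_all_finset Qf).2 fun q hq => ev 4 _ (hF q (hQ.1 hq)).1
    have A2 : ∀ᶠ R : ℝ in 𝓝[>] 0, ∀ q ∈ Qf, ∀ q' ∈ Qf, q ≠ q' → 8 * R < dist q q' := by
      refine (eventually_all_finset Qf).2 fun q hq => (eventually_all_finset Qf).2 fun q' hq' => ?_
      by_cases h : q = q'
      · exact Eventually.of_forall fun _ h' => absurd h h'
      · filter_upwards [ev 8 _ (dist_pos.2 h)] with R hR _ using hR
    have A3 : ∀ᶠ R : ℝ in 𝓝[>] 0, (0 : ℝ) < R := self_mem_nhdsWithin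
    exact ((A1.and A2).and (A3.and (ev 1 1 one_pos))).exists
  obtain ⟨c, hc1, hc0⟩ : ∃ c : ℝ, (∀ q ∈ Qf, c < cq q) ∧ 0 < c := by
    have A1 : ∀ᶠ c : ℝ in 𝓝[>] 0, ∀ q ∈ Qf, c < cq q :=
      (eventually_all_finset Qf).2 fun q hq =>
        nhdsWithin_le_nhds (gt_mem_nhds (hF q (hQ.1 hq)).2.1)
    have A3 : ∀ᶠ c : ℝ in 𝓝[>] 0, (0 : ℝ) < c := self_mem_nhdsWithin
    exact (A1.and A3).exists
  obtain ⟨P, hP⟩ : ∃ P : ℕ, ∀ q ∈ Qf, pq q ≤ P :=
    ((eventually_all_finset Qf).2 fun q _ => eventually_ge_atTop (pq q)).exists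
  -- the far cutoff
  set U : Set ℂ := ⋃ q ∈ Qf, ball q R with hU
  have hUo : IsOpen U := isOpen_biUnion fun q _ => isOpen_ball
  have hSU : IsCompact (Sg phi \ U) := (Pool.Agent.TBirS.isCompact_Sg hana).diff hUo
  have hSU' : ∀ l ∈ Sg phi \ U, l ∈ U1 ∨ l ∈ U2 := by
    rintro l ⟨h1, h2⟩
    exact hcov ⟨h1, fun h3 => h2 (mem_iUnion₂.2 ⟨l, hQ.2 h3, mem_ball_self hR0⟩)⟩
  obtain ⟨g, gsm, gcs, gI, g1, g0⟩ := cutx_smooth (A := (Sg phi \ U) \ U2) (B := (Sg phi \ U) \ U1)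
    (hSU.diff o2) (hSU.diff o1).isClosed (by
      rw [Set.disjoint_left]
      rintro l ⟨h1, h2⟩ ⟨-, h4⟩
      rcases hSU' l h1 with h | h
      · exact h4 h
      · exact h2 h)
  -- the bumps
  let eta : ∀ q : ℂ, ContDiffBump q := fun q =>
    { rIn := 2 * R, rOut := 3 * R, rIn_pos := by positivity, rIn_lt_rOut := by linarith }
  have eta1 : ∀ q l : ℂ, dist l q ≤ 2 * R → eta q l = 1 := fun q l h =>
    (eta q).one_of_mem_closedBall (mem_closedBall.2 h)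
  have eta0 : ∀ q l : ℂ, 3 * R ≤ dist l q → eta q l = 0 := fun q l h =>
    (eta q).zero_of_le_dist h
  set chi : ℂ → ℂ := fun l => ∑ q ∈ Qf, ((eta q l : ℝ) : ℂ) * f q l +
    (1 - ∑ q ∈ Qf, ((eta q l : ℝ) : ℂ)) * ((g l : ℝ) : ℂ) with hchi
  have near : ∀ q ∈ Qf, ∀ l, dist l q < 4 * R → chi l = ((eta q l : ℝ) : ℂ) * f q l +
      (1 - ((eta q l : ℝ) : ℂ)) * ((g l : ℝ) : ℂ) := by
    intro q hq l hl
    have hz : ∀ q' ∈ Qf, q' ≠ q → eta q' l = 0 := by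
      intro q' hq' hne
      apply eta0
      have h1 := hR2 q' hq' q hq hne
      have h2 := dist_triangle_left q' q l
      linarith
    simp only [hchi]
    rw [Finset.sum_eq_single_of_mem q hq (fun q' hq' hne => by rw [hz q' hq' hne]; simp),
      Finset.sum_eq_single_of_mem q hq (fun q' hq' hne => by rw [hz q' hq' hne]; simp)]
  have far : ∀ l, (∀ q ∈ Qf, 3 * R ≤ dist l q) → chi l = ((g l : ℝ) : ℂ) := by
    intro l hl
    simp only [hchi]
    rw [Finset.sum_eq_zero (fun q hq => by rw [eta0 q l (hl q hq)]; simp),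
      Finset.sum_eq_zero (fun q hq => by rw [eta0 q l (hl q hq)]; simp)]
    simp
  have near1 : ∀ q ∈ Qf, ∀ l, dist l q ≤ 2 * R → chi l = f q l := by
    intro q hq l hl
    rw [near q hq l (by linarith), eta1 q l hl]
    simp
  have near1' : ∀ q ∈ Qf, ∀ l, dist l q < 2 * R → chi =ᶠ[𝓝 l] f q := by
    intro q hq l hl
    have : ball q (2 * R) ∈ 𝓝 l := isOpen_ball.mem_nhds hl
    filter_upwards [this] with l' hl'
    exact near1 q hq l' (mem_ball.1 hl').le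
  have hvalue : ∀ l, ∃ t : ℝ, 0 ≤ t ∧ t ≤ 1 ∧ chi l = t := by
    intro l
    by_cases h : ∃ q ∈ Qf, dist l q < 4 * R
    · obtain ⟨q, hq, hl⟩ := h
      obtain ⟨t, t0, t1, ht⟩ := (hF q (hQ.1 hq)).2.2.2.1 l
      have e0 := (eta q).nonneg (x := l)
      have e1 := (eta q).le_one (x := l)
      refine ⟨eta q l * t + (1 - eta q l) * g l, ?_, ?_, ?_⟩
      · have := gI l
        have a1 := mul_nonneg e0 t0
        have a2 := mul_nonneg (sub_nonneg.2 e1) this.1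
        linarith
      · have := gI l
        have a1 := mul_le_mul_of_nonneg_left t1 e0
        have a2 := mul_le_mul_of_nonneg_left this.2 (sub_nonneg.2 e1)
        linarith
      · rw [near q hq l hl, ht]
        push_cast
        ring
    · push Not at h
      exact ⟨g l, (gI l).1, (gI l).2, far l fun q hq => by linarith [h q hq]⟩
  have hU1 : ∀ q ∈ Qf, ∀ l, 2 * R ≤ dist l q → dist l q < 4 * R → l ∉ U := by
    intro q hq l h1 h2 h3
    obtain ⟨q', hq', h4⟩ := mem_iUnion₂.1 h3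
    have h4' := mem_ball.1 h4
    by_cases hne : q' = q
    · subst hne
      linarith
    · have h5 := hR2 q' hq' q hq hne
      have h6 := dist_triangle_left q' q l
      linarith
  have hU2 : ∀ l, (∀ q ∈ Qf, 4 * R ≤ dist l q) → l ∉ U := by
    intro l h h3
    obtain ⟨q', hq', h4⟩ := mem_iUnion₂.1 h3
    have h4' := mem_ball.1 h4
    have := h q' hq'
    linarith
  have hball4 : ∀ q ∈ Qf, ∀ l, dist l q < 4 * R → l ∈ ball q (Rq q) := fun q hq l hl =>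
    mem_ball.2 (hl.trans (hR1 q hq))
  -- common part of `neg` and `pos`
  have common : ∀ (v : ℝ) (l : ℂ), (∀ q ∈ Qf, dist l q < 4 * R → ∀ᶠ l' in 𝓝 l, f q l' = (v : ℂ)) →
      (l ∉ U → ∀ᶠ l' in 𝓝 l, g l' = v) → ∀ᶠ l' in 𝓝 l, chi l' = (v : ℂ) := by
    intro v l h1 h2
    by_cases h : ∃ q ∈ Qf, dist l q < 4 * R
    · obtain ⟨q, hq, hl⟩ := h
      by_cases hl2 : dist l q < 2 * R
      · filter_upwards [h1 q hq hl, near1' q hq l hl2] with l' a1 a2
        rw [a2, a1]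
      · have hlU := hU1 q hq l (not_lt.1 hl2) hl
        have : ball q (4 * R) ∈ 𝓝 l := isOpen_ball.mem_nhds hl
        filter_upwards [h1 q hq hl, h2 hlU, this] with l' a1 a2 a3
        rw [near q hq l' (mem_ball.1 a3), a1, a2]
        ring
    · push Not at h
      have hlU := hU2 l h
      have : ∀ᶠ l' in 𝓝 l, ∀ q ∈ Qf, 3 * R < dist l' q := by
        refine (eventually_all_finset Qf).2 fun q hq => ?_
        have hc : Tendsto (fun l' : ℂ => dist l' q) (𝓝 l) (𝓝 (dist l q)) :=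
          (continuous_id.dist continuous_const).tendsto l
        exact hc.eventually (lt_mem_nhds (by linarith [h q hq]))
      filter_upwards [h2 hlU, this] with l' a2 a3
      rw [far l' fun q hq => (a3 q hq).le, a2]
  have hdb : ∀ q ∈ Qf, ∀ l ∈ ball q R, dbar chi l = dbar (f q) l := by
    intro q hq l hl
    exact Pool.Lib.dbar_congr (near1' q hq l (by linarith [mem_ball.1 hl]))
  have hball1 : ∀ q ∈ Qf, ball q R ⊆ ball q (Rq q) := fun q hq =>
    ball_subset_ball (by linarith [hR1 q hq])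
  have hsmooth : ContDiffOn ℝ 1 chi ((Qf : Set ℂ)ᶜ) := by
    have hof : ContDiff ℝ 1 (fun x : ℝ => (x : ℂ)) := Complex.ofRealCLM.contDiff
    have he : ∀ q, ContDiff ℝ 1 (fun l => ((eta q l : ℝ) : ℂ)) := fun q =>
      hof.comp (eta q).contDiff
    have hg : ContDiff ℝ 1 (fun l => ((g l : ℝ) : ℂ)) := hof.comp gsm
    have hf : ∀ q ∈ Qf, ContDiffOn ℝ 1 (f q) ((Qf : Set ℂ)ᶜ) := by
      intro q hq
      refine ((hF q (hQ.1 hq)).2.2.1).mono ?_
      intro l hl h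
      rw [mem_singleton_iff.1 h] at hl
      exact hl hq
    refine ContDiffOn.add (ContDiffOn.sum fun q hq => ?_) (ContDiff.contDiffOn ?_)
    · exact (he q).contDiffOn.mul (hf q hq)
    · exact (contDiff_const.sub (ContDiff.sum fun q _ => he q)).mul hg
  have hcpt : HasCompactSupport chi := by
    refine HasCompactSupport.intro (K := (⋃ q ∈ Qf, closedBall q (3 * R)) ∪ tsupport g) ?_ ?_
    · exact (Qf.finite_toSet.isCompact_biUnion fun q _ => isCompact_closedBall q _).union gcs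
    · intro l hl
      rw [far l fun q hq => ?_, image_eq_zero_of_notMem_tsupport fun h => hl (Or.inr h)]
      · simp
      · by_contra h
        push Not at h
        exact hl (Or.inl (mem_iUnion₂.2 ⟨q, hq, mem_closedBall.2 h.le⟩))
  refine ⟨{
    Q := Qf
    chi := chi
    rho := R
    c := c
    p := P
    rho_pos := hR0
    c_pos := hc0
    norm_le := ?_
    smooth := hsmooth
    cpt := hcpt
    one := ?_
    zero := ?_
    cov := ?_
    int := ?_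
    loc := ?_ }, ?_, ?_⟩
  · intro l
    obtain ⟨t, t0, t1, ht⟩ := hvalue l
    rw [ht, Complex.norm_real, Real.norm_eq_abs, abs_of_nonneg t0]
    exact t1
  · intro l hl hlU hlQ
    have := common 1 l (fun q hq h => ?_)
      (fun h => g1 l ⟨⟨hl, h⟩, fun h2 => Set.disjoint_left.1 hdis hlU h2⟩)
    · simpa using this
    · have h' := (hF q (hQ.1 hq)).2.2.2.2.1 l (hball4 q hq l h)
        (fun h2 => hlQ (h2 ▸ hq)) hl hlU
      simpa using h'
  · intro l hl hlU hlQ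
    have := common 0 l (fun q hq h => ?_)
      (fun h => g0 l ⟨⟨hl, h⟩, fun h2 => Set.disjoint_left.1 hdis h2 hlU⟩)
    · simpa using this
    · have h' := (hF q (hQ.1 hq)).2.2.2.2.2.1 l (hball4 q hq l h)
        (fun h2 => hlQ (h2 ▸ hq)) hl hlU
      simpa using h'
  · intro l hl hlQ
    exact hcov ⟨hl, fun h => hlQ (hQ.2 h)⟩
  · refine cutx_int hR0 hsmooth hcpt fun q hq => ?_
    have h1 : ∫⁻ l in ball q R, ‖dbar chi l‖ₑ = ∫⁻ l in ball q R, ‖dbar (f q) l‖ₑ :=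
      setLIntegral_congr_fun measurableSet_ball fun l hl => by rw [hdb q hq l hl]
    rw [h1]
    exact (lintegral_mono_set (hball1 q hq)).trans_lt (hF q (hQ.1 hq)).2.2.2.2.2.2.2.1
  · intro q hq l hl hlq hd
    rw [hdb q hq l hl, near1 q hq l (by linarith [mem_ball.1 hl])] at hd
    have hl4 := hball4 q hq l (by linarith [mem_ball.1 hl])
    have hl1 : ‖l - q‖ ≤ 1 := by
      have := mem_ball.1 hl
      rw [dist_eq_norm] at this
      linarith
    have hcc : c * ‖l - q‖ ^ P ≤ cq q * ‖l - q‖ ^ (pq q) :=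
      mul_le_mul (hc1 q hq).le (pow_le_pow_of_le_one (norm_nonneg _) hl1 (hP q hq)) (by positivity)
        (hF q (hQ.1 hq)).2.1.le
    intro l' hl'
    exact hcc.trans ((hF q (hQ.1 hq)).2.2.2.2.2.2.1 l hl4 hlq hd l' hl')
  · ext q
    exact hQ
  · intro q hq
    obtain ⟨C, hC⟩ := (hF q (hQ.1 hq)).2.2.2.2.2.2.2.2
    refine ⟨C, R, hR0, fun f' g' => ?_⟩
    have h1 : ∫⁻ l in ball q R, ‖dbar chi l‖ₑ *
        ‖inner ℂ g' ((resolvent (T Phi) l - T (resolvent Phi l)) f')‖ₑ =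
        ∫⁻ l in ball q R, ‖dbar (f q) l‖ₑ *
        ‖inner ℂ g' ((resolvent (T Phi) l - T (resolvent Phi l)) f')‖ₑ :=
      setLIntegral_congr_fun measurableSet_ball fun l hl => by rw [hdb q hq l hl]
    refine le_trans (le_of_eq h1) (le_trans ?_ (hC f' g'))
    exact lintegral_mono_set (hball1 q hq)

end Pool.Agent.TBirE
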