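import Pool.Agent.TBirE.Bas
import Pool.Agent.TBir.EvB
import Pool.Agent.TBir.FacT

/-!
# Evaluation and the Poisson kernel

Paper proof. Let `k = plusS (fun j => conj z ^ j)`, a `Plus` symbol (`plus_plusS`), `k (x) = (1 - conj z * e x)⁻¹`
(`plusS_apply` and the geometric series), `u = 1 - conj z * fourier 1`, `u * k = 1`, and `F = T k f`. `T k` is
multiplication by `k`: `incl (T k f) = k * incl f` a.e. (`incl_T`). `T u F = T (u * k) f = f` and
`ev z (T u F) = (1 - ‖z‖^2) * ev z F` (`ev_S`). Next `‖ev z h‖^2 ≤ ‖h‖^2 * (1 - ‖z‖^2)⁻¹` (Cauchy-Schwarz with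
`hasSum_ev`, `hasSum_sq_co` and the geometric series). So
`‖ev z f‖^2 (1 - ‖z‖^2)⁻² ≤ (1 - ‖z‖^2)⁻¹ ‖T k f‖^2 = (1 - ‖z‖^2)⁻¹ ∫ ‖1 - conj z e x‖⁻² ‖f x‖^2`, and
`‖1 - conj z * e x‖ = ‖e x - z‖`.
-/

set_option autoImplicit false

open MeasureTheory Complex Set Filter Topology Metric AddCircle
open scoped ComplexConjugate InnerProductSpace ENNReal

namespace Pool.Agent.TBirE

open Pool.Agent.TBir

private theorem lint_sq (g : L2) :
    ∫⁻ x : UnitAddCircle, ‖(g : UnitAddCircle → ℂ) x‖ₑ ^ 2 ∂haarAddCircle =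
      ENNReal.ofReal (‖g‖ ^ 2) := by
  have h1 : eLpNorm (g : UnitAddCircle → ℂ) 2 haarAddCircle ^ 2 =
      ∫⁻ x : UnitAddCircle, ‖(g : UnitAddCircle → ℂ) x‖ₑ ^ 2 ∂haarAddCircle := by
    have := eLpNorm_nnreal_pow_eq_lintegral (f := (g : UnitAddCircle → ℂ))
      (μ := haarAddCircle) (p := 2) two_ne_zero
    simpa using this
  have h2 : eLpNorm (g : UnitAddCircle → ℂ) 2 haarAddCircle = ENNReal.ofReal ‖g‖ := by
    rw [Lp.norm_def, ENNReal.ofReal_toReal (Lp.eLpNorm_ne_top g)]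
  rw [← h1, h2, ENNReal.ofReal_pow (norm_nonneg _)]

theorem lintegral_sq (f : Hardy) :
    ∫⁻ x : UnitAddCircle, ‖(incl f : UnitAddCircle → ℂ) x‖ₑ ^ 2 ∂haarAddCircle =
      ENNReal.ofReal (‖f‖ ^ 2) := by
  rw [lint_sq, TpB_norm_incl]

/-- The kernel estimate. -/
private theorem ev_cs {z : ℂ} (hz : ‖z‖ < 1) (h : Hardy) :
    ‖ev z h‖ ^ 2 ≤ ‖h‖ ^ 2 * (1 - ‖z‖ ^ 2)⁻¹ := by
  have hz2 : ‖z‖ ^ 2 < 1 := by
    have := norm_nonneg z
    nlinarith
  have h1 := (hasSum_ev hz h).tendsto_sum_nat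
  have h2 : Tendsto (fun N => ‖∑ n ∈ Finset.range N, co h n * z ^ n‖ ^ 2) atTop
      (𝓝 (‖ev z h‖ ^ 2)) := (h1.norm).pow 2
  refine le_of_tendsto' h2 fun N => ?_
  have h3 : ‖∑ n ∈ Finset.range N, co h n * z ^ n‖ ≤
      ∑ n ∈ Finset.range N, ‖co h n‖ * ‖z‖ ^ n := by
    refine (norm_sum_le _ _).trans_eq (Finset.sum_congr rfl fun n _ => ?_)
    rw [norm_mul, norm_pow]
  have h4 : (∑ n ∈ Finset.range N, ‖co h n‖ * ‖z‖ ^ n) ^ 2 ≤
      (∑ n ∈ Finset.range N, ‖co h n‖ ^ 2) * ∑ n ∈ Finset.range N, (‖z‖ ^ n) ^ 2 :=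
    Finset.sum_mul_sq_le_sq_mul_sq _ _ _
  have h5 : ∑ n ∈ Finset.range N, ‖co h n‖ ^ 2 ≤ ‖h‖ ^ 2 :=
    sum_le_hasSum _ (fun n _ => by positivity) (hasSum_sq_co h)
  have h6 : ∑ n ∈ Finset.range N, (‖z‖ ^ n) ^ 2 ≤ (1 - ‖z‖ ^ 2)⁻¹ := by
    have h7 : ∀ n : ℕ, (‖z‖ ^ n) ^ 2 = (‖z‖ ^ 2) ^ n := fun n => by
      rw [← pow_mul, ← pow_mul, mul_comm]
    simp only [h7]
    exact sum_le_hasSum _ (fun n _ => by positivity)
      (hasSum_geometric_of_lt_one (by positivity) hz2)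
  calc ‖∑ n ∈ Finset.range N, co h n * z ^ n‖ ^ 2
      ≤ (∑ n ∈ Finset.range N, ‖co h n‖ * ‖z‖ ^ n) ^ 2 := by
        gcongr
    _ ≤ _ := h4
    _ ≤ ‖h‖ ^ 2 * (1 - ‖z‖ ^ 2)⁻¹ := by
        refine mul_le_mul h5 h6 (Finset.sum_nonneg fun n _ => by positivity) (by positivity)

/-- The value of the symbol `1 / (1 - conj z * zeta)`. -/
private theorem kz_apply {z : ℂ} (hz : ‖z‖ < 1) (x : UnitAddCircle) :
    (1 - conj z * e x) * plusS (fun j => conj z ^ j) x = 1 := by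
  have hb : Summable fun j : ℕ => ‖conj z ^ j‖ := by
    simp only [norm_pow, RCLike.norm_conj]
    exact summable_geometric_of_lt_one (norm_nonneg _) hz
  have hx : ‖e x‖ = 1 := Circle.norm_coe _
  rw [plusS_apply hb]
  have h2 : (fun j : ℕ => conj z ^ j * e x ^ j) = fun j => (conj z * e x) ^ j := by
    funext j; rw [mul_pow]
  have h3 : ‖conj z * e x‖ < 1 := by rw [norm_mul, hx, mul_one, RCLike.norm_conj]; exact hz
  rw [h2, tsum_geometric_of_norm_lt_one h3]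
  refine mul_inv_cancel₀ fun h => ?_
  have : conj z * e x = 1 := (sub_eq_zero.1 h).symm
  rw [this] at h3
  simp at h3

private theorem norm_kz {z : ℂ} (x : UnitAddCircle) : ‖1 - conj z * e x‖ = ‖e x - z‖ := by
  have hx : ‖e x‖ = 1 := Circle.norm_coe _
  have h1 : 1 = conj (e x) * e x := by
    rw [mul_comm, Complex.mul_conj, Complex.normSq_eq_norm_sq, hx]
    simp
  have h2 : 1 - conj z * e x = conj (e x - z) * e x := by
    rw [map_sub, sub_mul, ← h1]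
  rw [h2, norm_mul, hx, mul_one, RCLike.norm_conj]

theorem ev_sq_le {z : ℂ} (hz : ‖z‖ < 1) (f : Hardy) :
    ENNReal.ofReal (‖ev z f‖ ^ 2) ≤
      ∫⁻ x : UnitAddCircle, ENNReal.ofReal ((1 - ‖z‖ ^ 2) / ‖e x - z‖ ^ 2) *
        ‖(incl f : UnitAddCircle → ℂ) x‖ₑ ^ 2 ∂haarAddCircle := by
  have hz2 : 0 < 1 - ‖z‖ ^ 2 := by
    have := norm_nonneg z
    nlinarith
  have hb : Summable fun j : ℕ => ‖conj z ^ j‖ := by
    simp only [norm_pow, RCLike.norm_conj]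
    exact summable_geometric_of_lt_one (norm_nonneg _) hz
  obtain ⟨k, hk⟩ : ∃ k : CT, k = plusS fun j => conj z ^ j := ⟨_, rfl⟩
  have hkP : Plus k := by rw [hk]; exact plus_plusS hb
  have hka : ∀ x, (1 - conj z * e x) * k x = 1 := fun x => by rw [hk]; exact kz_apply hz x
  have huk : (1 - conj z • fourier 1 : CT) * k = 1 := by
    ext x
    rw [ContinuousMap.mul_apply, ContinuousMap.sub_apply, ContinuousMap.one_apply,
      ContinuousMap.smul_apply, fourier_one_apply, smul_eq_mul, hka]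
  -- the function `F`
  have hF : ev z f = (1 - ‖z‖ ^ 2 : ℝ) * ev z (T k f) := by
    have h1 : T (1 - conj z • fourier 1 : CT) (T k f) = f := by
      have h2 := T_mul_right (1 - conj z • fourier 1 : CT) hkP
      rw [huk, T_one] at h2
      have h3 := congrArg (fun A : Hardy →L[ℂ] Hardy => A f) h2
      exact h3.symm
    have h4 : T (1 - conj z • fourier 1 : CT) (T k f) = T k f - conj z • S (T k f) := by
      rw [T_sub, T_one, T_smul]
      rfl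
    rw [h4] at h1
    have h5 := congrArg (ev z) h1
    rw [map_sub, map_smul, ev_S hz, smul_eq_mul] at h5
    rw [← h5]
    have h6 : conj z * (z * ev z (T k f)) = ((‖z‖ ^ 2 : ℝ) : ℂ) * ev z (T k f) := by
      rw [← mul_assoc, mul_comm (conj z) z, Complex.mul_conj, Complex.normSq_eq_norm_sq]
    rw [h6]
    push_cast
    ring
  have hF2 : ‖ev z f‖ ^ 2 ≤ (1 - ‖z‖ ^ 2) * ‖T k f‖ ^ 2 := by
    have h1 := ev_cs hz (T k f)
    rw [hF, norm_mul, Complex.norm_real, Real.norm_of_nonneg hz2.le, mul_pow]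
    calc (1 - ‖z‖ ^ 2) ^ 2 * ‖ev z (T k f)‖ ^ 2
        ≤ (1 - ‖z‖ ^ 2) ^ 2 * (‖T k f‖ ^ 2 * (1 - ‖z‖ ^ 2)⁻¹) := by gcongr
      _ = (1 - ‖z‖ ^ 2) * ‖T k f‖ ^ 2 := by field_simp
  refine (ENNReal.ofReal_le_ofReal hF2).trans ?_
  rw [ENNReal.ofReal_mul hz2.le, ← lintegral_sq, incl_T hkP, ← lintegral_const_mul' _ _ (by simp)]
  refine le_of_eq (lintegral_congr_ae ?_)
  filter_upwards [mul_ae k (incl f)] with x hx
  rw [hx, enorm_mul, mul_pow, ← mul_assoc]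
  have h0 : (1 - conj z * e x) ≠ 0 := by
    intro h
    have := hka x
    rw [h, zero_mul] at this
    exact zero_ne_one this
  have h1 : ‖k x‖ = ‖e x - z‖⁻¹ := by
    rw [← norm_kz]
    refine eq_inv_of_mul_eq_one_right ?_
    rw [← norm_mul, hka]
    simp
  have h2 : ‖k x‖ₑ ^ 2 = ENNReal.ofReal ((‖e x - z‖ ^ 2)⁻¹) := by
    rw [← ofReal_norm, h1, ← ENNReal.ofReal_pow (by positivity), inv_pow]
  rw [h2, ← ENNReal.ofReal_mul hz2.le, ← div_eq_mul_inv]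

end Pool.Agent.TBirE
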