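import Pool.Agent.TBirM.Dbd
import Pool.Agent.TBirE.Bas

/-!
# The difference of the two resolvents as a form, with the values at the branches

Paper proof of `form_pt`. Copy the proof of `dbdM` (TBirM/Dbd.lean), with `fix_sum` in place of `fix_est` (the numbers
`kap`, `de`, `s0`, the symbol identity `hsym`, `hcard`, `hne`, `hclose` are as there, no `dist_zero`, no `infDist`). This
gives, for `l` near `q` off `Sg phi`, the bound `K (‖f‖ + ∑ i, ‖evr (z i) f‖) (‖g‖ + ∑ i, ‖evr (z i) g‖)` with the zeros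
`z i ∈ ann d` of `phi - l`. It remains to see that for `l` near `q` every `z i` is some `B.g j l`; then
`∑ i, ‖evr (z i) f‖ ≤ k * ∑ j, ‖evr (B.g j l) f‖`. Let `zq`, `psiq` be the data at `q` (`‖zq i‖ = 1`, `phi (zq i) = q`). By
`B.cov` every `zq i` is `B.g j q` for some `j`. `phi` is injective on a ball of radius `δ` around every `zq i`
(`deriv phi (zq i) ≠ 0`, `HasStrictDerivAt.eventually_left_inverse` or `HasStrictDerivAt.localInverse`; finitely many `i`),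
and for `l` near `q` `B.g j l ∈ ball (B.g j q) δ` for all `j` (continuity). As in `hclose`: if `z i` had distance `≥ δ` to all
`zq i'`, then `‖l - q‖ = ‖psiq (z i)‖ ∏ ‖z i - zq i'‖ ≥ m δ ^ k`. So for `‖l - q‖ < m δ ^ k` `z i ∈ ball (zq i') δ` for some `i'`,
`zq i' = B.g j q`, and `phi (z i) = l = phi (B.g j l)` (`B.inv`) gives `z i = B.g j l`.
-/

set_option autoImplicit false

open MeasureTheory Complex Set Filter Topology Metric AddCircle
open scoped ComplexConjugate InnerProductSpace ENNReal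

namespace Pool.Agent.TBirE

open Pool.Agent.TBir Pool.Agent.TBirG
open Pool.Agent.TBirS (Sg)
open Pool.Agent.TBirR (wd_of_fac dist_zero)
open Pool.Agent.TBirM

theorem evr_in {z : ℂ} (hz : ‖z‖ < 1) (h : Hardy) : evr z h = ev z h := by
  unfold evr
  rw [if_pos hz]

theorem evr_out {z : ℂ} (hz : 1 < ‖z‖) (h : Hardy) : evr z h = ev (conj z)⁻¹ h := by
  unfold evr
  rw [if_neg (not_lt.2 hz.le)]

private theorem SC_sum_prod {C eta c s0 : ℝ} (hC : 0 < C) (heta : 0 < eta) (hc : 0 < c) (hs0 : 0 < s0)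
    (hs1 : s0 ≤ 1) (k : ℕ) : ∃ K : ℝ, 0 < K ∧ ∀ bp bm : ℕ → ℂ, Dec C eta bp → Dec C eta bm →
      ∀ (s t : Finset (Option (Fin k))) (V W : Option (Fin k) → ℂ), s.Nonempty → t.Nonempty →
      (∀ j ∈ s, 1 < ‖V j‖ ∧ Real.exp (-(eta / 2)) ≤ ‖(V j)⁻¹‖) →
      (∀ i ∈ s, ∀ j ∈ s, i ≠ j → s0 ≤ ‖V i - V j‖) →
      (∀ j ∈ t, ‖W j‖ < 1 ∧ Real.exp (-(eta / 2)) ≤ ‖W j‖) →
      (∀ i ∈ t, ∀ j ∈ t, i ≠ j → s0 ≤ ‖W i - W j‖) →
      (∀ i ∈ s, ∀ j ∈ t, c ≤ ‖1 - W j * (V i)⁻¹‖) → ∀ (f g : Hardy) (X Y : ℝ),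
      (∀ j ∈ t, ‖ev (W j) f‖ ≤ X) → (∀ i ∈ s, ‖ev (conj (V i)⁻¹) g‖ ≤ Y) → 0 ≤ X → 0 ≤ Y →
      ‖inner ℂ g (SC (plusS bp * ∏ j ∈ s, Ak (V j)) (minusS bm * ∏ j ∈ t, Gk (W j)) f)‖ ≤
        K * ((X + ‖f‖) * (Y + ‖g‖)) := by
  obtain ⟨K0, hK0, hpair⟩ := pair_est hC heta hc
  obtain ⟨n, hn⟩ : ∃ n : ℕ, n = k + 1 := ⟨_, rfl⟩
  obtain ⟨B, hB⟩ : ∃ B : ℝ, B = (s0 ^ n)⁻¹ := ⟨_, rfl⟩
  have hB0 : 0 < B := by rw [hB]; positivity
  have hn0 : 0 < (n : ℝ) := by
    rw [hn]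
    positivity
  refine ⟨(n : ℝ) * ((n : ℝ) * (B * B * K0)), by positivity, ?_⟩
  intro bp bm hbp hbm s t V W hsn htn hV hVs hW hWs hVW f g X0 Y0 hX0b hY0b hX00 hY00
  have hcs : s.card ≤ n := by
    refine (Finset.card_le_univ s).trans ?_
    simp [hn]
  have hct : t.card ≤ n := by
    refine (Finset.card_le_univ t).trans ?_
    simp [hn]
  have hVi : Set.InjOn V s := by
    intro i hi j hj hij
    by_contra hne
    have := hVs i hi j hj hne
    rw [hij, sub_self, norm_zero] at this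
    linarith
  have hWi : Set.InjOn W t := by
    intro i hi j hj hij
    by_contra hne
    have := hWs i hi j hj hne
    rw [hij, sub_self, norm_zero] at this
    linarith
  have hW0 : ∀ j ∈ t, W j ≠ 0 := by
    intro j hj h0
    have := (hW j hj).2
    rw [h0, norm_zero] at this
    exact absurd this (not_le.2 (Real.exp_pos _))
  obtain ⟨cV, hcV⟩ : ∃ cV : Option (Fin k) → ℂ, cV = fun j => (∏ k ∈ s.erase j, (V j - V k))⁻¹ :=
    ⟨_, rfl⟩
  obtain ⟨cW, hcW⟩ : ∃ cW : Option (Fin k) → ℂ,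
      cW = fun j => (∏ k ∈ t.erase j, (1 - W k * (W j)⁻¹))⁻¹ := ⟨_, rfl⟩
  have bV : ∀ j ∈ s, ‖cV j‖ ≤ B := by
    intro j hj
    rw [hcV, hB]
    exact prod_bound s (u := fun i j => V i - V j) hs0 hs1 hcs hVs hj
  have bW : ∀ j ∈ t, ‖cW j‖ ≤ B := by
    intro j hj
    rw [hcW, hB]
    refine prod_bound t (u := fun i j => 1 - W j * (W i)⁻¹) hs0 hs1 hct ?_ hj
    intro i hi j hj hij
    have h1 : 1 - W j * (W i)⁻¹ = (W i - W j) * (W i)⁻¹ := by
      rw [sub_mul, mul_inv_cancel₀ (hW0 i hi)]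
    have h2 : 1 ≤ ‖(W i)⁻¹‖ := by
      rw [norm_inv]
      exact (one_le_inv₀ (norm_pos_iff.2 (hW0 i hi))).2 (hW i hi).1.le
    rw [h1, norm_mul]
    exact (hWs i hi j hj hij).trans (le_mul_of_one_le_right (norm_nonneg _) h2)
  have e1 : plusS bp * ∏ j ∈ s, Ak (V j) = ∑ j ∈ s, cV j • (plusS bp * Ak (V j)) := by
    rw [prodA s hsn hVi fun j hj => (hV j hj).1, Finset.mul_sum]
    refine Finset.sum_congr rfl fun j _ => ?_
    rw [mul_smul_comm, hcV]
  have e2 : minusS bm * ∏ j ∈ t, Gk (W j) = ∑ j ∈ t, cW j • (minusS bm * Gk (W j)) := by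
    rw [prodG t htn hWi hW0 fun j hj => (hW j hj).1, Finset.mul_sum]
    refine Finset.sum_congr rfl fun j _ => ?_
    rw [mul_smul_comm, hcW]
  obtain ⟨X, hX⟩ : ∃ X : ℝ, X = (X0 + ‖f‖) * (Y0 + ‖g‖) := ⟨_, rfl⟩
  have hX0 : 0 ≤ X := by rw [hX]; positivity
  have hterm : ∀ i ∈ s, ∀ j ∈ t, ‖inner ℂ g (((cV i * cW j) •
      SC (plusS bp * Ak (V i)) (minusS bm * Gk (W j))) f)‖ ≤ B * B * K0 * X := by
    intro i hi j hj
    have h1 : ((cV i * cW j) • SC (plusS bp * Ak (V i)) (minusS bm * Gk (W j))) f =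
        (cV i * cW j) • SC (plusS bp * Ak (V i)) (minusS bm * Gk (W j)) f := rfl
    rw [h1, inner_smul_right, norm_mul, norm_mul]
    have hvn : ‖(V i)⁻¹‖ < 1 := by
      rw [norm_inv]
      exact inv_lt_one_of_one_lt₀ (hV i hi).1
    have h2 := hpair bp bm hbp hbm (W j) (V i)⁻¹ (hW j hj).1 hvn (hW j hj).2 (hV i hi).2
      (hVW i hi j hj) f g
    have h3 := hX0b j hj
    have h4 := hY0b i hi
    have h5 : K0 * (‖ev (W j) f‖ + ‖f‖) * (‖ev (conj (V i)⁻¹) g‖ + ‖g‖) ≤ K0 * X := by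
      rw [hX, mul_assoc]
      refine mul_le_mul_of_nonneg_left ?_ hK0.le
      exact mul_le_mul (by linarith) (by linarith) (by positivity) (by positivity)
    have h6 : ‖inner ℂ g ((SC (plusS bp * Ak (V i)) (minusS bm * Gk (W j))) f)‖ ≤ K0 * X :=
      h2.trans h5
    calc ‖cV i‖ * ‖cW j‖ * ‖inner ℂ g ((SC (plusS bp * Ak (V i)) (minusS bm * Gk (W j))) f)‖ ≤
          B * B * (K0 * X) :=
        mul_le_mul (mul_le_mul (bV i hi) (bW j hj) (norm_nonneg _) hB0.le) h6 (norm_nonneg _)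
          (by positivity)
      _ = B * B * K0 * X := by ring
  rw [e1, e2, SC_sum, _root_.sum_apply, inner_sum, ← hX]
  have hin : ∀ i ∈ s, ‖inner ℂ g ((∑ j ∈ t, (cV i * cW j) •
      SC (plusS bp * Ak (V i)) (minusS bm * Gk (W j))) f)‖ ≤ n * (B * B * K0 * X) := by
    intro i hi
    rw [_root_.sum_apply, inner_sum]
    refine (norm_sum_le _ _).trans ?_
    refine (Finset.sum_le_sum fun j hj => hterm i hi j hj).trans ?_
    rw [Finset.sum_const, nsmul_eq_mul]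
    refine mul_le_mul_of_nonneg_right ?_ (by positivity)
    exact_mod_cast hct
  refine (norm_sum_le _ _).trans ?_
  refine (Finset.sum_le_sum hin).trans ?_
  rw [Finset.sum_const, nsmul_eq_mul]
  calc (s.card : ℝ) * (n * (B * B * K0 * X)) ≤ n * (n * (B * B * K0 * X)) := by
        refine mul_le_mul_of_nonneg_right ?_ (by positivity)
        exact_mod_cast hcs
    _ = n * (n * (B * B * K0)) * X := by ring

theorem fix_sum {C0 eta kap s0 : ℝ} (hC0 : 0 < C0) (heta : 0 < eta) (hkap : 0 < kap)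
    (hkap1 : kap < 1) (hek : Real.exp (-(eta / 2)) ≤ kap) (hs0 : 0 < s0) (hs1 : s0 ≤ 1) (k : ℕ) :
    ∃ K : ℝ, 0 < K ∧ ∀ (Psi : CT) (x : ℤ), HasWH C0 eta Psi x → ∀ (Phi : CT) (l : ℂ)
      (z : Fin k → ℂ), Phi - algebraMap ℂ CT l = Psi * ∏ i, (fourier 1 - algebraMap ℂ CT (z i)) →
      x + ((Finset.univ.filter fun i => ‖z i‖ < 1).card : ℤ) = 0 → (∀ i, ‖z i‖ ≠ 1) →
      (∀ i, kap + s0 ≤ ‖z i‖ ∧ ‖z i‖ + s0 ≤ kap⁻¹) → (∀ i j, i ≠ j → s0 ≤ ‖z i - z j‖) →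
      ∀ f g : Hardy, ‖inner ℂ g ((resolvent (T Phi) l - T (resolvent Phi l)) f)‖ ≤
        K * ((‖f‖ + ∑ i, ‖evr (z i) f‖) * (‖g‖ + ∑ i, ‖evr (z i) g‖)) := by
  obtain ⟨C1, hC1⟩ : ∃ C1 : ℝ, C1 = C0 * (kap⁻¹ + Real.exp eta) + C0 * (1 + kap * Real.exp eta) :=
    ⟨_, rfl⟩
  have hC1p : 0 < C1 := by rw [hC1]; positivity
  obtain ⟨c, hc⟩ : ∃ c : ℝ, c = min (s0 * kap) (1 - kap) := ⟨_, rfl⟩
  have hc0 : 0 < c := by
    rw [hc]
    exact lt_min (by positivity) (by linarith)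
  have hc1 : c ≤ s0 * kap := by rw [hc]; exact min_le_left _ _
  have hc2 : c ≤ 1 - kap := by rw [hc]; exact min_le_right _ _
  obtain ⟨K, hK, hSC⟩ := SC_sum_prod hC1p heta hc0 hs0 hs1 k
  obtain ⟨C5, hC5⟩ : ∃ C5 : ℝ, C5 = (1 - kap)⁻¹ := ⟨_, rfl⟩
  have hC50 : 0 < C5 := by
    rw [hC5]
    exact inv_pos.2 (by linarith)
  refine ⟨K * ((C5 + 1) * (C5 + 1)), by positivity, ?_⟩
  intro Psi x hWH Phi l z hfac hcard hne hbd hsep f g
  obtain ⟨bp, bm, cp, cm, hbp, hbm, hcp, hcm, hpp, hmm, hPsi⟩ := hWH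
  have sbp := summable_of_dec heta hbp
  have sbm := summable_of_dec heta hbm
  have scp := summable_of_dec heta hcp
  have scm := summable_of_dec heta hcm
  obtain ⟨I, hI⟩ : ∃ I : Finset (Fin k), I = Finset.univ.filter fun i => ‖z i‖ < 1 := ⟨_, rfl⟩
  obtain ⟨O, hO⟩ : ∃ O : Finset (Fin k), O = Finset.univ.filter fun i => ¬‖z i‖ < 1 := ⟨_, rfl⟩
  have hIm : ∀ i, i ∈ I ↔ ‖z i‖ < 1 := fun i => by rw [hI]; simp
  have hOm : ∀ i, i ∈ O ↔ 1 < ‖z i‖ := fun i => by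
    rw [hO]
    simp only [Finset.mem_filter, Finset.mem_univ, true_and, not_lt]
    exact ⟨fun h => lt_of_le_of_ne h (hne i).symm, fun h => h.le⟩
  have hk1 : 1 < kap⁻¹ := (one_lt_inv₀ hkap).2 hkap1
  obtain ⟨w0, hw0⟩ : ∃ w0 : ℂ, w0 = ((kap⁻¹ : ℝ) : ℂ) := ⟨_, rfl⟩
  obtain ⟨z0, hz0⟩ : ∃ z0 : ℂ, z0 = ((kap : ℝ) : ℂ) := ⟨_, rfl⟩
  have hw0n : ‖w0‖ = kap⁻¹ := by
    rw [hw0, Complex.norm_real, Real.norm_eq_abs, abs_of_pos (by positivity)]
  have hz0n : ‖z0‖ = kap := by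
    rw [hz0, Complex.norm_real, Real.norm_eq_abs, abs_of_pos hkap]
  obtain ⟨V, hV⟩ : ∃ V : Option (Fin k) → ℂ, V = fun o => o.elim w0 z := ⟨_, rfl⟩
  obtain ⟨W, hW⟩ : ∃ W : Option (Fin k) → ℂ, W = fun o => o.elim z0 z := ⟨_, rfl⟩
  have hVn : V none = w0 := by rw [hV]; rfl
  have hVs : ∀ i, V (some i) = z i := fun i => by rw [hV]; rfl
  have hWn : W none = z0 := by rw [hW]; rfl
  have hWs : ∀ i, W (some i) = z i := fun i => by rw [hW]; rfl
  obtain ⟨bp', hbp', hplus⟩ := mul_lin_plus heta hbp w0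
  obtain ⟨bm', hbm', hminus⟩ := mul_lin_minus heta hbm z0
  have hbp1 : Dec C1 eta bp' := by
    refine dec_mono ?_ hbp'
    rw [hC1, hw0n]
    have : 0 ≤ C0 * (1 + kap * Real.exp eta) := by positivity
    linarith
  have hbm1 : Dec C1 eta bm' := by
    refine dec_mono ?_ hbm'
    rw [hC1, hz0n]
    have : 0 ≤ C0 * (kap⁻¹ + Real.exp eta) := by positivity
    linarith
  have hw0gt : 1 < ‖w0‖ := by rw [hw0n]; exact hk1
  have hz0lt : ‖z0‖ < 1 := by rw [hz0n]; exact hkap1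
  obtain ⟨alpha, halpha⟩ : ∃ alpha : CT, alpha = plusS bp' * ∏ j ∈ Finset.insertNone O, Ak (V j) :=
    ⟨_, rfl⟩
  obtain ⟨delta, hdelta⟩ : ∃ delta : CT,
      delta = minusS bm' * ∏ j ∈ Finset.insertNone I, Gk (W j) := ⟨_, rfl⟩
  have ealpha : alpha = plusS bp * ∏ i ∈ O, Ak (z i) := by
    rw [halpha, Finset.prod_insertNone, hVn, hplus]
    have h1 := Ak_mul hw0gt
    have h2 : ∏ i ∈ O, Ak (V (some i)) = ∏ i ∈ O, Ak (z i) :=
      Finset.prod_congr rfl fun i _ => by rw [hVs]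
    rw [h2]
    calc plusS bp * (fourier 1 - algebraMap ℂ CT w0) * (Ak w0 * ∏ i ∈ O, Ak (z i)) =
        plusS bp * (Ak w0 * (fourier 1 - algebraMap ℂ CT w0)) * ∏ i ∈ O, Ak (z i) := by ring
      _ = _ := by rw [h1, mul_one]
  have edelta : delta = minusS bm * ∏ i ∈ I, Gk (z i) := by
    rw [hdelta, Finset.prod_insertNone, hWn, hminus]
    have h1 := Gk_mul hz0lt
    have h2 : ∏ i ∈ I, Gk (W (some i)) = ∏ i ∈ I, Gk (z i) :=
      Finset.prod_congr rfl fun i _ => by rw [hWs]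
    rw [h2]
    calc minusS bm * (1 - z0 • fourier (-1)) * (Gk z0 * ∏ i ∈ I, Gk (z i)) =
        minusS bm * (Gk z0 * (1 - z0 • fourier (-1))) * ∏ i ∈ I, Gk (z i) := by ring
      _ = _ := by rw [h1, mul_one]
  obtain ⟨m0, hm0⟩ : ∃ m0 : CT, m0 = minusS cm * ∏ i ∈ I, (1 - z i • fourier (-1) : CT) :=
    ⟨_, rfl⟩
  obtain ⟨p0, hp0⟩ : ∃ p0 : CT, p0 = plusS cp * ∏ i ∈ O, (fourier 1 - algebraMap ℂ CT (z i)) :=
    ⟨_, rfl⟩
  have ha : Plus alpha := by
    rw [ealpha]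
    exact (plus_plusS sbp).mul (plus_prod O fun i hi => plus_Ak ((hOm i).1 hi))
  have hd : Minus delta := by
    rw [edelta]
    exact (minus_minusS sbm).mul (minus_prod I fun i hi => minus_Gk ((hIm i).1 hi))
  have hm : Minus m0 := by
    rw [hm0]
    exact (minus_minusS scm).mul (minus_prod I fun i _ => minus_one_sub (z i))
  have hp : Plus p0 := by
    rw [hp0]
    exact (plus_plusS scp).mul (plus_prod O fun i _ => plus_sub (z i))
  have hx : x = -(I.card : ℤ) := by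
    rw [hI]
    linarith
  have hfac' : Phi - algebraMap ℂ CT l = m0 * p0 := by
    have h1 : ∏ i, (fourier 1 - algebraMap ℂ CT (z i) : CT) =
        (∏ i ∈ I, (fourier 1 - algebraMap ℂ CT (z i) : CT)) *
          ∏ i ∈ O, (fourier 1 - algebraMap ℂ CT (z i) : CT) := by
      rw [hI, hO]
      exact (Finset.prod_filter_mul_prod_filter_not Finset.univ _ _).symm
    rw [hfac, hPsi, h1, hm0, hp0, ← four_prod, hx]
    ring
  have hap : alpha * p0 = 1 := by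
    have h1 : (∏ i ∈ O, Ak (z i)) * ∏ i ∈ O, (fourier 1 - algebraMap ℂ CT (z i) : CT) = 1 := by
      rw [← Finset.prod_mul_distrib]
      exact Finset.prod_eq_one fun i hi => Ak_mul ((hOm i).1 hi)
    rw [ealpha, hp0]
    calc _ = (plusS bp * plusS cp) * ((∏ i ∈ O, Ak (z i)) *
          ∏ i ∈ O, (fourier 1 - algebraMap ℂ CT (z i) : CT)) := by ring
      _ = 1 := by rw [hpp, h1, one_mul]
  have hdm : delta * m0 = 1 := by
    have h1 : (∏ i ∈ I, Gk (z i)) * ∏ i ∈ I, (1 - z i • fourier (-1) : CT) = 1 := by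
      rw [← Finset.prod_mul_distrib]
      exact Finset.prod_eq_one fun i hi => Gk_mul ((hIm i).1 hi)
    rw [edelta, hm0]
    calc _ = (minusS bm * minusS cm) * ((∏ i ∈ I, Gk (z i)) *
          ∏ i ∈ I, (1 - z i • fourier (-1) : CT)) := by ring
      _ = 1 := by rw [hmm, h1, one_mul]
  rw [res_sub ha hd hm hp hfac' hap hdm, halpha, hdelta]
  have hzi : ∀ i, 0 < ‖z i‖ := fun i => by linarith [(hbd i).1]
  have hconj : ∀ w : ℂ, conj w⁻¹ = (conj w)⁻¹ := fun w => map_inv₀ _ _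
  obtain ⟨Sf, hSf⟩ : ∃ Sf : ℝ, Sf = ∑ i, ‖evr (z i) f‖ := ⟨_, rfl⟩
  obtain ⟨Sg', hSg⟩ : ∃ Sg' : ℝ, Sg' = ∑ i, ‖evr (z i) g‖ := ⟨_, rfl⟩
  have hSf0 : 0 ≤ Sf := by rw [hSf]; exact Finset.sum_nonneg fun i _ => norm_nonneg _
  have hSg0 : 0 ≤ Sg' := by rw [hSg]; exact Finset.sum_nonneg fun i _ => norm_nonneg _
  have hSfi : ∀ i, ‖evr (z i) f‖ ≤ Sf := fun i => by
    rw [hSf]
    exact Finset.single_le_sum (f := fun i => ‖evr (z i) f‖) (fun i _ => norm_nonneg _)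
      (Finset.mem_univ i)
  have hSgi : ∀ i, ‖evr (z i) g‖ ≤ Sg' := fun i => by
    rw [hSg]
    exact Finset.single_le_sum (f := fun i => ‖evr (z i) g‖) (fun i _ => norm_nonneg _)
      (Finset.mem_univ i)
  have hmain : ‖inner ℂ g (SC (plusS bp' * ∏ j ∈ Finset.insertNone O, Ak (V j))
      (minusS bm' * ∏ j ∈ Finset.insertNone I, Gk (W j)) f)‖ ≤
      K * (((C5 * ‖f‖ + Sf) + ‖f‖) * ((C5 * ‖g‖ + Sg') + ‖g‖)) := by
    refine hSC bp' bm' hbp1 hbm1 (Finset.insertNone O) (Finset.insertNone I) V W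
      ⟨none, by simp⟩ ⟨none, by simp⟩ ?_ ?_ ?_ ?_ ?_ f g _ _ ?_ ?_ (by positivity) (by positivity)
    · intro j hj
      rcases j with _ | i
      · rw [hVn, norm_inv, hw0n, inv_inv]
        exact ⟨hk1, hek⟩
      · rw [Finset.some_mem_insertNone, hOm] at hj
        rw [hVs, norm_inv]
        refine ⟨hj, hek.trans ?_⟩
        have h1 := (hbd i).2
        rw [le_inv_comm₀ hkap (hzi i)]
        linarith
    · intro i hi j hj hij
      rcases i with _ | i <;> rcases j with _ | j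
      · exact absurd rfl hij
      · rw [hVn, hVs]
        have h1 := norm_sub_norm_le w0 (z j)
        rw [hw0n] at h1
        linarith [(hbd j).2]
      · rw [hVn, hVs]
        have h1 := norm_sub_norm_le w0 (z i)
        rw [hw0n, norm_sub_rev] at h1
        linarith [(hbd i).2]
      · rw [hVs, hVs]
        exact hsep i j fun h => hij (by rw [h])
    · intro j hj
      rcases j with _ | i
      · rw [hWn, hz0n]
        exact ⟨hkap1, hek⟩
      · rw [Finset.some_mem_insertNone, hIm] at hj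
        rw [hWs]
        exact ⟨hj, hek.trans (by linarith [(hbd i).1])⟩
    · intro i hi j hj hij
      rcases i with _ | i <;> rcases j with _ | j
      · exact absurd rfl hij
      · rw [hWn, hWs]
        have h1 := norm_sub_norm_le (z j) z0
        rw [hz0n, norm_sub_rev] at h1
        linarith [(hbd j).1]
      · rw [hWn, hWs]
        have h1 := norm_sub_norm_le (z i) z0
        rw [hz0n] at h1
        linarith [(hbd i).1]
      · rw [hWs, hWs]
        exact hsep i j fun h => hij (by rw [h])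
    · intro i hi j hj
      have key : ∀ a b : ℂ, ‖a‖ ≤ kap → ‖b‖ ≤ 1 → c ≤ ‖1 - a * b‖ := by
        intro a b h1 h2
        have h3 := norm_sub_norm_le (1 : ℂ) (a * b)
        rw [norm_one, norm_mul] at h3
        have h4 : ‖a‖ * ‖b‖ ≤ kap * 1 := mul_le_mul h1 h2 (norm_nonneg _) hkap.le
        linarith
      rcases i with _ | i <;> rcases j with _ | j
      · refine key _ _ (by rw [hWn, hz0n]) ?_
        rw [hVn, norm_inv, hw0n, inv_inv]
        exact hkap1.le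
      · rw [Finset.some_mem_insertNone, hIm] at hj
        rw [mul_comm]
        refine key _ _ ?_ ?_
        · rw [hVn, norm_inv, hw0n, inv_inv]
        · rw [hWs]
          exact hj.le
      · rw [Finset.some_mem_insertNone, hOm] at hi
        refine key _ _ (by rw [hWn, hz0n]) ?_
        rw [hVs, norm_inv]
        exact (inv_lt_one_of_one_lt₀ hi).le
      · rw [Finset.some_mem_insertNone, hOm] at hi
        rw [Finset.some_mem_insertNone, hIm] at hj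
        rw [hWs, hVs]
        have hi0 : z i ≠ 0 := norm_pos_iff.1 (hzi i)
        have h1 : 1 - z j * (z i)⁻¹ = (z i - z j) * (z i)⁻¹ := by
          rw [sub_mul, mul_inv_cancel₀ hi0]
        have hij : i ≠ j := by
          rintro rfl
          linarith
        have h2 : kap ≤ ‖(z i)⁻¹‖ := by
          rw [norm_inv, le_inv_comm₀ hkap (hzi i)]
          linarith [(hbd i).2]
        rw [h1, norm_mul]
        refine hc1.trans ?_
        exact mul_le_mul (hsep i j hij) h2 hkap.le (norm_nonneg _)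
    · intro j hj
      rcases j with _ | i
      · rw [hWn]
        have h1 := norm_ev_le hz0lt f
        rw [hz0n, ← hC5] at h1
        linarith
      · rw [Finset.some_mem_insertNone, hIm] at hj
        rw [hWs, ← evr_in hj]
        have h1 := hSfi i
        have h2 : 0 ≤ C5 * ‖f‖ := by positivity
        linarith
    · intro j hj
      rcases j with _ | i
      · have h2 : ‖conj (V none)⁻¹‖ = kap := by
          rw [Complex.norm_conj, hVn, norm_inv, hw0n, inv_inv]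
        have h1 := norm_ev_le (z := conj (V none)⁻¹) (by rw [h2]; exact hkap1) g
        rw [h2, ← hC5] at h1
        linarith
      · rw [Finset.some_mem_insertNone, hOm] at hj
        rw [hVs, hconj, ← evr_out hj]
        have h1 := hSgi i
        have h2 : 0 ≤ C5 * ‖g‖ := by positivity
        linarith
  refine hmain.trans ?_
  rw [← hSf, ← hSg, mul_assoc]
  refine mul_le_mul_of_nonneg_left ?_ hK.le
  have h1 : C5 * ‖f‖ + Sf + ‖f‖ ≤ (C5 + 1) * (‖f‖ + Sf) := by nlinarith [norm_nonneg f]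
  have h2 : C5 * ‖g‖ + Sg' + ‖g‖ ≤ (C5 + 1) * (‖g‖ + Sg') := by nlinarith [norm_nonneg g]
  calc (C5 * ‖f‖ + Sf + ‖f‖) * (C5 * ‖g‖ + Sg' + ‖g‖) ≤
        ((C5 + 1) * (‖f‖ + Sf)) * ((C5 + 1) * (‖g‖ + Sg')) :=
      mul_le_mul h1 h2 (by positivity) (by positivity)
    _ = _ := by ring

private theorem inj_loc {phi : ℂ → ℂ} {t : ℂ} (h : AnalyticAt ℂ phi t) (hd : deriv phi t ≠ 0) :
    ∃ s > 0, ∀ a ∈ ball t s, ∀ b ∈ ball t s, phi a = phi b → a = b := by
  obtain ⟨g, hg⟩ : ∃ g : ℂ → ℂ, ∀ᶠ x in 𝓝 t, g (phi x) = x :=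
    ⟨h.hasStrictDerivAt.localInverse _ _ _ hd, h.hasStrictDerivAt.eventually_left_inverse hd⟩
  obtain ⟨s, hs, h1⟩ := Metric.eventually_nhds_iff_ball.1 hg
  refine ⟨s, hs, fun a ha b hb hab => ?_⟩
  rw [← h1 a ha, ← h1 b hb, hab]

private theorem sum_le_branch {k n : ℕ} {z : Fin k → ℂ} {w : Fin n → ℂ}
    (h : ∀ i, ∃ j, z i = w j) (f : Hardy) :
    ‖f‖ + ∑ i, ‖evr (z i) f‖ ≤ ((k : ℝ) + 1) * (‖f‖ + ∑ j, ‖evr (w j) f‖) := by
  obtain ⟨S, hS⟩ : ∃ S : ℝ, S = ∑ j, ‖evr (w j) f‖ := ⟨_, rfl⟩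
  have h0 : 0 ≤ S := by rw [hS]; exact Finset.sum_nonneg fun _ _ => norm_nonneg _
  have h1 : ∀ i, ‖evr (z i) f‖ ≤ S := by
    intro i
    obtain ⟨j, hj⟩ := h i
    rw [hj, hS]
    exact Finset.single_le_sum (f := fun j => ‖evr (w j) f‖) (fun _ _ => norm_nonneg _)
      (Finset.mem_univ j)
  have h2 : ∑ i, ‖evr (z i) f‖ ≤ (k : ℝ) * S := by
    refine (Finset.sum_le_sum fun i _ => h1 i).trans ?_
    simp
  rw [← hS]
  have h3 : 0 ≤ (k : ℝ) * ‖f‖ := by positivity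
  nlinarith [norm_nonneg f]

theorem form_pt {phi : ℂ → ℂ} (hphi : AnalyticOnNhd ℂ phi (sphere 0 1)) (hNC : NC phi) {Phi : CT}
    (hPhi : ∀ x, Phi x = phi (e x)) {q : ℂ} (hqJ : q ∈ J phi)
    (hq : ∀ z ∈ sphere (0 : ℂ) 1, phi z = q → deriv phi z ≠ 0) (B : Br phi q) :
    ∃ C s : ℝ, 0 < s ∧ ∀ l ∈ ball q s, l ∉ Sg phi → ∀ f g : Hardy,
      ‖inner ℂ g ((resolvent (T Phi) l - T (resolvent Phi l)) f)‖ ≤
        C * ((‖f‖ + ∑ j, ‖evr (B.g j l) f‖) * (‖g‖ + ∑ j, ‖evr (B.g j l) g‖)) := by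
  obtain ⟨rho, d, m, M, c0, x, k, hrho, hd, hd1, hm, hc0, hfz⟩ := exists_fz_sep hphi hNC hq
  obtain ⟨C0, eta, hC0, heta, hWH⟩ := hasWH (M := M) hd hd1 hm x
  obtain ⟨kap, hkap⟩ : ∃ kap : ℝ, kap = Real.exp (-(eta / 2)) := ⟨_, rfl⟩
  have hkap0 : 0 < kap := by rw [hkap]; exact Real.exp_pos _
  have hkap1 : kap < 1 := by
    rw [hkap, Real.exp_lt_one_iff]
    linarith
  have hk1 : 1 < kap⁻¹ := (one_lt_inv₀ hkap0).2 hkap1
  obtain ⟨de, hde⟩ : ∃ de : ℝ, de = min ((1 - kap) / 2) ((kap⁻¹ - 1) / 2) := ⟨_, rfl⟩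
  have hde0 : 0 < de := by
    rw [hde]
    exact lt_min (by linarith) (by linarith)
  have hde1 : de ≤ (1 - kap) / 2 := by rw [hde]; exact min_le_left _ _
  have hde2 : de ≤ (kap⁻¹ - 1) / 2 := by rw [hde]; exact min_le_right _ _
  obtain ⟨s0, hs0⟩ : ∃ s0 : ℝ, s0 = min de c0 := ⟨_, rfl⟩
  have hs00 : 0 < s0 := by rw [hs0]; exact lt_min hde0 hc0
  have hs0d : s0 ≤ de := by rw [hs0]; exact min_le_left _ _
  have hs0c : s0 ≤ c0 := by rw [hs0]; exact min_le_right _ _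
  have hs01 : s0 ≤ 1 := by linarith
  obtain ⟨K, hK, hfix⟩ := fix_sum hC0 heta hkap0 hkap1 hkap.ge hs00 hs01 k
  obtain ⟨zq, psiq, -, hq2, -, hq4, hq5, hq6, -⟩ := hfz q (mem_ball_self hrho)
  have hzqs : ∀ i, zq i ∈ sphere (0 : ℂ) 1 := fun i => by
    rw [mem_sphere_zero_iff_norm]
    exact hq5 rfl i
  -- the radius of injectivity
  have hinj := fun i => inj_loc (hphi (zq i) (hzqs i)) (hq (zq i) (hzqs i) (hq4 i).2)
  choose sr hsr hsi using hinj
  obtain ⟨dl, hdl0, hdls⟩ : ∃ dl > 0, ∀ i, dl ≤ sr i := by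
    have h1 : ∀ᶠ t : ℝ in 𝓝[>] 0, ∀ i, t < sr i := by
      rw [Filter.eventually_all]
      intro i
      exact mem_nhdsWithin_of_mem_nhds (gt_mem_nhds (hsr i))
    obtain ⟨t, ht1, ht2⟩ := (h1.and self_mem_nhdsWithin).exists
    exact ⟨t, ht2, fun i => (ht1 i).le⟩
  have hcov : ∀ i, ∃ j, zq i = B.g j q := by
    intro i
    obtain ⟨j, hj⟩ := B.cov (zq i) (hzqs i) (by rw [(hq4 i).2]; exact mem_ball_self B.R_pos)
    rw [(hq4 i).2] at hj
    exact ⟨j, hj⟩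
  have hcg : ∀ᶠ l in 𝓝 q, ∀ j, B.g j l ∈ ball (B.g j q) dl := by
    rw [Filter.eventually_all]
    intro j
    have h1 : ContinuousAt (B.g j) q :=
      ((B.diff j).differentiableAt (ball_mem_nhds q B.R_pos)).continuousAt
    exact h1.eventually (ball_mem_nhds _ hdl0)
  obtain ⟨r3, hr30, hr3⟩ := Metric.eventually_nhds_iff_ball.1 hcg
  obtain ⟨rho1, hrho1⟩ : ∃ rho1 : ℝ, rho1 = min (min rho (m * de ^ k)) (min (m * dl ^ k)
      (min r3 B.R)) := ⟨_, rfl⟩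
  have hrho10 : 0 < rho1 := by
    rw [hrho1]
    have := B.R_pos
    exact lt_min (lt_min hrho (by positivity)) (lt_min (by positivity) (lt_min hr30 this))
  have hr1 : rho1 ≤ rho := by rw [hrho1]; exact (min_le_left _ _).trans (min_le_left _ _)
  have hr2 : rho1 ≤ m * de ^ k := by rw [hrho1]; exact (min_le_left _ _).trans (min_le_right _ _)
  have hr4 : rho1 ≤ m * dl ^ k := by rw [hrho1]; exact (min_le_right _ _).trans (min_le_left _ _)
  have hr5 : rho1 ≤ r3 := by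
    rw [hrho1]
    exact (min_le_right _ _).trans ((min_le_right _ _).trans (min_le_left _ _))
  have hr6 : rho1 ≤ B.R := by
    rw [hrho1]
    exact (min_le_right _ _).trans ((min_le_right _ _).trans (min_le_right _ _))
  refine ⟨K * (((k : ℝ) + 1) * ((k : ℝ) + 1)), rho1, hrho10, ?_⟩
  intro l hl hlS f g
  have hlJ : l ∉ J phi := fun h => hlS (Or.inl h)
  have hlw : wd phi l = 0 := by
    by_contra h
    exact hlS (Or.inr h)
  have hl1 : l ∈ ball q rho := ball_subset_ball hr1 hl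
  have e5 : ‖l - q‖ < rho1 := by
    rw [← dist_eq_norm]
    exact hl
  obtain ⟨z, psi, h1, h2, h3, h4, -, h5, h6⟩ := hfz l hl1
  have hpsi0 : ∀ w ∈ ann d, psi w ≠ 0 := fun w hw h0 => by
    have := (h2 w hw).1
    rw [h0, norm_zero] at this
    linarith
  have hpc : Continuous fun t : UnitAddCircle => psi (e t) :=
    h1.continuousOn.comp_continuous continuous_e fun t => e_mem_ann hd t
  obtain ⟨Psi, hPsi⟩ : ∃ Psi : CT, ∀ t, Psi t = psi (e t) := ⟨⟨_, hpc⟩, fun _ => rfl⟩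
  have hsym : Phi - algebraMap ℂ CT l = Psi * ∏ i, (fourier 1 - algebraMap ℂ CT (z i)) := by
    ext t
    have e1 := h5 (e t) (e_mem_ann hd t)
    rw [ContinuousMap.sub_apply, ContinuousMap.mul_apply, ContinuousMap.coe_prod,
      Finset.prod_apply, hPhi, hPsi]
    simp only [ContinuousMap.sub_apply, fourier_one_apply]
    exact e1
  have hcard : x + ((Finset.univ.filter fun i => ‖z i‖ < 1).card : ℤ) = 0 := by
    have e1 := wd_of_fac hd hlJ h1 hpsi0 h3 h4 h5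
    rw [hlw] at e1
    exact_mod_cast e1.symm
  have hne : ∀ i, ‖z i‖ ≠ 1 := fun i h => hlJ ⟨z i, by simpa using h, (h4 i).2⟩
  -- every zero is close to a zero of `phi - q`
  have hnear : ∀ t : ℝ, 0 < t → rho1 ≤ m * t ^ k → ∀ i, ∃ j, ‖z i - zq j‖ < t := by
    intro t ht hrt i
    by_contra hcon
    push Not at hcon
    have e1 := hq6 (z i) (h4 i).1
    rw [(h4 i).2] at e1
    have e3 : t ^ k ≤ ∏ j, ‖z i - zq j‖ := by
      have e4 : t ^ k = ∏ _j : Fin k, t := by simp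
      rw [e4]
      exact Finset.prod_le_prod (fun _ _ => ht.le) fun j _ => hcon j
    have e4 : m * t ^ k ≤ ‖l - q‖ := by
      rw [e1, norm_mul, norm_prod]
      exact mul_le_mul (hq2 (z i) (h4 i).1).1 e3 (by positivity) (norm_nonneg _)
    linarith
  have hclose : ∀ i, |1 - ‖z i‖| < de := by
    intro i
    obtain ⟨j, hj⟩ := hnear de hde0 hr2 i
    refine lt_of_le_of_lt ?_ hj
    have e3 := abs_norm_sub_norm_le (zq j) (z i)
    rw [hq5 rfl j, norm_sub_rev] at e3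
    exact e3
  have hbr : ∀ i, ∃ j, z i = B.g j l := by
    intro i
    obtain ⟨i', hi'⟩ := hnear dl hdl0 hr4 i
    obtain ⟨j, hj⟩ := hcov i'
    refine ⟨j, hsi i' (z i) ?_ (B.g j l) ?_ ?_⟩
    · rw [mem_ball, dist_eq_norm]
      exact hi'.trans_le (hdls i')
    · rw [hj]
      exact ball_subset_ball (hdls i') (hr3 l (ball_subset_ball hr5 hl) j)
    · rw [(h4 i).2, B.inv j l (ball_subset_ball hr6 hl)]
  have hmain := hfix Psi x (hWH psi h1 h2 h3 Psi hPsi) Phi l z hsym hcard hne (fun i => by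
    have e1 := abs_lt.1 (hclose i)
    constructor <;> linarith [e1.1, e1.2]) (fun i j hij => hs0c.trans (h6 i j hij)) f g
  refine hmain.trans ?_
  have hA := sum_le_branch hbr f
  have hB := sum_le_branch hbr g
  have hA0 : 0 ≤ ‖f‖ + ∑ i, ‖evr (z i) f‖ :=
    add_nonneg (norm_nonneg _) (Finset.sum_nonneg fun _ _ => norm_nonneg _)
  have hB0 : 0 ≤ ‖g‖ + ∑ i, ‖evr (z i) g‖ :=
    add_nonneg (norm_nonneg _) (Finset.sum_nonneg fun _ _ => norm_nonneg _)
  calc K * ((‖f‖ + ∑ i, ‖evr (z i) f‖) * (‖g‖ + ∑ i, ‖evr (z i) g‖)) ≤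
        K * ((((k : ℝ) + 1) * (‖f‖ + ∑ j, ‖evr (B.g j l) f‖)) *
          (((k : ℝ) + 1) * (‖g‖ + ∑ j, ‖evr (B.g j l) g‖))) := by
        refine mul_le_mul_of_nonneg_left ?_ hK.le
        exact mul_le_mul hA hB hB0 (hA0.trans hA)
    _ = K * (((k : ℝ) + 1) * ((k : ℝ) + 1)) * ((‖f‖ + ∑ j, ‖evr (B.g j l) f‖) *
          (‖g‖ + ∑ j, ‖evr (B.g j l) g‖)) := by ring

end Pool.Agent.TBirE
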