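import Pool.Agent.TBirE.MainE
import Pool.Agent.TBirE.DSo
import Pool.Agent.TBirE.Gl1
import Pool.Agent.TBirE.Gl2
import Pool.Agent.TBirE.Pt
import Pool.Agent.TBirM.Reg

/-!
# Splitting: the spectrum is the union of two closed sets with finite intersection, any contacts
-/

set_option autoImplicit false

open MeasureTheory Complex Set Filter Topology Metric AddCircle
open scoped ComplexConjugate InnerProductSpace ENNReal

namespace Pool.Agent.TBirE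

open Pool.Agent.TBir Pool.Agent.TBirG
open Pool.Agent.TBirS (Sg isCompact_Sg)
open Pool.Agent.TBirM (nc_of_Sg punct_ball isOpen_wd not_sub dec_one dec_sgn dec_abs)

theorem loc_E {phi : ℂ → ℂ} (hphi : AnalyticOnNhd ℂ phi (sphere 0 1)) (hNC : NC phi) {Phi : CT}
    (hPhi : ∀ x, Phi x = phi (e x)) {q : ℂ} (hqJ : q ∈ J phi)
    (hq : ∀ z ∈ sphere (0 : ℂ) 1, phi z = q → deriv phi z ≠ 0) {U1 U2 : Set ℂ} (o1 : IsOpen U1)
    (o2 : IsOpen U2) (hdis : Disjoint U1 U2)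
    (hcov : ∀ᶠ l in 𝓝 q, l ∈ Sg phi → l ≠ q → l ∈ U1 ∨ l ∈ U2) : LocE phi Phi U1 U2 q := by
  obtain ⟨B⟩ := exists_Br hphi hNC hq
  exact B.locE hphi hdis hcov (form_pt hphi hNC hPhi hqJ hq B)
    (B.glue hphi o1 o2 hdis hcov fun u hu hT => B.dsol hphi hu hT o1 o2 hdis hcov)

theorem main_closed {phi : ℂ → ℂ} (hphi : AnalyticOnNhd ℂ phi (sphere 0 1)) {A B : Set ℂ}
    (hA : IsClosed A) (hB : IsClosed B) (hAB : A ∪ B = Sg phi) (hQ : (A ∩ B).Finite)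
    (hA' : ¬ A ⊆ B) (hB' : ¬ B ⊆ A)
    (hq : ∀ q ∈ A ∩ B, ∀ z ∈ sphere (0 : ℂ) 1, phi z = q → deriv phi z ≠ 0) :
    ¬ BIR H2 (IsToeplitz phi) := by
  obtain ⟨a, ha, ha'⟩ := Set.not_subset.1 hA'
  obtain ⟨b, hb, hb'⟩ := Set.not_subset.1 hB'
  have haS : a ∈ Sg phi := by rw [← hAB]; exact Or.inl ha
  have hbS : b ∈ Sg phi := by rw [← hAB]; exact Or.inr hb
  have hNC : NC phi := nc_of_Sg hphi haS hbS fun h => ha' (h ▸ hb)
  have hSc : IsClosed (Sg phi) := (isCompact_Sg hphi).isClosed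
  obtain ⟨A0, hA0⟩ : ∃ A0 : Set ℂ, A0 = A \ B := ⟨_, rfl⟩
  obtain ⟨B0, hB0⟩ : ∃ B0 : Set ℂ, B0 = B \ A := ⟨_, rfl⟩
  have cA : closure A0 ⊆ A := closure_minimal (by rw [hA0]; exact Set.sdiff_subset) hA
  have cB : closure B0 ⊆ B := closure_minimal (by rw [hB0]; exact Set.sdiff_subset) hB
  obtain ⟨A1, hA1⟩ : ∃ A1 : Set ℂ, A1 = closure A0 ∪ ((A ∩ B) \ closure B0) := ⟨_, rfl⟩
  obtain ⟨B1, hB1⟩ : ∃ B1 : Set ℂ, B1 = closure B0 := ⟨_, rfl⟩
  obtain ⟨Q1, hQ1⟩ : ∃ Q1 : Set ℂ, Q1 = closure A0 ∩ closure B0 := ⟨_, rfl⟩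
  have hQsub : Q1 ⊆ A ∩ B := by
    rw [hQ1]
    exact fun x hx => ⟨cA hx.1, cB hx.2⟩
  have hQ1f : Q1.Finite := hQ.subset hQsub
  have hA1c : IsClosed A1 := by
    rw [hA1]
    exact isClosed_closure.union (hQ.subset Set.sdiff_subset).isClosed
  have hB1c : IsClosed B1 := by rw [hB1]; exact isClosed_closure
  have hint : A1 ∩ B1 ⊆ Q1 := by
    rw [hA1, hB1, hQ1]
    rintro x ⟨h1 | h1, h2⟩
    · exact ⟨h1, h2⟩
    · exact absurd h2 h1.2
  have d1 : Disjoint (closure (A1 \ Q1)) (B1 \ Q1) := by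
    rw [Set.disjoint_left]
    intro x hx hx'
    exact hx'.2 (hint ⟨closure_minimal Set.sdiff_subset hA1c hx, hx'.1⟩)
  have d2 : Disjoint (A1 \ Q1) (closure (B1 \ Q1)) := by
    rw [Set.disjoint_left]
    intro x hx hx'
    exact hx.2 (hint ⟨hx.1, closure_minimal Set.sdiff_subset hB1c hx'⟩)
  obtain ⟨U1, U2, o1, o2, s1, s2, s3⟩ := separatedNhds_iff_disjoint.2
    (CompletelyNormalSpace.completely_normal d1 d2)
  have hcov : Sg phi \ Q1 ⊆ U1 ∪ U2 := by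
    rintro l ⟨hl, hlQ⟩
    rw [← hAB] at hl
    by_cases hlA : l ∈ A
    · by_cases hlB : l ∈ B
      · by_cases h : l ∈ closure B0
        · exact Or.inr (s2 ⟨by rw [hB1]; exact h, hlQ⟩)
        · exact Or.inl (s1 ⟨by rw [hA1]; exact Or.inr ⟨⟨hlA, hlB⟩, h⟩, hlQ⟩)
      · refine Or.inl (s1 ⟨?_, hlQ⟩)
        rw [hA1]
        exact Or.inl (subset_closure (by rw [hA0]; exact ⟨hlA, hlB⟩))
    · have hlB : l ∈ B := hl.resolve_left hlA
      refine Or.inr (s2 ⟨?_, hlQ⟩)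
      rw [hB1]
      exact subset_closure (by rw [hB0]; exact ⟨hlB, hlA⟩)
  have inA : ∀ l ∈ A \ B, l ∈ U1 := by
    rintro l ⟨h1, h2⟩
    refine s1 ⟨?_, fun h => h2 (hQsub h).2⟩
    rw [hA1]
    exact Or.inl (subset_closure (by rw [hA0]; exact ⟨h1, h2⟩))
  have inB : ∀ l ∈ B \ A, l ∈ U2 := by
    rintro l ⟨h1, h2⟩
    refine s2 ⟨?_, fun h => h2 (hQsub h).1⟩
    rw [hB1]
    exact subset_closure (by rw [hB0]; exact ⟨h1, h2⟩)
  have hcl : ∀ q ∈ Q1, q ∈ closure (Sg phi)ᶜ := by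
    intro q hqQ
    by_contra hcon
    rw [_root_.mem_closure_iff] at hcon
    push Not at hcon
    obtain ⟨O, hO, hqO, hOS⟩ := hcon
    have hOS' : O ⊆ Sg phi := by
      intro x hx
      by_contra h
      have : x ∈ O ∩ (Sg phi)ᶜ := ⟨hx, h⟩
      rw [hOS] at this
      exact this
    have hfin : ((A ∩ B) \ {q}).Finite := hQ.subset Set.sdiff_subset
    have hO2 : IsOpen (O ∩ ((A ∩ B) \ {q})ᶜ) := hO.inter hfin.isClosed.isOpen_compl
    obtain ⟨r, hr, hrO⟩ := Metric.isOpen_iff.1 hO2 q ⟨hqO, fun h => h.2 rfl⟩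
    have hP := punct_ball q hr
    rw [isPreconnected_closed_iff] at hP
    rw [hQ1] at hqQ
    have e1 : ((ball q r \ {q}) ∩ A).Nonempty := by
      obtain ⟨x, hx, hx'⟩ := _root_.mem_closure_iff.1 hqQ.1 (ball q r) isOpen_ball (mem_ball_self hr)
      rw [hA0] at hx'
      exact ⟨x, ⟨hx, fun h => hx'.2 (by
        rw [show x = q from h]
        exact cB hqQ.2)⟩, hx'.1⟩
    have e2 : ((ball q r \ {q}) ∩ B).Nonempty := by
      obtain ⟨x, hx, hx'⟩ := _root_.mem_closure_iff.1 hqQ.2 (ball q r) isOpen_ball (mem_ball_self hr)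
      rw [hB0] at hx'
      exact ⟨x, ⟨hx, fun h => hx'.2 (by
        rw [show x = q from h]
        exact cA hqQ.1)⟩, hx'.1⟩
    obtain ⟨x, ⟨hx1, hx2⟩, hx3⟩ := hP A B hA hB (fun x hx => by
      rw [hAB]
      exact hOS' (hrO hx.1).1) e1 e2
    exact (hrO hx1).2 ⟨hx3, hx2⟩
  have hJ : ∀ q ∈ Q1, q ∈ J phi := by
    intro q hqQ
    by_contra hqJ
    have hqS : q ∈ Sg phi := by
      rw [← hAB]
      exact Or.inl (hQsub hqQ).1
    have hw : wd phi q ≠ 0 := hqS.resolve_left hqJ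
    have h1 := wd_loc hphi hqJ
    obtain ⟨l, hl, hlS⟩ := (mem_closure_iff_frequently.1 (hcl q hqQ)).and_eventually h1 |>.exists
    exact hl (Or.inr (by rw [hlS.2]; exact hw))
  have hreg : ∀ q ∈ Q1, ∀ z ∈ sphere (0 : ℂ) 1, phi z = q → deriv phi z ≠ 0 :=
    fun q hqQ => hq q (hQsub hqQ)
  refine main_splitE hphi hNC hQ1f hcl hreg o1 o2 s3 hcov (fun Phi hPhi q hqQ => ?_)
    ⟨a, inA a ⟨ha, ha'⟩, haS, fun h => ha' (hQsub h).2⟩
    ⟨b, inB b ⟨hb, hb'⟩, hbS, fun h => hb' (hQsub h).1⟩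
  refine loc_E hphi hNC hPhi (hJ q hqQ) (hreg q hqQ) o1 o2 s3 ?_
  have hfin : (Q1 \ {q}).Finite := hQ1f.subset Set.sdiff_subset
  filter_upwards [hfin.isClosed.isOpen_compl.mem_nhds (show q ∈ (Q1 \ {q})ᶜ from fun h => h.2 rfl)]
    with l hl hlS hlq
  exact hcov ⟨hlS, fun h => hl ⟨h, hlq⟩⟩

end Pool.Agent.TBirE
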