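import Pool.Agent.TBirE.Bas

/-!
# Basic estimates for the branches

Paper proof. `g j` is differentiable on `ball q R`, hence analytic; `‖g j q‖ = 1`, so near `q` the quotient
`g j l / g j q` is near `1` (real part positive) and `L j` is analytic near `q`, `exp (L j l) = g j l / g j q`
(`Complex.exp_log`), `L j q = 0`, `deriv (L j) q = a j`. `phi (g j l) = l` near `q` and the chain rule give
`deriv phi (g j q) * deriv (g j) q = 1`, so `a j ≠ 0`. The bounds are Taylor estimates (an analytic function is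
`C^1`, its derivative is Lipschitz on a small closed ball; mean value inequality). `(L j l).re = log ‖g j l‖`.
Injectivity of `L j` near `q`: `‖L l - L l' - a j (l - l')‖ ≤ (‖a j‖ / 2) ‖l - l'‖` on a small ball. As there are
finitely many `j`, one radius and one constant work for all.
-/

set_option autoImplicit false

open MeasureTheory Complex Set Filter Topology Metric AddCircle
open scoped ComplexConjugate InnerProductSpace ENNReal

namespace Pool.Agent.TBirE

open Pool.Agent.TBir Pool.Agent.TBirG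

private theorem bas_loc {g phi : ℂ → ℂ} {q : ℂ} {R : ℝ} (hR : 0 < R)
    (hg : DifferentiableOn ℂ g (ball q R)) (hq : ‖g q‖ = 1) (hphi : AnalyticAt ℂ phi (g q))
    (hinv : ∀ l ∈ ball q R, phi (g l) = l) {L : ℂ → ℂ} (hL : L = fun l => Complex.log (g l / g q)) :
    deriv g q / g q ≠ 0 ∧ ∃ r K : ℝ, 0 < r ∧ 0 < K ∧ (∀ l ∈ ball q r, AnalyticAt ℂ L l) ∧
      InjOn L (ball q r) ∧ L q = 0 ∧ ∀ l ∈ ball q r, g l = g q * Complex.exp (L l) ∧ ‖L l‖ ≤ 1 ∧
        ‖deriv L l - deriv g q / g q‖ ≤ K * ‖l - q‖ ∧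
        ‖L l - deriv g q / g q * (l - q)‖ ≤ K * ‖l - q‖ ^ 2 := by
  have hg0 : g q ≠ 0 := by
    intro h
    rw [h, norm_zero] at hq
    exact zero_ne_one hq
  have hgan : AnalyticAt ℂ g q := hg.analyticAt (ball_mem_nhds q hR)
  have hdg : deriv g q ≠ 0 := by
    intro h0
    have h1 : HasDerivAt (fun l => phi (g l)) (deriv phi (g q) * deriv g q) q :=
      hphi.differentiableAt.hasDerivAt.comp q hgan.differentiableAt.hasDerivAt
    have h2 : HasDerivAt (fun l => phi (g l)) 1 q := by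
      refine (hasDerivAt_id q).congr_of_eventuallyEq ?_
      filter_upwards [ball_mem_nhds q hR] with l hl
      exact hinv l hl
    have h3 := h1.unique h2
    rw [h0, mul_zero] at h3
    exact zero_ne_one h3
  have hane : deriv g q / g q ≠ 0 := div_ne_zero hdg hg0
  have hLq : L q = 0 := by
    rw [hL]
    simp [div_self hg0]
  have hslit : g q / g q ∈ Complex.slitPlane := by
    rw [div_self hg0]
    exact Complex.one_mem_slitPlane
  have hLan : AnalyticAt ℂ L q := by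
    rw [hL]
    exact (hgan.div analyticAt_const hg0).clog hslit
  have hLd : deriv L q = deriv g q / g q := by
    have h1 : HasDerivAt L (deriv g q / g q / (g q / g q)) q := by
      rw [hL]
      exact (hgan.differentiableAt.hasDerivAt.div_const (g q)).clog hslit
    rw [h1.deriv, div_self hg0, div_one]
  obtain ⟨a, ha⟩ : ∃ a : ℂ, a = deriv g q / g q := ⟨_, rfl⟩
  rw [← ha] at hane hLd ⊢
  have hdL : AnalyticAt ℂ (deriv L) q := hLan.deriv
  obtain ⟨K, hK, hK'⟩ := hdL.differentiableAt.hasDerivAt.isBigO_sub.exists_pos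
  rw [Asymptotics.isBigOWith_iff] at hK'
  have hinj : ∃ G : ℂ → ℂ, ∀ᶠ x in 𝓝 q, G (L x) = x := by
    have h1 : deriv L q ≠ 0 := by
      rw [hLd]
      exact hane
    exact ⟨hLan.hasStrictDerivAt.localInverse _ _ _ h1,
      hLan.hasStrictDerivAt.eventually_left_inverse h1⟩
  obtain ⟨G, hG⟩ := hinj
  have h0 : ∀ᶠ l in 𝓝 q, g l ≠ 0 := hgan.continuousAt.eventually_ne hg0
  have h3 : ∀ᶠ l in 𝓝 q, ‖L l‖ < 1 := by
    have h4 : ContinuousAt (fun l => ‖L l‖) q := hLan.continuousAt.norm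
    refine h4.eventually_lt_const ?_
    show ‖L q‖ < 1
    rw [hLq, norm_zero]
    exact one_pos
  obtain ⟨r, hr, H⟩ := Metric.eventually_nhds_iff_ball.1
    (hLan.eventually_analyticAt.and (h0.and (h3.and (hG.and hK'))))
  refine ⟨hane, r, K, hr, hK, fun l hl => (H l hl).1, ?_, hLq, fun l hl => ?_⟩
  · intro x hx y hy hxy
    rw [← (H x hx).2.2.2.1, ← (H y hy).2.2.2.1, hxy]
  · obtain ⟨b1, b2, b3, b4, b5⟩ := H l hl
    refine ⟨?_, b3.le, ?_, ?_⟩
    · have e1 : Complex.exp (L l) = g l / g q := by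
        rw [hL]
        exact Complex.exp_log (div_ne_zero b2 hg0)
      rw [e1, mul_div_cancel₀ _ hg0]
    · rw [← hLd]
      exact b5
    · have hsub : closedBall q ‖l - q‖ ⊆ ball q r := by
        intro w hw
        rw [mem_ball, dist_eq_norm] at hl
        rw [mem_closedBall] at hw
        rw [mem_ball]
        exact lt_of_le_of_lt hw hl
      have hder : ∀ w ∈ closedBall q ‖l - q‖,
          HasDerivWithinAt (fun w => L w - a * (w - q)) (deriv L w - a) (closedBall q ‖l - q‖) w := by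
        intro w hw
        have c1 := (H w (hsub hw)).1.differentiableAt.hasDerivAt
        have c2 : HasDerivAt (fun w => a * (w - q)) (a * 1) w :=
          ((hasDerivAt_id w).sub_const q).const_mul a
        rw [mul_one] at c2
        exact (c1.sub c2).hasDerivWithinAt
      have hbd : ∀ w ∈ closedBall q ‖l - q‖, ‖deriv L w - a‖ ≤ K * ‖l - q‖ := by
        intro w hw
        have c1 := (H w (hsub hw)).2.2.2.2
        rw [hLd] at c1
        rw [mem_closedBall, dist_eq_norm] at hw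
        exact c1.trans (mul_le_mul_of_nonneg_left hw hK.le)
      have c3 := (convex_closedBall q ‖l - q‖).norm_image_sub_le_of_norm_hasDerivWithin_le hder hbd
        (mem_closedBall_self (norm_nonneg _)) (y := l) (by rw [mem_closedBall, dist_eq_norm])
      rw [hLq, sub_self, mul_zero, sub_zero, sub_zero] at c3
      calc ‖L l - a * (l - q)‖ ≤ K * ‖l - q‖ * ‖l - q‖ := c3
        _ = K * ‖l - q‖ ^ 2 := by ring

theorem Br.bas {phi : ℂ → ℂ} (hana : AnalyticOnNhd ℂ phi (sphere 0 1)) {q : ℂ} (B : Br phi q) :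
    (∀ j, B.a j ≠ 0) ∧ ∃ (r K : ℝ), 0 < r ∧ r ≤ B.R ∧ r ≤ 1 ∧ 0 < K ∧ ∀ j,
      AnalyticOnNhd ℂ (B.L j) (ball q r) ∧ B.L j q = 0 ∧ InjOn (B.L j) (ball q r) ∧
      ∀ l ∈ ball q r, B.g j l = B.g j q * Complex.exp (B.L j l) ∧
        (B.L j l).re = Real.log ‖B.g j l‖ ∧ (‖B.g j l‖ < 1 ↔ (B.L j l).re < 0) ∧
        (‖B.g j l‖ = 1 ↔ (B.L j l).re = 0) ∧ ‖B.L j l‖ ≤ 1 ∧
        ‖deriv (B.L j) l - B.a j‖ ≤ K * ‖l - q‖ ∧
        ‖B.L j l - B.a j * (l - q)‖ ≤ K * ‖l - q‖ ^ 2 := by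
  have hloc : ∀ j, deriv (B.g j) q / B.g j q ≠ 0 ∧ ∃ r K : ℝ, 0 < r ∧ 0 < K ∧
      (∀ l ∈ ball q r, AnalyticAt ℂ (B.L j) l) ∧
      InjOn (B.L j) (ball q r) ∧ B.L j q = 0 ∧
      ∀ l ∈ ball q r, B.g j l = B.g j q * Complex.exp (B.L j l) ∧ ‖B.L j l‖ ≤ 1 ∧
        ‖deriv (B.L j) l - deriv (B.g j) q / B.g j q‖ ≤ K * ‖l - q‖ ∧
        ‖B.L j l - deriv (B.g j) q / B.g j q * (l - q)‖ ≤ K * ‖l - q‖ ^ 2 := fun j =>
    bas_loc B.R_pos (B.diff j) (B.norm_q j)
      (hana _ (by rw [mem_sphere_zero_iff_norm]; exact B.norm_q j)) (B.inv j) rfl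
  refine ⟨fun j => (hloc j).1, ?_⟩
  choose _ r K hr hK h1 h2 h3 h4 using hloc
  obtain ⟨r0, hr0, hr0'⟩ : ∃ r0 : ℝ, 0 < r0 ∧ ∀ j, r0 ≤ r j := by
    rcases isEmpty_or_nonempty (Fin B.k) with he | he
    · exact ⟨1, one_pos, fun j => he.elim j⟩
    · obtain ⟨j0, hj0⟩ := Finite.exists_min r
      exact ⟨r j0, hr j0, hj0⟩
  obtain ⟨K0, hK0, hK0'⟩ : ∃ K0 : ℝ, 0 < K0 ∧ ∀ j, K j ≤ K0 := by
    rcases isEmpty_or_nonempty (Fin B.k) with he | he
    · exact ⟨1, one_pos, fun j => he.elim j⟩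
    · obtain ⟨j0, hj0⟩ := Finite.exists_max K
      exact ⟨K j0, hK j0, hj0⟩
  have hsub : ∀ j, ball q (min r0 (min B.R 1)) ⊆ ball q (r j) := fun j =>
    ball_subset_ball ((min_le_left _ _).trans (hr0' j))
  refine ⟨min r0 (min B.R 1), K0, lt_min hr0 (lt_min B.R_pos one_pos),
    (min_le_right _ _).trans (min_le_left _ _), (min_le_right _ _).trans (min_le_right _ _), hK0,
    fun j => ⟨fun l hl => h1 j l (hsub j hl), h3 j, (h2 j).mono (hsub j), fun l hl => ?_⟩⟩
  obtain ⟨c1, c2, c3, c4⟩ := h4 j l (hsub j hl)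
  have e1 : ‖B.g j l‖ = Real.exp (B.L j l).re := by
    have e2 := congrArg norm c1
    rw [norm_mul, B.norm_q j, one_mul, Complex.norm_exp] at e2
    exact e2
  refine ⟨c1, ?_, ?_, ?_, c2, ?_, ?_⟩
  · rw [e1, Real.log_exp]
  · rw [e1]
    exact Real.exp_lt_one_iff
  · rw [e1]
    exact Real.exp_eq_one_iff _
  · exact c3.trans (mul_le_mul_of_nonneg_right (hK0' j) (norm_nonneg _))
  · exact c4.trans (mul_le_mul_of_nonneg_right (hK0' j) (by positivity))

end Pool.Agent.TBirE
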