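import Pool.Agent.TBirE.PRes

/-!
# Dominated convergence for the truncated weights
-/

set_option autoImplicit false

open MeasureTheory Complex Set Filter Topology Metric AddCircle
open scoped ComplexConjugate InnerProductSpace ENNReal
open Pool.Lib (dbar)

namespace Pool.Agent.TBirE

open Pool.Agent.TBir
open Pool.Agent.TBirM (kap_tendsto ae_notMem)
open Pool.Agent.TBirS (Sg isCompact_Sg isOpen_compl_Sg off_Sg PBd_rT PBd_rS comm_aeval res_mul_sq
  norm_le_of_inner FF_le resolvent_apply)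

theorem CutE.tendsto_w {phi : ℂ → ℂ} {U1 U2 : Set ℂ} (K : CutE phi U1 U2) {l : ℂ} (hl : l ∉ K.Q) :
    ∀ᶠ n : ℕ in atTop, K.w n l = dbar K.chi l := by
  filter_upwards [kap_tendsto hl] with n hn
  unfold CutE.w
  rw [hn, one_mul]

theorem CutE.norm_w_le {phi : ℂ → ℂ} {U1 U2 : Set ℂ} (K : CutE phi U1 U2) (n : ℕ) (l : ℂ) :
    ‖K.w n l‖ ≤ ‖dbar K.chi l‖ := by
  unfold CutE.w
  rw [norm_mul]
  exact mul_le_of_le_one_left (norm_nonneg _) (norm_kap_le _ _ _)

theorem conv {phi : ℂ → ℂ} {U1 U2 : Set ℂ} (K : CutE phi U1 U2) {E : Type*}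
    [NormedAddCommGroup E] [NormedSpace ℂ E] {F : ℕ → ℂ → E} {G : ℂ → E} {C : ℝ}
    (hF : ∀ n, ∀ l ∈ K.V, l ∉ K.Q → ‖F n l‖ ≤ C)
    (hlim : ∀ l, l ∉ K.Q → Tendsto (fun n => F n l) atTop (𝓝 (G l)))
    (hm : ∀ n, AEStronglyMeasurable (fun l => K.w n l • F n l) volume) :
    Integrable (fun l => dbar K.chi l • G l) ∧
      Tendsto (fun n => ∫ l, K.w n l • F n l) atTop (𝓝 (∫ l, dbar K.chi l • G l)) := by
  have hb : ∀ n l, l ∉ K.Q → ‖K.w n l • F n l‖ ≤ ‖dbar K.chi l‖ * |C| := by
    intro n l hl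
    rw [norm_smul]
    by_cases h0 : dbar K.chi l = 0
    · have : K.w n l = 0 := by
        unfold CutE.w
        rw [h0, mul_zero]
      rw [this, norm_zero, zero_mul]
      positivity
    · exact mul_le_mul (K.norm_w_le n l) ((hF n l (Or.inl h0) hl).trans (le_abs_self _))
        (norm_nonneg _) (norm_nonneg _)
  have hlim' : ∀ l, l ∉ K.Q → Tendsto (fun n => K.w n l • F n l) atTop
      (𝓝 (dbar K.chi l • G l)) := by
    intro l hl
    refine Tendsto.smul ?_ (hlim l hl)
    exact tendsto_const_nhds.congr' ((K.tendsto_w hl).mono fun n hn => hn.symm)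
  have hbI : Integrable fun l => ‖dbar K.chi l‖ * |C| := K.int.norm.mul_const _
  refine ⟨?_, ?_⟩
  · refine Integrable.mono' hbI (aestronglyMeasurable_of_tendsto_ae atTop hm ?_) ?_
    · filter_upwards [ae_notMem K.Q] with l hl using hlim' l hl
    · filter_upwards [ae_notMem K.Q] with l hl
      exact le_of_tendsto (hlim' l hl).norm (Eventually.of_forall fun n => hb n l hl)
  · refine tendsto_integral_of_dominated_convergence (fun l => ‖dbar K.chi l‖ * |C|) hm hbI ?_ ?_
    · intro n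
      filter_upwards [ae_notMem K.Q] with l hl using hb n l hl
    · filter_upwards [ae_notMem K.Q] with l hl using hlim' l hl

end Pool.Agent.TBirE
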