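import Pool.Agent.TBirE.PSt
import Pool.Agent.TBirR.Grow

/-!
# The resolvent times a polynomial in the operator is bounded where the cutoff varies

As Pool/Agent/TBirM/ResN.lean; near the exceptional points the resolvent grows at most like a power of the distance
(`grow` of TBirR), which is compensated by a high power of `T - q`.
-/

set_option autoImplicit false

open MeasureTheory Complex Set Filter Topology Metric AddCircle
open scoped ComplexConjugate InnerProductSpace ENNReal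
open Pool.Lib (dbar)

namespace Pool.Agent.TBirE

open Pool.Agent.TBir Pool.Agent.TBirG
open Pool.Agent.TBirS (Sg PBd_rT)

/-- The set where the cutoff is not locally `0` or `1`. -/
def CutE.V {phi : ℂ → ℂ} {U1 U2 : Set ℂ} (K : CutE phi U1 U2) : Set ℂ :=
  {l | dbar K.chi l ≠ 0 ∨ (K.chi l ≠ 0 ∧ K.chi l ≠ 1)}

/-- The operator `prod (T - q)^m`. -/
noncomputable def Nqp (Phi : CT) (Q : Finset ℂ) (m : ℕ) : Hardy →L[ℂ] Hardy :=
  Polynomial.aeval (T Phi) (∏ q ∈ Q, (Polynomial.X - Polynomial.C q) ^ m)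

/-- The resolvent times `prod (T - q)^m` is bounded where the cutoff varies. -/
def CutE.Bd {phi : ℂ → ℂ} {U1 U2 : Set ℂ} (K : CutE phi U1 U2) (Phi : CT) (m : ℕ) : Prop :=
  ∃ C : ℝ, ∀ l ∈ K.V, l ∉ K.Q → ‖resolvent (T Phi) l * Nqp Phi K.Q m‖ ≤ C

private theorem res_mul {A : Hardy →L[ℂ] Hardy} {l : ℂ} (q : ℂ) (h : l ∈ resolventSet ℂ A) :
    resolvent A l * (A - algebraMap ℂ (Hardy →L[ℂ] Hardy) q) =
      (l - q) • resolvent A l - 1 := by
  have hu : IsUnit (algebraMap ℂ (Hardy →L[ℂ] Hardy) l - A) := h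
  have h1 : resolvent A l * (algebraMap ℂ (Hardy →L[ℂ] Hardy) l - A) = 1 :=
    Ring.inverse_mul_cancel _ hu
  have h2 : A - algebraMap ℂ (Hardy →L[ℂ] Hardy) q = (l - q) • (1 : Hardy →L[ℂ] Hardy) -
      (algebraMap ℂ (Hardy →L[ℂ] Hardy) l - A) := by
    rw [Algebra.algebraMap_eq_smul_one, Algebra.algebraMap_eq_smul_one, sub_smul]
    abel
  rw [h2, mul_sub, h1, mul_smul_comm, mul_one]

private theorem res_pow (A : Hardy →L[ℂ] Hardy) (q : ℂ) (m : ℕ) : ∃ D : ℝ, ∀ l,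
    l ∈ resolventSet ℂ A → ‖l - q‖ ≤ 1 →
      ‖resolvent A l * (A - algebraMap ℂ (Hardy →L[ℂ] Hardy) q) ^ m‖ ≤
        ‖l - q‖ ^ m * ‖resolvent A l‖ + D := by
  induction m with
  | zero =>
    refine ⟨0, fun l _ _ => ?_⟩
    rw [pow_zero, mul_one, pow_zero, one_mul, add_zero]
  | succ m ih =>
    obtain ⟨D, hD⟩ := ih
    refine ⟨|D| + ‖(A - algebraMap ℂ (Hardy →L[ℂ] Hardy) q) ^ m‖, fun l hl h1 => ?_⟩
    have hc : (A - algebraMap ℂ (Hardy →L[ℂ] Hardy) q) ^ (m + 1) =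
        (A - algebraMap ℂ (Hardy →L[ℂ] Hardy) q) * (A - algebraMap ℂ (Hardy →L[ℂ] Hardy) q) ^ m :=
      pow_succ' _ _
    rw [hc, ← mul_assoc, res_mul q hl, sub_mul, one_mul, smul_mul_assoc]
    refine (norm_sub_le _ _).trans ?_
    rw [norm_smul]
    have h2 := mul_le_mul_of_nonneg_left (hD l hl h1) (norm_nonneg (l - q))
    have h3 : ‖l - q‖ * D ≤ |D| := by
      calc ‖l - q‖ * D ≤ ‖l - q‖ * |D| :=
            mul_le_mul_of_nonneg_left (le_abs_self D) (norm_nonneg _)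
        _ ≤ 1 * |D| := mul_le_mul_of_nonneg_right h1 (abs_nonneg D)
        _ = |D| := one_mul _
    have h4 : ‖l - q‖ * (‖l - q‖ ^ m * ‖resolvent A l‖ + D) =
        ‖l - q‖ ^ (m + 1) * ‖resolvent A l‖ + ‖l - q‖ * D := by ring
    rw [h4] at h2
    linarith

private theorem res_loc {phi : ℂ → ℂ} (hphi : AnalyticOnNhd ℂ phi (sphere 0 1)) (hNC : NC phi)
    {Phi : CT} (hPhi : ∀ x, Phi x = phi (e x)) (q : ℂ) :
    ∃ (N : ℕ) (C s : ℝ), 0 ≤ C ∧ 0 < s ∧ ∀ c : ℝ, 0 < c → ∀ p : ℕ, ∀ l ∈ ball q s, l ≠ q →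
      (∀ l' ∈ Sg phi, c * ‖l - q‖ ^ p ≤ ‖l' - l‖) →
      l ∈ resolventSet ℂ (T Phi) ∧ ‖l - q‖ ^ (p * N) * ‖resolvent (T Phi) l‖ ≤ C * c⁻¹ ^ N := by
  obtain ⟨rho, C, N, hrho, hC, h⟩ := Pool.Agent.TBirR.grow hphi hNC hPhi q
  refine ⟨N, C, rho, hC, hrho, fun c hc p l hl hlq hd => ?_⟩
  have ht : 0 < ‖l - q‖ := norm_pos_iff.2 (sub_ne_zero.2 hlq)
  have htp : 0 < ‖l - q‖ ^ p := pow_pos ht p
  have hS : l ∉ Sg phi := by
    intro hl'
    have h2 := hd l hl'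
    rw [sub_self, norm_zero] at h2
    have : 0 < c * ‖l - q‖ ^ p := by positivity
    linarith
  have hJ : l ∉ J phi := fun h => hS (Or.inl h)
  have hw : wd phi l = 0 := by
    by_contra h
    exact hS (Or.inr h)
  have hr1 := PBd_rT hphi hPhi l hS
  refine ⟨hr1, ?_⟩
  have hJn : (J phi).Nonempty := ⟨phi 1, 1, by simp, rfl⟩
  have hdist : c * ‖l - q‖ ^ p ≤ infDist l (J phi) := by
    refine (le_infDist hJn).2 fun y hy => ?_
    rw [dist_comm, dist_eq_norm]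
    exact hd y (Or.inl hy)
  have hi0 : 0 < infDist l (J phi) := lt_of_lt_of_le (by positivity) hdist
  have hu : IsUnit (algebraMap ℂ (Hardy →L[ℂ] Hardy) l - T Phi) := hr1
  have h1 : (algebraMap ℂ (Hardy →L[ℂ] Hardy) l - T Phi) * resolvent (T Phi) l = 1 :=
    Ring.mul_inverse_cancel _ hu
  have hR : ‖resolvent (T Phi) l‖ ≤ C * (infDist l (J phi))⁻¹ ^ N := by
    refine ContinuousLinearMap.opNorm_le_bound _ (by positivity) fun y => ?_
    have h2 := h l hl hJ (by rw [hw]; simp) (resolvent (T Phi) l y)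
    have h3 : (T Phi - l • (1 : Hardy →L[ℂ] Hardy)) (resolvent (T Phi) l y) = -y := by
      have h4 := congrArg (fun A : Hardy →L[ℂ] Hardy => A y) h1
      rw [Algebra.algebraMap_eq_smul_one] at h4
      change l • resolvent (T Phi) l y - T Phi (resolvent (T Phi) l y) = y at h4
      change T Phi (resolvent (T Phi) l y) - l • resolvent (T Phi) l y = -y
      rw [← neg_sub (l • resolvent (T Phi) l y), h4]
    rw [h3, norm_neg] at h2
    exact h2
  calc ‖l - q‖ ^ (p * N) * ‖resolvent (T Phi) l‖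
      ≤ ‖l - q‖ ^ (p * N) * (C * (c * ‖l - q‖ ^ p)⁻¹ ^ N) := by
        refine mul_le_mul_of_nonneg_left (hR.trans ?_) (by positivity)
        refine mul_le_mul_of_nonneg_left ?_ hC
        exact pow_le_pow_left₀ (by positivity) (inv_anti₀ (by positivity) hdist) N
    _ = C * c⁻¹ ^ N := by
        rw [mul_inv, mul_pow, inv_pow (‖l - q‖ ^ p), ← pow_mul]
        field_simp

private theorem bound_loc {phi : ℂ → ℂ} (hphi : AnalyticOnNhd ℂ phi (sphere 0 1)) (hNC : NC phi)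
    {Phi : CT} (hPhi : ∀ x, Phi x = phi (e x)) {U1 U2 : Set ℂ} (K : CutE phi U1 U2) {q : ℂ}
    (hq : q ∈ K.Q) : ∃ N : ℕ, ∀ m, N ≤ m →
    ∃ C : ℝ, ∀ᶠ l in 𝓝 q, l ≠ q → l ∈ K.V → l ∈ resolventSet ℂ (T Phi) ∧
      ‖resolvent (T Phi) l * Nqp Phi K.Q m‖ ≤ C := by
  obtain ⟨N, C1, s1, hC1, hs1, h1⟩ := res_loc hphi hNC hPhi q
  refine ⟨K.p * N, fun m hm => ?_⟩
  obtain ⟨D, hD⟩ := res_pow (T Phi) q m
  obtain ⟨p, hp⟩ : ∃ p : Polynomial ℂ, ∏ q ∈ K.Q, (Polynomial.X - Polynomial.C q) ^ m =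
      (Polynomial.X - Polynomial.C q) ^ m * p :=
    ⟨_, (Finset.mul_prod_erase K.Q (fun q => (Polynomial.X - Polynomial.C q) ^ m) hq).symm⟩
  have hN : Nqp Phi K.Q m = (T Phi - algebraMap ℂ (Hardy →L[ℂ] Hardy) q) ^ m *
      Polynomial.aeval (T Phi) p := by
    unfold Nqp
    rw [hp, map_mul, map_pow, map_sub, Polynomial.aeval_X, Polynomial.aeval_C]
  refine ⟨(C1 * K.c⁻¹ ^ N + D) * ‖Polynomial.aeval (T Phi) p‖, ?_⟩
  have hs : 0 < min s1 (min K.rho 1) :=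
    lt_min hs1 (lt_min K.rho_pos one_pos)
  filter_upwards [ball_mem_nhds q hs] with l hl hlq hV
  have hl1 : l ∈ ball q s1 := ball_subset_ball (min_le_left _ _) hl
  have hl3 : l ∈ ball q K.rho := ball_subset_ball ((min_le_right _ _).trans (min_le_left _ _)) hl
  have hl4 : ‖l - q‖ < 1 := (mem_ball_iff_norm.1 hl).trans_le
    ((min_le_right _ _).trans (min_le_right _ _))
  obtain ⟨hR1, hR2⟩ := h1 K.c K.c_pos K.p l hl1 hlq (K.loc q hq l hl3 hlq hV)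
  refine ⟨hR1, ?_⟩
  rw [hN, ← mul_assoc]
  refine (norm_mul_le _ _).trans (mul_le_mul_of_nonneg_right ?_ (norm_nonneg _))
  refine (hD l hR1 hl4.le).trans (add_le_add ?_ le_rfl)
  refine le_trans (mul_le_mul_of_nonneg_right ?_ (norm_nonneg _)) hR2
  exact pow_le_pow_of_le_one (norm_nonneg _) hl4.le hm

theorem CutE.V_subset {phi : ℂ → ℂ} {U1 U2 : Set ℂ} (K : CutE phi U1 U2) :
    K.V ⊆ tsupport K.chi := by
  rintro l (h | ⟨h, -⟩)
  · exact Pool.Lib.tsupport_dbar_subset _ (subset_tsupport _ h)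
  · exact subset_tsupport _ h

theorem CutE.V_off {phi : ℂ → ℂ} {U1 U2 : Set ℂ} (K : CutE phi U1 U2) {l : ℂ}
    (hl : l ∈ Sg phi) (hQ : l ∉ K.Q) : ∀ᶠ l' in 𝓝 l, l' ∉ K.V := by
  have key : ∀ c : ℂ, (c = 0 ∨ c = 1) → (∀ᶠ l' in 𝓝 l, K.chi l' = c) →
      ∀ᶠ l' in 𝓝 l, l' ∉ K.V := by
    intro c hc01 hc
    filter_upwards [hc.eventually_nhds] with l' hl'
    have h1 : K.chi =ᶠ[𝓝 l'] fun _ => c := hl'
    rintro (h | ⟨h, h'⟩)
    · apply h
      rw [Pool.Lib.dbar_congr h1, Pool.Lib.dbar_eq_zero (differentiableAt_const _)]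
    · rw [h1.self_of_nhds] at h h'
      rcases hc01 with h2 | h2
      · exact h h2
      · exact h' h2
  rcases K.cov l hl hQ with h | h
  · exact key 1 (Or.inr rfl) (K.one l hl h hQ)
  · exact key 0 (Or.inl rfl) (K.zero l hl h hQ)

theorem bound_V {phi : ℂ → ℂ} (hphi : AnalyticOnNhd ℂ phi (sphere 0 1)) (hNC : NC phi) {Phi : CT}
    (hPhi : ∀ x, Phi x = phi (e x)) {U1 U2 : Set ℂ} (K : CutE phi U1 U2) :
    ∃ m : ℕ, K.Bd Phi m := by
  have hex := fun q (hq : q ∈ K.Q) => bound_loc hphi hNC hPhi K hq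
  choose! N hN using hex
  obtain ⟨m, hm⟩ : ∃ m : ℕ, ∀ q ∈ K.Q, N q ≤ m := ⟨K.Q.sup N, fun q hq => Finset.le_sup hq⟩
  refine ⟨m, ?_⟩
  have h : ∃ C : ℝ, ∀ l ∈ tsupport K.chi, l ∈ K.V → l ∉ K.Q →
      ‖resolvent (T Phi) l * Nqp Phi K.Q m‖ ≤ C := by
    refine K.cpt.isCompact.induction_on (p := fun S => ∃ C : ℝ, ∀ l ∈ S, l ∈ K.V → l ∉ K.Q →
      ‖resolvent (T Phi) l * Nqp Phi K.Q m‖ ≤ C) ?_ ?_ ?_ ?_
    · exact ⟨0, fun l hl => absurd hl (notMem_empty l)⟩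
    · rintro s t hst ⟨C, hC⟩
      exact ⟨C, fun l hl => hC l (hst hl)⟩
    · rintro s t ⟨C, hC⟩ ⟨C', hC'⟩
      refine ⟨max C C', fun l hl h1 h2 => ?_⟩
      rcases hl with hl | hl
      · exact (hC l hl h1 h2).trans (le_max_left _ _)
      · exact (hC' l hl h1 h2).trans (le_max_right _ _)
    · intro x _
      by_cases hxQ : x ∈ K.Q
      · obtain ⟨C, hC⟩ := hN x hxQ m (hm x hxQ)
        refine ⟨_, mem_nhdsWithin_of_mem_nhds hC, C, fun l hl h1 h2 => ?_⟩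
        exact (hl (fun h3 => h2 (h3 ▸ hxQ)) h1).2
      · by_cases hxS : x ∈ Sg phi
        · exact ⟨_, mem_nhdsWithin_of_mem_nhds (K.V_off hxS hxQ), 0, fun l hl h1 => absurd h1 hl⟩
        · have hr := PBd_rT hphi hPhi x hxS
          have hc : ContinuousAt (fun l => ‖resolvent (T Phi) l * Nqp Phi K.Q m‖) x :=
            (((spectrum.hasDerivAt_resolvent_const_left hr).continuousAt).mul
              continuousAt_const).norm
          have h1 := hc.eventually (gt_mem_nhds (lt_add_one _))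
          exact ⟨_, mem_nhdsWithin_of_mem_nhds h1, _, fun l hl _ _ => le_of_lt hl⟩
  obtain ⟨C, hC⟩ := h
  exact ⟨C, fun l hl => hC l (K.V_subset hl) hl⟩

end Pool.Agent.TBirE
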