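import Pool.Agent.TBirE.CutE

/-!
# The weight `kap * dbar chi` and its Cauchy transform

As Pool/Agent/TBirM/STr.lean, for the cutoff `CutE`.
-/

set_option autoImplicit false

open MeasureTheory Complex Set Filter Topology Metric AddCircle
open scoped ComplexConjugate InnerProductSpace ENNReal
open Pool.Lib (dbar)

namespace Pool.Agent.TBirE

open Pool.Agent.TBir
open Pool.Agent.TBirS (Sg isCompact_Sg isOpen_compl_Sg off_Sg)
open Pool.Agent.TBirM (kap_zero_near lintegral_inv_far integrable_div)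

/-- The truncated Cauchy transform of `dbar chi`. -/
noncomputable def CutE.s {phi : ℂ → ℂ} {U1 U2 : Set ℂ} (K : CutE phi U1 U2) (n : ℕ) (mu : ℂ) : ℂ :=
  -(Real.pi : ℂ)⁻¹ * ∫ l : ℂ, (kap K.Q n l * dbar K.chi l) / (l - mu)

/-- The truncated functional calculus `chi (T Phi)`. -/
noncomputable def CutE.P {phi : ℂ → ℂ} {U1 U2 : Set ℂ} (K : CutE phi U1 U2) (Phi : CT) (n : ℕ) :
    Hardy →L[ℂ] Hardy :=
  -(Real.pi : ℂ)⁻¹ • ∫ l : ℂ, (kap K.Q n l * dbar K.chi l) • resolvent (T Phi) l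

/-- The weight. -/
noncomputable def CutE.w {phi : ℂ → ℂ} {U1 U2 : Set ℂ} (K : CutE phi U1 U2) (n : ℕ) (l : ℂ) : ℂ :=
  kap K.Q n l * dbar K.chi l

theorem isOpen_compl_Q {phi : ℂ → ℂ} {U1 U2 : Set ℂ} (K : CutE phi U1 U2) : IsOpen ((K.Q : Set ℂ)ᶜ) :=
  K.Q.finite_toSet.isClosed.isOpen_compl

theorem CutE.w_zero_near {phi : ℂ → ℂ} {U1 U2 : Set ℂ} (K : CutE phi U1 U2) (n : ℕ) {l : ℂ}
    (hl : l ∈ Sg phi) : ∀ᶠ l' in 𝓝 l, K.w n l' = 0 := by
  by_cases hq : l ∈ K.Q
  · filter_upwards [kap_zero_near hq n] with l' hl'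
    unfold CutE.w
    rw [hl', zero_mul]
  · have key : ∀ c : ℂ, (∀ᶠ l' in 𝓝 l, K.chi l' = c) → ∀ᶠ l' in 𝓝 l, K.w n l' = 0 := by
      intro c hc
      filter_upwards [hc.eventually_nhds] with l' hl'
      unfold CutE.w
      have h1 : K.chi =ᶠ[𝓝 l'] fun _ => c := hl'
      rw [Pool.Lib.dbar_congr h1, Pool.Lib.dbar_eq_zero (differentiableAt_const _), mul_zero]
    rcases K.cov l hl hq with h | h
    · exact key 1 (K.one l hl h hq)
    · exact key 0 (K.zero l hl h hq)

theorem continuousAt_dbar_chi {phi : ℂ → ℂ} {U1 U2 : Set ℂ} (K : CutE phi U1 U2) {l : ℂ} (hl : l ∉ K.Q) :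
    ContinuousAt (dbar K.chi) l := by
  have h1 : ContinuousOn (fderiv ℝ K.chi) ((K.Q : Set ℂ)ᶜ) :=
    K.smooth.continuousOn_fderiv_of_isOpen (isOpen_compl_Q K) le_rfl
  have h2 : ContinuousAt (fderiv ℝ K.chi) l :=
    h1.continuousAt ((isOpen_compl_Q K).mem_nhds (by simpa using hl))
  have h3 : ContinuousAt (fun z => (fderiv ℝ K.chi z 1 + I * fderiv ℝ K.chi z I) / 2) l :=
    ((h2.clm_apply continuousAt_const).add
      (continuousAt_const.mul (h2.clm_apply continuousAt_const))).div_const 2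
  exact h3

theorem CutE.continuous_w {phi : ℂ → ℂ} {U1 U2 : Set ℂ} (K : CutE phi U1 U2) (n : ℕ) : Continuous (K.w n) := by
  rw [continuous_iff_continuousAt]
  intro l
  by_cases hq : l ∈ K.Q
  · have h1 : K.w n =ᶠ[𝓝 l] fun _ => 0 := by
      filter_upwards [kap_zero_near hq n] with l' hl'
      unfold CutE.w
      rw [hl', zero_mul]
    exact continuousAt_const.congr h1.symm
  · exact (contDiff_kap K.Q n).continuous.continuousAt.mul (continuousAt_dbar_chi K hq)

theorem CutE.hasCompactSupport_w {phi : ℂ → ℂ} {U1 U2 : Set ℂ} (K : CutE phi U1 U2) (n : ℕ) :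
    HasCompactSupport (K.w n) := by
  have h1 : HasCompactSupport (dbar K.chi) :=
    K.cpt.isCompact.of_isClosed_subset (isClosed_tsupport _) (Pool.Lib.tsupport_dbar_subset _)
  exact h1.mul_left

/-- The error term. -/
private noncomputable def uu {phi : ℂ → ℂ} {U1 U2 : Set ℂ} (K : CutE phi U1 U2) (n : ℕ) (l : ℂ) : ℂ :=
  dbar (kap K.Q n) l * K.chi l

private noncomputable def gg {phi : ℂ → ℂ} {U1 U2 : Set ℂ} (K : CutE phi U1 U2) (n : ℕ) (l : ℂ) : ℂ :=
  kap K.Q n l * K.chi l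

private theorem contDiff_gg {phi : ℂ → ℂ} {U1 U2 : Set ℂ} (K : CutE phi U1 U2) (n : ℕ) : ContDiff ℝ 1 (gg K n) := by
  rw [contDiff_iff_contDiffAt]
  intro l
  by_cases hq : l ∈ K.Q
  · have h1 : gg K n =ᶠ[𝓝 l] fun _ => 0 := by
      filter_upwards [kap_zero_near hq n] with l' hl'
      unfold gg
      rw [hl', zero_mul]
    exact contDiffAt_const.congr_of_eventuallyEq h1
  · exact (contDiff_kap K.Q n).contDiffAt.mul
      (K.smooth.contDiffAt ((isOpen_compl_Q K).mem_nhds (by simpa using hq)))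

private theorem cpt_gg {phi : ℂ → ℂ} {U1 U2 : Set ℂ} (K : CutE phi U1 U2) (n : ℕ) : HasCompactSupport (gg K n) :=
  K.cpt.mul_left

private theorem dbar_gg {phi : ℂ → ℂ} {U1 U2 : Set ℂ} (K : CutE phi U1 U2) (n : ℕ) (l : ℂ) :
    dbar (gg K n) l = uu K n l + K.w n l := by
  by_cases hq : l ∈ K.Q
  · have h0 := kap_zero_near hq n
    have h1 : gg K n =ᶠ[𝓝 l] fun _ => 0 := by
      filter_upwards [h0] with l' hl'
      unfold gg
      rw [hl', zero_mul]
    have h2 : kap K.Q n =ᶠ[𝓝 l] fun _ => 0 := h0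
    unfold uu CutE.w
    rw [Pool.Lib.dbar_congr h1, Pool.Lib.dbar_congr h2,
      Pool.Lib.dbar_eq_zero (differentiableAt_const _),
      kap_eq_zero hq (by rw [sub_self, norm_zero]; positivity)]
    ring
  · have hk : DifferentiableAt ℝ (kap K.Q n) l :=
      (contDiff_kap K.Q n).contDiffAt.differentiableAt one_ne_zero
    have hc : DifferentiableAt ℝ K.chi l :=
      (K.smooth.contDiffAt ((isOpen_compl_Q K).mem_nhds (by simpa using hq))).differentiableAt
        one_ne_zero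
    have h : fderiv ℝ (gg K n) l = kap K.Q n l • fderiv ℝ K.chi l +
        K.chi l • fderiv ℝ (kap K.Q n) l := fderiv_fun_mul hk hc
    unfold uu CutE.w dbar
    rw [h]
    simp only [add_apply, smul_apply, smul_eq_mul]
    ring

private theorem continuous_uu {phi : ℂ → ℂ} {U1 U2 : Set ℂ} (K : CutE phi U1 U2) (n : ℕ) : Continuous (uu K n) := by
  have h : uu K n = fun l => dbar (gg K n) l - K.w n l := by
    funext l
    rw [dbar_gg]
    ring
  rw [h]
  exact (Pool.Lib.continuous_dbar (contDiff_gg K n)).sub (K.continuous_w n)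

private theorem cpt_uu {phi : ℂ → ℂ} {U1 U2 : Set ℂ} (K : CutE phi U1 U2) (n : ℕ) : HasCompactSupport (uu K n) :=
  K.cpt.mul_left

private theorem norm_int_uu_le {phi : ℂ → ℂ} {U1 U2 : Set ℂ} (K : CutE phi U1 U2) {C : ℝ} (hC0 : 0 < C)
    (hC : ∀ (n : ℕ) (l : ℂ), ‖dbar (kap K.Q n) l‖ ≤ C * ((n : ℝ) + 1)) (n : ℕ) (mu : ℂ) {c : ℝ}
    (hc0 : 0 ≤ c) (hc : ∀ q ∈ K.Q, ∫⁻ l in closedBall q (2 / ((n : ℝ) + 1)),
      ENNReal.ofReal (1 / ‖l - mu‖) ≤ ENNReal.ofReal c) :
    ‖∫ l, uu K n l / (l - mu)‖ ≤ K.Q.card * (C * ((n : ℝ) + 1) * c) := by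
  have hn : (0 : ℝ) < (n : ℝ) + 1 := by positivity
  have h1 : ∀ l, ‖uu K n l / (l - mu)‖ₑ ≤ ∑ q ∈ K.Q, (closedBall q (2 / ((n : ℝ) + 1))).indicator
      (fun l => ENNReal.ofReal (C * ((n : ℝ) + 1)) * ENNReal.ofReal (1 / ‖l - mu‖)) l := by
    intro l
    by_cases h0 : dbar (kap K.Q n) l = 0
    · have : uu K n l = 0 := by
        unfold uu
        rw [h0, zero_mul]
      rw [this]
      simp
    · obtain ⟨q, hq, _, hq2⟩ := dbar_kap_ne h0
      have hmem : l ∈ closedBall q (2 / ((n : ℝ) + 1)) := by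
        rw [mem_closedBall, dist_eq_norm]
        exact hq2
      refine le_trans ?_ (Finset.single_le_sum (f := fun q =>
        (closedBall q (2 / ((n : ℝ) + 1))).indicator
        (fun l => ENNReal.ofReal (C * ((n : ℝ) + 1)) * ENNReal.ofReal (1 / ‖l - mu‖)) l)
        (fun _ _ => zero_le) hq)
      rw [Set.indicator_of_mem hmem, ← ofReal_norm, norm_div, div_eq_mul_one_div,
        ENNReal.ofReal_mul (norm_nonneg _)]
      gcongr
      unfold uu
      rw [norm_mul]
      calc ‖dbar (kap K.Q n) l‖ * ‖K.chi l‖ ≤ (C * ((n : ℝ) + 1)) * 1 := by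
            gcongr
            · exact hC n l
            · exact K.norm_le l
        _ = C * ((n : ℝ) + 1) := mul_one _
  have h2 : ‖∫ l, uu K n l / (l - mu)‖ₑ ≤ ENNReal.ofReal (K.Q.card * (C * ((n : ℝ) + 1) * c)) := by
    refine (enorm_integral_le_lintegral_enorm _).trans ((lintegral_mono h1).trans ?_)
    rw [lintegral_finsetSum]
    · have h3 : ∀ q ∈ K.Q, ∫⁻ l, (closedBall q (2 / ((n : ℝ) + 1))).indicator
          (fun l => ENNReal.ofReal (C * ((n : ℝ) + 1)) * ENNReal.ofReal (1 / ‖l - mu‖)) l ≤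
          ENNReal.ofReal (C * ((n : ℝ) + 1) * c) := by
        intro q hq
        rw [lintegral_indicator measurableSet_closedBall,
          lintegral_const_mul' _ _ ENNReal.ofReal_ne_top,
          ENNReal.ofReal_mul (p := C * ((n : ℝ) + 1)) (q := c) (by positivity)]
        gcongr
        exact hc q hq
      refine (Finset.sum_le_card_nsmul _ _ _ h3).trans ?_
      rw [ENNReal.ofReal_mul (Nat.cast_nonneg _), ENNReal.ofReal_natCast, nsmul_eq_mul]
    · intro q _
      apply Measurable.indicator _ measurableSet_closedBall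
      fun_prop
  rw [← ofReal_norm, ENNReal.ofReal_le_ofReal_iff (by positivity)] at h2
  exact h2

private theorem s_eq {phi : ℂ → ℂ} {U1 U2 : Set ℂ} (K : CutE phi U1 U2) (n : ℕ) (mu : ℂ) :
    K.s n mu = kap K.Q n mu * K.chi mu + (Real.pi : ℂ)⁻¹ * ∫ l, uu K n l / (l - mu) := by
  have h := Pool.Lib.integral_dbar_div_sub (gg K n) (contDiff_gg K n) (cpt_gg K n) mu
  have h1 : ∀ l, dbar (gg K n) l / (l - mu) = uu K n l / (l - mu) + K.w n l / (l - mu) := by
    intro l
    rw [dbar_gg, add_div]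
  simp_rw [h1] at h
  rw [integral_add (integrable_div (continuous_uu K n) (cpt_uu K n) mu)
    (integrable_div (K.continuous_w n) (K.hasCompactSupport_w n) mu)] at h
  have h2 : K.s n mu = -(Real.pi : ℂ)⁻¹ * ∫ l, K.w n l / (l - mu) := rfl
  have h3 : ∫ l, K.w n l / (l - mu) = -Real.pi * gg K n mu - ∫ l, uu K n l / (l - mu) := by
    linear_combination h
  have hpi : (Real.pi : ℂ) ≠ 0 := by exact_mod_cast Real.pi_ne_zero
  rw [h2, h3]
  unfold gg
  field_simp
  ring

theorem CutE.norm_s_le {phi : ℂ → ℂ} {U1 U2 : Set ℂ} (K : CutE phi U1 U2) : ∃ C : ℝ, ∀ n mu, ‖K.s n mu‖ ≤ C := by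
  obtain ⟨C, hC0, hC⟩ := norm_dbar_kap_le K.Q
  refine ⟨1 + Real.pi⁻¹ * (K.Q.card * (C * (12 * Real.pi))), fun n mu => ?_⟩
  have hn : (0 : ℝ) < (n : ℝ) + 1 := by positivity
  have h1 := norm_int_uu_le K hC0 hC n mu (c := 6 * Real.pi * (2 / ((n : ℝ) + 1)))
    (by positivity) (fun q _ => lintegral_inv_ball_le q mu (by positivity))
  have h2 : C * ((n : ℝ) + 1) * (6 * Real.pi * (2 / ((n : ℝ) + 1))) = C * (12 * Real.pi) := by
    field_simp
    ring
  rw [h2] at h1
  rw [s_eq]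
  refine (norm_add_le _ _).trans (add_le_add ?_ ?_)
  · rw [norm_mul]
    exact mul_le_one₀ (norm_kap_le _ _ _) (norm_nonneg _) (K.norm_le _)
  · rw [norm_mul, norm_inv, Complex.norm_real, Real.norm_eq_abs, abs_of_pos Real.pi_pos]
    gcongr

theorem CutE.tendsto_s {phi : ℂ → ℂ} {U1 U2 : Set ℂ} (K : CutE phi U1 U2) {mu : ℂ} (hmu : mu ∉ K.Q) :
    Tendsto (fun n => K.s n mu) atTop (𝓝 (K.chi mu)) := by
  obtain ⟨C, hC0, hC⟩ := norm_dbar_kap_le K.Q
  obtain ⟨d, hd, hball⟩ := Metric.isOpen_iff.1 (isOpen_compl_Q K) mu (by simpa using hmu)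
  have hdist : ∀ q ∈ K.Q, d ≤ ‖mu - q‖ := by
    intro q hq
    by_contra h
    push Not at h
    have : q ∈ ball mu d := by
      rw [mem_ball, dist_comm, dist_eq_norm]
      exact h
    exact hball this (by simpa using hq)
  rw [tendsto_iff_norm_sub_tendsto_zero]
  have hlim : Tendsto (fun n : ℕ => (K.Q.card * C * (8 / d)) * (1 / ((n : ℝ) + 1))) atTop (𝓝 0) := by
    have := (tendsto_one_div_add_atTop_nhds_zero_nat (𝕜 := ℝ)).const_mul
      (K.Q.card * C * (8 / d))
    rwa [mul_zero] at this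
  have hev : ∀ᶠ n : ℕ in atTop, 1 / ((n : ℝ) + 1) < d / 4 := by
    have := (tendsto_one_div_add_atTop_nhds_zero_nat (𝕜 := ℝ)).eventually
      (gt_mem_nhds (show (0 : ℝ) < d / 4 by linarith))
    exact this
  refine squeeze_zero' (Eventually.of_forall fun n => norm_nonneg _) ?_ hlim
  filter_upwards [hev] with n hn1
  have hn : (0 : ℝ) < (n : ℝ) + 1 := by positivity
  have hr : 2 / ((n : ℝ) + 1) ≤ d / 2 := by
    have : 2 / ((n : ℝ) + 1) = 2 * (1 / ((n : ℝ) + 1)) := by ring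
    rw [this]
    linarith
  have hk : kap K.Q n mu = 1 := by
    apply kap_eq_one
    intro q hq
    have := hdist q hq
    linarith
  have h1 := norm_int_uu_le K hC0 hC n mu
    (c := 1 / (d / 2) * (Real.pi * (2 / ((n : ℝ) + 1)) ^ 2))
    (by positivity) (by
      intro q hq
      apply lintegral_inv_far q mu (by positivity) (by positivity)
      intro l hl
      rw [mem_closedBall, dist_eq_norm] at hl
      have h3 : ‖mu - q‖ ≤ ‖l - q‖ + ‖l - mu‖ := by
        have : mu - q = (l - q) - (l - mu) := by ring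
        rw [this]
        exact norm_sub_le _ _
      have := hdist q hq
      linarith)
  have h2 : K.s n mu - K.chi mu = (Real.pi : ℂ)⁻¹ * ∫ l, uu K n l / (l - mu) := by
    rw [s_eq, hk]
    ring
  rw [h2, norm_mul, norm_inv, Complex.norm_real, Real.norm_eq_abs, abs_of_pos Real.pi_pos]
  calc Real.pi⁻¹ * ‖∫ l, uu K n l / (l - mu)‖ ≤ Real.pi⁻¹ * (K.Q.card * (C * ((n : ℝ) + 1) *
        (1 / (d / 2) * (Real.pi * (2 / ((n : ℝ) + 1)) ^ 2)))) := by gcongr
    _ = (K.Q.card * C * (8 / d)) * (1 / ((n : ℝ) + 1)) := by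
      have := Real.pi_ne_zero
      field_simp
      ring

end Pool.Agent.TBirE
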